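import Mathlib.Data.Nat.Bitwise
import Mathlib.Data.List.Basic

/-! A checker for case analyses on templates of edge colourings.
A template has named cells (exactly one vertex each), class cells (any number of vertices)
and a table of allowed colours between cells. -/

namespace Pool.Agent.Lib.MP_ab18c1_co

structure Tm where
  n : Nat
  N : List Nat
  C : List Nat
  M : Nat

def pos (a b : Nat) : Nat := Nat.add (Nat.mul 256 a) (Nat.mul 8 b)

def gt (M a b : Nat) : Nat := Nat.mod (Nat.shiftRight M (pos a b)) 32

def bt (m q : Nat) : Bool := Nat.beq (Nat.mod (Nat.shiftRight m q) 2) 1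

def CM : Nat := 2402070611342894102121208806387776037768026546485362442656988230705580980113869281080391622463304464864781591287868112259674107898013672716800083382987446603177814802781257465191998415610623362369228412874539205332593668194686334578414154235281599113894226654061715068200431301385969758576736129927948452636260365385147562603629135050168908489814531746275688583894452562799608210927623977997975150186252272120494848940712841433071574971738722433500993141109295287521185831943434800182085732429089359571608263888579366693508563183910811475099191133951940708543770986872799689347219526662575403355859768733978643294036482623662757559964766927308910475556978988146445059199144198650685119793610833284401768300618843010785418274069113062558871283422673010975016838800705043943366640582982634245986234371151894799421110779622169772864832946063538370138961843160571485861356701121252568631965556896883300661639717432191528864317226814892762539300053691806967776072494403505284357396971220715517249761653010594345317065915513926683451344485744776495160464973192738902695999746644903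518268493616418017209754249704944523692298226223388182589834750394745764135492926578162979817127431700050123617795408547160816617845073229447500013284589908519447049719624738150983286385287238646413813177742880022348330924532485994161258471572290585597335372485544666352430273379349753587512045272660335591035180005851343959249518124547781730754076654600271503345785237635856080016146150014267112415497841273942961644735545343908856791922610545319213039843976321962478040245453650668441611363757597489059806634962175713279869930375689525568414771656478427887395959540764788409638392994280955174211257004037930351309928777946730449403858802944573338472392440300882591131787603948860789458386687598566821815336137614538290442108563347562253984246105898799699471117955583972388428865171831335710959676603656276258345124778546459176852971238062747699195336387613337751009854500032359820626864024651832201146300809936939957884170841349841502566033151593671520494489457053276637954687835052074739464821671672239659026364233594014010111393376086932500074693365812189354678734928996492844196129676289195577828877038262408350825303461372732397613572415901286131916521425713360174867396293117676386180290781592427547690030880195376203321139107334893667657216125049977145878615311384281639538932693108512608038781169791223726335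

def SPT : Nat := 81630840742465875152337607617512825170435296930610049861406543606788805791473621279584039362644339675552198334798360521619102534053696167591408713070561700421115141410390396090535507115417593595935949759253399013346375053759946081784323768215127647100392629952753925778856985485654762940458805578427165839892077761987205086950188689113204266565231442906794114890924818645454505902080

def colM (M a m : Nat) : Nat :=
  Nat.lor M (Nat.shiftLeft (Nat.land (Nat.shiftRight M (Nat.mul 8 a)) CM) (Nat.mul 8 m))

def rowM (M a m : Nat) : Nat :=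
  Nat.lor M (Nat.shiftLeft (Nat.mod (Nat.shiftRight M (Nat.mul 256 a)) 115792089237316195423570985008687907853269984665640564039457584007913129639936) (Nat.mul 256 m))

def newM (M a m : Nat) : Nat := rowM (colM M a m) a m

def resM (M a b f : Nat) : Nat :=
  Nat.xor M (Nat.land M (Nat.lor (Nat.shiftLeft f (pos a b)) (Nat.shiftLeft f (pos b a))))

def only (d : Nat) : Nat := Nat.xor 31 (Nat.shiftLeft 1 d)

def mem (a : Nat) : List Nat → Bool
  | [] => false
  | b :: l => Nat.beq a b || mem a l

def Tm.addN (t : Tm) (a : Nat) : Tm := ⟨Nat.succ t.n, t.n :: t.N, t.C, newM t.M a t.n⟩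

def Tm.addC (t : Tm) (a : Nat) : Tm := ⟨Nat.succ t.n, t.N, t.n :: t.C, newM t.M a t.n⟩

def Tm.res (t : Tm) (a b f : Nat) : Tm := ⟨t.n, t.N, t.C, resM t.M a b f⟩

def Tm.kill (t : Tm) (a : Nat) : Tm := ⟨t.n, t.N, t.C.filter (fun b => !(Nat.beq b a)), t.M⟩

def Tm.norm (t : Tm) : Tm :=
  ⟨t.n, t.N, t.C.filter (fun a => t.N.all (fun p => !(Nat.beq (gt t.M a p) 0))), t.M⟩

def bnd (o : Option (List Nat)) (k : List Nat → Option (List Nat)) : Option (List Nat) :=
  match o with
  | none => none
  | some r => k r

def allP (f : Nat → List Nat → Option (List Nat)) : List Nat → List Nat → Option (List Nat)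
  | [], p => some p
  | a :: l, p => bnd (f a p) (allP f l)

def withN (t : Tm) (a : Nat) (k : Tm → Nat → List Nat → Option (List Nat)) (p : List Nat) :
    Option (List Nat) :=
  bif Nat.blt t.n 32 then k (t.addN a) t.n p else none

def nameIt (t : Tm) (a : Nat) (k : Tm → Nat → List Nat → Option (List Nat)) (p : List Nat) :
    Option (List Nat) :=
  bif mem a t.C then withN t a k p else k t a p

def choose (rem : Nat) (k : Tm → Nat → List Nat → Option (List Nat)) (t : Tm) (p : List Nat) :
    Option (List Nat) :=
  bnd (allP (fun a q => bif Nat.beq a rem then some q else k t a q) t.N p)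
    (allP (fun a q => withN t a k q) t.C)

def okL (M d a Y : Nat) : Bool :=
  Nat.beq (Nat.land Y (Nat.shiftRight M (Nat.add (Nat.mul 256 a) d))) Y

def bitc (a : Nat) : Nat := Nat.shiftLeft 1 (Nat.mul 8 a)

def mk (M x s : Nat) : Nat := bif Nat.beq s 32 then 31 else gt M x s

def sp (m : Nat) : Nat := Nat.mod (Nat.shiftRight SPT (Nat.mul 40 m)) 1099511627776

def tyok (M TY s1 s2 x : Nat) : Bool :=
  !(Nat.beq (Nat.land (Nat.mul (mk M x s2) (sp (mk M x s1))) TY) 0)

def dfs (M d TY s1 s2 : Nat) (k : Nat → Nat → List Nat → Option (List Nat)) :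
    List Nat → Nat → Nat → List Nat → Option (List Nat)
  | [], X, Y, p => k X Y p
  | a :: l, X, Y, p =>
    bnd (bif okL M d a Y && tyok M TY s1 s2 a then dfs M d TY s1 s2 k l (Nat.lor X (bitc a)) Y p
        else some p)
      (fun r => bif okL M d a X then dfs M d TY s1 s2 k l X (Nat.lor Y (bitc a)) r else some r)

def cls (d TY s1 s2 X Y : Nat) (k : Tm → List Nat → List Nat → List Nat → Option (List Nat)) :
    List Nat → Tm → List Nat → List Nat → List Nat → Option (List Nat)
  | [], t, LX, LY, p => k t LX LY p
  | b :: l, t, LX, LY, p =>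
    bif okL t.M d b Y && tyok t.M TY s1 s2 b then
      bif okL t.M d b X then
        bif Nat.blt t.n 32 then cls d TY s1 s2 X Y k l (t.addC b) (b :: LX) (t.n :: LY) p
        else none
      else cls d TY s1 s2 X Y k l t (b :: LX) LY p
    else
      bif okL t.M d b X then cls d TY s1 s2 X Y k l t LX (b :: LY) p
      else cls d TY s1 s2 X Y k l (t.kill b) LX LY p

def resRow (f a : Nat) : List Nat → Tm → Tm
  | [], t => t
  | b :: l, t => resRow f a l (t.res a b f)

def resAll (f : Nat) (LY : List Nat) : List Nat → Tm → Tm
  | [], t => t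
  | a :: l, t => resAll f LY l (resRow f a LY t)

def witY (d : Nat) (k : Tm → List Nat → Option (List Nat)) (Y : Nat) (CY : List Nat) (t : Tm)
    (X : Nat) (p : List Nat) : Option (List Nat) :=
  bif Nat.beq Y 0 then
    allP (fun b q => bif okL t.M d b X then withN t b (fun s _ r => k s r) q else some q) CY p
  else k t p

def witX (d : Nat) (k : Tm → List Nat → Option (List Nat)) (X Y : Nat) (CX CY : List Nat)
    (t : Tm) (p : List Nat) : Option (List Nat) :=
  bif Nat.beq X 0 then
    allP (fun b q => withN t b (fun s m r => witY d k Y CY s (bitc m) r) q) CX p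
  else witY d k Y CY t X p

def wit (d : Nat) (k : Tm → List Nat → Option (List Nat)) (X Y : Nat) (t : Tm)
    (CX CY : List Nat) (p : List Nat) : Option (List Nat) :=
  witX d k X Y CX CY
    (resAll (only d) (t.N.filter (fun a => bt Y (Nat.mul 8 a)) ++ CY)
      (t.N.filter (fun a => bt X (Nat.mul 8 a)) ++ CX) t) p

def sep2 (d TY rem : Nat) (k : Tm → List Nat → Option (List Nat)) (t : Tm) (s1 s2 : Nat)
    (p : List Nat) : Option (List Nat) :=
  dfs t.M d TY s1 s2 (fun X Y q => cls d TY s1 s2 X Y (wit d k X Y) t.C t [] [] q)
    (t.N.filter (fun a => !(Nat.beq a s1 || Nat.beq a s2 || Nat.beq a rem))) 0 0 p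

def sep1 (d i TY rem : Nat) (k : Tm → List Nat → Option (List Nat)) (t : Tm) (s1 : Nat)
    (p : List Nat) : Option (List Nat) :=
  bnd (sep2 d TY rem k t s1 32 p)
    (choose rem (fun s s2 q =>
      bif Nat.beq s2 s1 then some q
      else bif Nat.beq s1 32 then sep2 d TY rem k s s1 s2 q
      else bif bt (gt s.M s1 s2) i then sep2 d TY rem k (s.res s1 s2 (only i)) s1 s2 q
      else some q) t)

def sep (d i TY rem : Nat) (k : Tm → List Nat → Option (List Nat)) (t : Tm) (p : List Nat) :
    Option (List Nat) :=
  bnd (sep1 d i TY rem k t 32 p) (choose rem (sep1 d i TY rem k) t)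

def tyL (M u v rem : Nat) : List Nat → Nat
  | [] => 0
  | w :: l =>
    bif Nat.beq w u || Nat.beq w v || Nat.beq w rem then tyL M u v rem l
    else Nat.lor (Nat.mul (gt M w v) (sp (gt M w u))) (tyL M u v rem l)

def tab (TB w o : Nat) : Nat :=
  Nat.mod (Nat.mod (Nat.shiftRight TB (Nat.mul 2 (Nat.add (Nat.mul 16 w) o))) 4) 3

/-- Role codes: below `9` an old vertex, `9` and `10` the two glued vertices,
`11 + w` a vertex of the blob of cell `w`; here `r ≤ q`. -/
def pairLe (ty : Bool) (M TB i u v m r q : Nat) : Bool :=
  bif Nat.blt q 9 then true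
  else bif Nat.blt r 9 then
    bif Nat.beq q 9 then (!ty || bt m (Nat.div r 3))
    else bif Nat.beq q 10 then (!ty || bt m (Nat.mod r 3))
    else bt m (tab TB (Nat.sub q 11) r)
  else bif Nat.beq r 9 then
    bif Nat.beq q 9 then false
    else bif Nat.beq q 10 then bt m i
    else !(Nat.beq (Nat.land m (gt M (Nat.sub q 11) u)) 0)
  else bif Nat.beq r 10 then
    bif Nat.beq q 10 then false
    else !(Nat.beq (Nat.land m (gt M (Nat.sub q 11) v)) 0)
  else (Nat.beq r q || !(Nat.beq (Nat.land m (gt M (Nat.sub r 11) (Nat.sub q 11))) 0))

def pairOk (ty : Bool) (M TB i u v m r q : Nat) : Bool :=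
  bif Nat.ble r q then pairLe ty M TB i u v m r q else pairLe ty M TB i u v m q r

def swapP (M TB i v x w : Nat) (L : List (Nat × Nat)) : Bool :=
  L.all (fun e => Nat.beq e.1 x ||
    (bif Nat.blt e.2 9 then Nat.beq (tab TB w e.2) (Nat.div e.2 3)
     else Nat.beq e.2 10 && Nat.beq (gt M w v) (Nat.shiftLeft 1 i)))

def swapQ (M TB i u x w : Nat) (L : List (Nat × Nat)) : Bool :=
  L.all (fun e => Nat.beq e.1 x ||
    (bif Nat.blt e.2 9 then Nat.beq (tab TB w e.2) (Nat.mod e.2 3)
     else Nat.beq e.2 9 && Nat.beq (gt M w u) (Nat.shiftLeft 1 i)))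

def specFin (sw : Bool) (M TB i u v : Nat) (L : List (Nat × Nat)) : Bool :=
  L.all (fun e => Nat.blt e.2 11) || L.all (fun e => Nat.ble 9 e.2) ||
    (sw && L.any (fun e => Nat.ble 11 e.2 &&
      (swapP M TB i v e.1 (Nat.sub e.2 11) L || swapQ M TB i u e.1 (Nat.sub e.2 11) L)))

def specD (ty sw : Bool) (M M2 TB i u v : Nat) (R : List Nat) :
    List Nat → List (Nat × Nat) → Bool
  | [], L => specFin sw M TB i u v L
  | x :: l, L => R.all (fun r =>
      !(L.all (fun e => Nat.beq e.1 x || pairOk ty M TB i u v (gt M2 x e.1) r e.2)) ||
        specD ty sw M M2 TB i u v R l ((x, r) :: L))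

def chooseC (k : Tm → List Nat → Option (List Nat)) (t : Tm) (p : List Nat) :
    Option (List Nat) :=
  bnd (k t p) (allP (fun a q => withN t a (fun s _ r => k s r) q) t.C)

def roles (ty : Bool) (t : Tm) (u v rem : Nat) : List Nat :=
  (bif ty then [0, 1, 2, 3, 4, 5, 6, 7, 8, 9, 10] else [0, 9, 10]) ++
    ((t.N ++ t.C).filter (fun w => !(Nat.beq w u || Nat.beq w v || Nat.beq w rem))).map
      (fun w => Nat.add w 11)

def spec (ty : Bool) (TB i u v rem : Nat) (t : Tm) (p : List Nat) : Option (List Nat) :=
  chooseC (chooseC (fun s q =>
    bif specD ty (ty && t.C.isEmpty) t.M s.M TB i u v (roles ty t u v rem)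
      (s.N.filter (fun a => !(Nat.beq a rem))).reverse [] then some q else none)) t p

def edgeOk (t : Tm) (u v rem j : Nat) : Bool :=
  mem u t.N && mem v t.N && !(Nat.beq u v || Nat.beq u rem || Nat.beq v rem) &&
    Nat.beq (gt t.M u v) (Nat.shiftLeft 1 j)

def ctx (nc : Nat) (k : Tm → List Nat → Option (List Nat)) (t : Tm) (rem i j : Nat) :
    List Nat → Option (List Nat)
  | 0 :: d :: p => bif Nat.blt d nc then sep d i 1099511627775 rem k t p else none
  | 1 :: d :: u :: v :: p =>
    bif Nat.blt d nc && edgeOk t u v rem j then
      sep d i (tyL t.M u v rem (t.N ++ t.C)) rem k t p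
    else none
  | 2 :: u :: v :: ty :: TB :: p =>
    bif Nat.beq nc 3 && edgeOk t u v rem j then spec (Nat.beq ty 1) TB i u v rem t p else none
  | _ => none

def sub (a b : Nat) : Bool := Nat.beq (Nat.land a b) a

def dig (P a : Nat) : Nat := Nat.mod (Nat.shiftRight P (Nat.mul 5 a)) 32

def refOk (t L : Tm) (P I : Nat) : Bool :=
  (t.N ++ t.C).all (fun a => mem (dig P a) L.C ||
      (mem (dig P a) L.N && Nat.beq (dig I (dig P a)) a)) &&
    L.N.all (fun q => mem (dig I q) t.N && Nat.beq (dig P (dig I q)) q && !(mem q L.C)) &&
    t.N.all (fun a => (t.N ++ t.C).all (fun b =>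
      Nat.beq a b || sub (gt t.M a b) (gt L.M (dig P a) (dig P b)))) &&
    t.C.all (fun a => (t.N ++ t.C).all (fun b => sub (gt t.M a b) (gt L.M (dig P a) (dig P b))))

def unusedOk (t : Tm) (d : Nat) : Bool :=
  t.N.all (fun a => (t.N ++ t.C).all (fun b => Nat.beq a b || !(bt (gt t.M a b) d))) &&
    t.C.all (fun a => t.C.all (fun b => !(bt (gt t.M a b) d)))

def usedOk (t : Tm) (x d : Nat) : Bool :=
  t.N.any (fun u => t.N.any (fun v => edgeOk t u v x d))

def extOne (M a b1 b2 x y : Nat) (N : List Nat) : Bool :=
  (N.filter (fun q => !(Nat.beq q x || Nat.beq q y || bt (gt M y q) a))).any (fun q =>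
    (!(bt (gt M y q) b1) && !(bt (gt M y q) b2)) ||
    (N.filter (fun q => !(Nat.beq q x || Nat.beq q y || bt (gt M y q) a))).any (fun r =>
      !(Nat.beq r q) &&
      ((!(bt (gt M y q) b1) && !(bt (gt M y r) b1)) ||
       (!(bt (gt M y q) b2) && !(bt (gt M y r) b2)) ||
       (N.filter (fun q => !(Nat.beq q x || Nat.beq q y || bt (gt M y q) a))).any (fun s =>
        !(Nat.beq s q || Nat.beq s r)))))

def redOk (t : Tm) (x a z1 z2 b1 b2 : Nat) : Bool :=
  Nat.blt a 3 && Nat.blt b1 3 && Nat.blt b2 3 && !(Nat.beq z1 z2) &&
    edgeOk t x z1 32 b1 && edgeOk t x z2 32 b2 &&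
    (t.N ++ t.C).all (fun y => Nat.beq y x || Nat.beq y z1 || Nat.beq y z2 ||
      Nat.beq (gt t.M x y) (Nat.shiftLeft 1 a)) &&
    usedOk t x 0 && usedOk t x 1 && usedOk t x 2 &&
    (t.N ++ t.C).all (fun y => Nat.beq y x || extOne t.M a b1 b2 x y t.N)

def six (k : Tm → List Nat → Option (List Nat)) (t : Tm) (rem : Nat) (p : List Nat) :
    Option (List Nat) :=
  allP (fun q r => ctx 3 k t rem (Nat.div q 3) (Nat.mod q 3) r) [1, 2, 3, 5, 6, 7] p

def step (nc bd : Nat) (lib : List Tm) (k : Tm → List Nat → Option (List Nat)) (t : Tm) :
    List Nat → Option (List Nat)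
  | 0 :: a :: b :: p =>
    bif mem a t.N && mem b t.N && !(Nat.beq a b) && Nat.beq (gt t.M a b) 0 then some p else none
  | 1 :: d :: p => bif Nat.blt d nc && unusedOk t d then some p else none
  | 2 :: l :: P :: I :: p =>
    bif Nat.blt l bd && refOk t (lib.getD l t) P I && Nat.blt l lib.length then some p else none
  | 3 :: a :: p =>
    bif mem a t.C then bnd (k (t.kill a) p) (withN t a (fun s _ r => k s r)) else none
  | 4 :: a :: b :: m :: p =>
    bif Nat.blt m 32 && Nat.blt a 32 && Nat.blt b 32 then
      bnd (k (t.res a b m) p)
        (nameIt t a (fun s x => nameIt s b (fun s' y r => k (s'.res x y (Nat.xor 31 m)) r)))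
    else none
  | 5 :: p => ctx nc k t 32 0 1 p
  | 6 :: x :: a :: z1 :: z2 :: b1 :: b2 :: p =>
    bif Nat.beq nc 3 && redOk t x a z1 z2 b1 b2 then six k t x p else none
  | 7 :: p => bif Nat.beq nc 3 then six k t 32 p else none
  | _ => none

def check (nc bd : Nat) (lib : List Tm) : Nat → Tm → List Nat → Option (List Nat)
  | 0, _, _ => none
  | f + 1, t, p => step nc bd lib (check nc bd lib f) t.norm p

def wf (t : Tm) : Bool :=
  Nat.ble t.n 32 && t.N.all (fun a => Nat.blt a t.n) &&
    t.C.all (fun a => Nat.blt a t.n && !(mem a t.N))

def top (nc : Nat) (lib : List Tm) (bd : Nat) (p : List Nat) : Bool :=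
  wf (lib.getD bd ⟨33, [], [], 0⟩) && (check nc bd lib 60 (lib.getD bd ⟨33, [], [], 0⟩) p).isSome

end Pool.Agent.Lib.MP_ab18c1_co
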