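import Mathlib.Tactic.Linarith
import Mathlib.Tactic.IntervalCases
import Pool.Agent.Lib.MP_ab18c1_co.Chk

/-! Bit-level facts about the table operations of the checker. -/

namespace Pool.Agent.Lib.MP_ab18c1_co

theorem beq_iff (a b : Nat) : Nat.beq a b = true ↔ a = b := Nat.beq_eq ▸ Iff.rfl

theorem beq_false (a b : Nat) : Nat.beq a b = false ↔ a ≠ b := by
  rw [Ne, ← beq_iff, Bool.not_eq_true]

theorem blt_iff (a b : Nat) : Nat.blt a b = true ↔ a < b := Nat.blt_eq ▸ Iff.rfl

theorem blt_false (a b : Nat) : Nat.blt a b = false ↔ b ≤ a := by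
  rw [← Nat.not_lt, ← blt_iff, Bool.not_eq_true]

theorem ble_iff (a b : Nat) : Nat.ble a b = true ↔ a ≤ b := Nat.ble_eq ▸ Iff.rfl

theorem ble_false (a b : Nat) : Nat.ble a b = false ↔ b < a := by
  rw [← Nat.not_le, ← ble_iff, Bool.not_eq_true]

theorem bt_eq (m q : Nat) : bt m q = m.testBit q := by
  have h : bt m q = Nat.beq ((m >>> q) % 2) 1 := rfl
  rw [h, Nat.testBit_eq_decide_div_mod_eq, Nat.shiftRight_eq_div_pow]
  by_cases h2 : m / 2 ^ q % 2 = 1
  · simp [h2]
  · simp only [h2, decide_false]; exact (beq_false _ _).2 h2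

theorem mem_iff (a : Nat) (l : List Nat) : mem a l = true ↔ a ∈ l := by
  induction l with
  | nil => simp [mem]
  | cons b l ih => simp [mem, ih]

theorem mem_false (a : Nat) (l : List Nat) : mem a l = false ↔ a ∉ l := by
  rw [← mem_iff]; simp

theorem gt_lt (M a b : Nat) : gt M a b < 32 := Nat.mod_lt _ (by decide)

theorem gt_bit (M a b k : Nat) (hk : k < 5) :
    (gt M a b).testBit k = M.testBit (256 * a + 8 * b + k) := by
  have h : gt M a b = (M >>> (256 * a + 8 * b)) % 2 ^ 5 := rfl
  rw [h, Nat.testBit_mod_two_pow, Nat.testBit_shiftRight]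
  simp [hk]

theorem CM_bit : ∀ x < 32, ∀ k < 5, CM.testBit (256 * x + k) = true := by decide +kernel

theorem colM_old {M a m q : Nat} (h : M.testBit q = true) : (colM M a m).testBit q = true := by
  have e : colM M a m = M ||| (((M >>> (8 * a)) &&& CM) <<< (8 * m)) := rfl
  rw [e, Nat.testBit_or, h]; rfl

theorem colM_new {M a m x k : Nat} (hx : x < 32) (hk : k < 5)
    (h : M.testBit (256 * x + 8 * a + k) = true) :
    (colM M a m).testBit (256 * x + 8 * m + k) = true := by
  have e : colM M a m = M ||| (((M >>> (8 * a)) &&& CM) <<< (8 * m)) := rfl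
  rw [e, Nat.testBit_or, Nat.testBit_shiftLeft, Nat.testBit_and, Nat.testBit_shiftRight]
  have e1 : 256 * x + 8 * m + k - 8 * m = 256 * x + k := by omega
  have e2 : 8 * a + (256 * x + k) = 256 * x + 8 * a + k := by omega
  have e3 : 256 * x + 8 * m + k ≥ 8 * m := by omega
  rw [e1, e2, h, CM_bit x hx k hk]; simp [e3]

theorem rowM_old {M a m q : Nat} (h : M.testBit q = true) : (rowM M a m).testBit q = true := by
  have e : rowM M a m = M ||| (((M >>> (256 * a)) % 2 ^ 256) <<< (256 * m)) := rfl
  rw [e, Nat.testBit_or, h]; rfl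

theorem rowM_new {M a m y k : Nat} (hy : y < 32) (hk : k < 5)
    (h : M.testBit (256 * a + 8 * y + k) = true) :
    (rowM M a m).testBit (256 * m + 8 * y + k) = true := by
  have e : rowM M a m = M ||| (((M >>> (256 * a)) % 2 ^ 256) <<< (256 * m)) := rfl
  rw [e, Nat.testBit_or, Nat.testBit_shiftLeft, Nat.testBit_mod_two_pow, Nat.testBit_shiftRight]
  have e1 : 256 * m + 8 * y + k - 256 * m = 8 * y + k := by omega
  have e2 : 256 * a + (8 * y + k) = 256 * a + 8 * y + k := by omega
  have e3 : 256 * m + 8 * y + k ≥ 256 * m := by omega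
  have e4 : 8 * y + k < 256 := by omega
  rw [e1, e2, h]; simp [e3, e4]

theorem newM_oo {M a m x y k : Nat} (hk : k < 5) (h : (gt M x y).testBit k = true) :
    (gt (newM M a m) x y).testBit k = true := by
  rw [gt_bit _ _ _ _ hk] at h ⊢; exact rowM_old (colM_old h)

theorem newM_on {M a m x k : Nat} (hx : x < 32) (hk : k < 5) (h : (gt M x a).testBit k = true) :
    (gt (newM M a m) x m).testBit k = true := by
  rw [gt_bit _ _ _ _ hk] at h ⊢; exact rowM_old (colM_new hx hk h)

theorem newM_no {M a m y k : Nat} (hy : y < 32) (hk : k < 5) (h : (gt M a y).testBit k = true) :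
    (gt (newM M a m) m y).testBit k = true := by
  rw [gt_bit _ _ _ _ hk] at h ⊢; exact rowM_new hy hk (colM_old h)

theorem newM_nn {M a m k : Nat} (ha : a < 32) (hm : m < 32) (hk : k < 5)
    (h : (gt M a a).testBit k = true) : (gt (newM M a m) m m).testBit k = true := by
  rw [gt_bit _ _ _ _ hk] at h ⊢; exact rowM_new hm hk (colM_new ha hk h)

theorem shl_bit {f a b x y k : Nat} (hf : f < 32) (hb : b < 32) (hy : y < 32) (hk : k < 5)
    (h : (f <<< (256 * a + 8 * b)).testBit (256 * x + 8 * y + k) = true) :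
    x = a ∧ y = b ∧ f.testBit k = true := by
  rw [Nat.testBit_shiftLeft] at h
  simp only [ge_iff_le, Bool.and_eq_true, decide_eq_true_eq] at h
  obtain ⟨h1, h2⟩ := h
  have h3 : 256 * x + 8 * y + k - (256 * a + 8 * b) < 5 := by
    by_contra hc
    have : f < 2 ^ (256 * x + 8 * y + k - (256 * a + 8 * b)) :=
      lt_of_lt_of_le (show f < 2 ^ 5 from hf) (Nat.pow_le_pow_right (by decide) (by omega))
    rw [Nat.testBit_lt_two_pow this] at h2
    exact absurd h2 (by simp)
  have hx : x = a := by omega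
  have hy' : y = b := by omega
  subst hx hy'
  refine ⟨rfl, rfl, ?_⟩
  have : 256 * x + 8 * y + k - (256 * x + 8 * y) = k := by omega
  rwa [this] at h2

theorem resM_bit {M a b f x y k : Nat} (hf : f < 32) (ha : a < 32) (hb : b < 32) (hy : y < 32)
    (hk : k < 5) (h : (gt M x y).testBit k = true)
    (h2 : ((x = a ∧ y = b) ∨ (x = b ∧ y = a)) → f.testBit k = false) :
    (gt (resM M a b f) x y).testBit k = true := by
  rw [gt_bit _ _ _ _ hk] at h ⊢
  have e : resM M a b f =
      M ^^^ (M &&& ((f <<< (256 * a + 8 * b)) ||| (f <<< (256 * b + 8 * a)))) := rfl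
  rw [e, Nat.testBit_xor, Nat.testBit_and, Nat.testBit_or, h]
  cases h3 : (f <<< (256 * a + 8 * b)).testBit (256 * x + 8 * y + k)
  · cases h4 : (f <<< (256 * b + 8 * a)).testBit (256 * x + 8 * y + k)
    · rfl
    · obtain ⟨e1, e2, e3⟩ := shl_bit hf ha hy hk h4
      rw [h2 (Or.inr ⟨e1, e2⟩)] at e3; exact absurd e3 (by simp)
  · obtain ⟨e1, e2, e3⟩ := shl_bit hf hb hy hk h3
    rw [h2 (Or.inl ⟨e1, e2⟩)] at e3; exact absurd e3 (by simp)

theorem only_lt : ∀ d < 5, only d < 32 := by decide

theorem only_bit : ∀ d < 5, (only d).testBit d = false := by decide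

theorem xor_lt : ∀ m < 32, Nat.xor 31 m < 32 := by decide

theorem xor_bit : ∀ m < 32, ∀ k < 5, m.testBit k = true → (Nat.xor 31 m).testBit k = false := by
  decide

theorem one_bit {d k : Nat} (h : (Nat.shiftLeft 1 d).testBit k = true) : k = d := by
  have e : Nat.shiftLeft 1 d = 2 ^ d := by
    show 1 <<< d = 2 ^ d
    rw [Nat.shiftLeft_eq, one_mul]
  rw [e, Nat.testBit_two_pow] at h
  simpa [eq_comm] using h

theorem bitc_bit (a q : Nat) : (bitc a).testBit q = decide (8 * a = q) := by
  have e : bitc a = 2 ^ (8 * a) := by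
    show 1 <<< (8 * a) = _
    rw [Nat.shiftLeft_eq, one_mul]
  rw [e, Nat.testBit_two_pow]

theorem okL_of {M d a Y : Nat} (hd : d < 5)
    (h : ∀ q, Y.testBit q = true → ∃ b, q = 8 * b ∧ (gt M a b).testBit d = true) :
    okL M d a Y = true := by
  have e : okL M d a Y = Nat.beq (Y &&& (M >>> (256 * a + d))) Y := rfl
  rw [e, beq_iff]
  apply Nat.eq_of_testBit_eq
  intro q
  rw [Nat.testBit_and, Nat.testBit_shiftRight]
  cases hq : Y.testBit q
  · rfl
  · obtain ⟨b, rfl, hb⟩ := h q hq
    rw [gt_bit _ _ _ _ hd] at hb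
    have : 256 * a + d + 8 * b = 256 * a + 8 * b + d := by omega
    rw [this, hb]; rfl

theorem sp_mul0 : ∀ m1 < 32, ∀ m2 < 32, ∀ a < 5, ∀ b < 5, (!(m1.testBit a) ||
    !(m2.testBit b) || (Nat.mul m2 (sp m1)).testBit (8 * a + b)) = true := by
  decide +kernel

theorem sp_mul {m1 m2 a b : Nat} (h1 : m1 < 32) (h2 : m2 < 32) (ha : a < 5) (hb : b < 5)
    (e1 : m1.testBit a = true) (e2 : m2.testBit b = true) :
    (Nat.mul m2 (sp m1)).testBit (8 * a + b) = true := by
  have := sp_mul0 m1 h1 m2 h2 a ha b hb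
  rw [e1, e2] at this
  simpa using this

theorem land_ne {x y q : Nat} (hx : x.testBit q = true) (hy : y.testBit q = true) :
    Nat.beq (Nat.land x y) 0 = false := by
  rw [beq_false]
  intro h
  have : (x &&& y).testBit q = true := by rw [Nat.testBit_and, hx, hy]; rfl
  have e : x &&& y = 0 := h
  rw [e] at this; simp at this

theorem ne_zero_of_bit {x q : Nat} (hx : x.testBit q = true) : Nat.beq x 0 = false := by
  rw [beq_false]; rintro rfl; simp at hx

theorem sub_bit {a b k : Nat} (h : sub a b = true) (hk : a.testBit k = true) :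
    b.testBit k = true := by
  have e : a &&& b = a := (beq_iff _ _).1 h
  rw [← e, Nat.testBit_and] at hk
  simp only [Bool.and_eq_true] at hk
  exact hk.2

theorem all_bit : ∀ a < 5, ∀ b < 5, (1099511627775 : Nat).testBit (8 * a + b) = true := by
  decide

theorem bit31 : ∀ k < 5, (31 : Nat).testBit k = true := by decide

theorem tab_lt (TB w o : Nat) : tab TB w o < 3 := Nat.mod_lt _ (by decide)

theorem bnd_some {o : Option (List Nat)} {k : List Nat → Option (List Nat)} {r : List Nat}
    (h : bnd o k = some r) : ∃ q, o = some q ∧ k q = some r := by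
  cases o with
  | none => simp [bnd] at h
  | some q => exact ⟨q, rfl, h⟩

theorem allP_some {f : Nat → List Nat → Option (List Nat)} {l p r : List Nat}
    (h : allP f l p = some r) {a : Nat} (ha : a ∈ l) : ∃ p' r', f a p' = some r' := by
  induction l generalizing p with
  | nil => simp at ha
  | cons b l ih =>
    obtain ⟨q, h1, h2⟩ := bnd_some (show bnd (f b p) (allP f l) = some r from h)
    rcases List.mem_cons.1 ha with rfl | ha
    · exact ⟨p, q, h1⟩
    · exact ih h2 ha

end Pool.Agent.Lib.MP_ab18c1_co
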