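import Mathlib.Data.Set.Finite.Basic

/-! Working definitions: colourings as symmetric functions, copies, bad configurations. -/

namespace Pool.Agent.Lib.MP_ab18c1_co

variable {V W α : Type}

/-- `f` is a copy in `g` of the restriction of `c` to `A`. -/
def IsCopy (A : V → Prop) (c : V → V → α) (g : W → W → α) (f : V → W) : Prop :=
  ∀ x y, A x → A y → x ≠ y → f x ≠ f y ∧ g (f x) (f y) = c x y

def Good (c : V → V → α) : Prop :=
  ∃ χ : ℕ × ℕ → ℕ × ℕ → α, (∀ x y, χ x y = χ y x) ∧ (¬ ∃ f, IsCopy (fun _ => True) c χ f) ∧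
    ∀ χ' : ℕ × ℕ → ℕ × ℕ → α, (∀ x y, χ' x y = χ' y x) → (∃ p q, p ≠ q ∧ χ' p q ≠ χ p q) →
      (∀ p, {q | q ≠ p ∧ χ' p q ≠ χ p q}.Finite) → ∃ f, IsCopy (fun _ => True) c χ' f

/-- A possible new copy after gluing a blow-up along an edge of colour `i`.
Labels: `0` new vertex in the blob of `π x`, `1` old vertex with colours `ta x`, `tb x`
to the two glued vertices, `2` and `3` the glued vertices. -/
structure Bad (c : V → V → α) (A : V → Prop) (i : α) (u v : V) (φ : V → α → α → α)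
    (ρ : V → ℕ) (π : V → V) (ta tb : V → α) : Prop where
  le : ∀ x, ρ x ≤ 3
  blob : ∀ x, A x → ρ x = 0 → A (π x) ∧ π x ≠ u ∧ π x ≠ v
  c00 : ∀ x y, A x → A y → x ≠ y → ρ x = 0 → ρ y = 0 → π x = π y ∨ c x y = c (π x) (π y)
  c01 : ∀ x y, A x → A y → ρ x = 0 → ρ y = 1 → c x y = φ (π x) (ta y) (tb y)
  c02 : ∀ x y, A x → A y → ρ x = 0 → ρ y = 2 → c x y = c (π x) u
  c03 : ∀ x y, A x → A y → ρ x = 0 → ρ y = 3 → c x y = c (π x) v
  c12 : ∀ x y, A x → A y → ρ x = 1 → ρ y = 2 → c x y = ta x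
  c13 : ∀ x y, A x → A y → ρ x = 1 → ρ y = 3 → c x y = tb x
  c22 : ∀ x y, A x → A y → ρ x = 2 → ρ y = 2 → x = y
  c33 : ∀ x y, A x → A y → ρ x = 3 → ρ y = 3 → x = y
  c23 : ∀ x y, A x → A y → ρ x = 2 → ρ y = 3 → c x y = i
  ex0 : ∃ x, A x ∧ ρ x = 0
  ex1 : ∃ x, A x ∧ ρ x = 1
  swP : ∀ x, A x → ρ x = 0 → ¬ ∀ y, A y → y ≠ x →
    (ρ y = 1 ∧ φ (π x) (ta y) (tb y) = ta y) ∨ (ρ y = 3 ∧ c (π x) v = i)
  swQ : ∀ x, A x → ρ x = 0 → ¬ ∀ y, A y → y ≠ x →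
    (ρ y = 1 ∧ φ (π x) (ta y) (tb y) = tb y) ∨ (ρ y = 2 ∧ c (π x) u = i)

/-- Every fixing operation from colour `i` to colour `j` admits a bad configuration. -/
def NoFix (c : V → V → α) (A : V → Prop) (i j : α) : Prop :=
  ∀ u v φ, A u → A v → u ≠ v → c u v = j → ∃ ρ π ta tb, Bad c A i u v φ ρ π ta tb

def BadExt (c : V → V → α) (A : V → Prop) (a b1 b2 : α) : Prop :=
  ∃ y s1 s2, A y ∧ ∀ x, A x → x ≠ y →
    c y x = a ∨ (x = s1 ∧ c y x = b1) ∨ (x = s2 ∧ c y x = b2)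

def UsesAll (c : V → V → α) (A : V → Prop) : Prop :=
  ∀ a, ∃ x y, A x ∧ A y ∧ x ≠ y ∧ c x y = a

/-- The two reductions proved by the construction. -/
structure Cons (c : V → V → α) : Prop where
  self : UsesAll c (fun _ => True) → (∀ i j, i ≠ j → ¬ NoFix c (fun _ => True) i j) → Good c
  red : ∀ x z1 z2 a, z1 ≠ z2 → z1 ≠ x → z2 ≠ x →
    (∀ y, y ≠ x → y ≠ z1 → y ≠ z2 → c x y = a) → UsesAll c (· ≠ x) →
    ¬ BadExt c (· ≠ x) a (c x z1) (c x z2) → (∀ i j, i ≠ j → ¬ NoFix c (· ≠ x) i j) → Good c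

end Pool.Agent.Lib.MP_ab18c1_co
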