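import Mathlib.Data.Nat.Pairing
import Mathlib.Data.Countable.Basic
import Mathlib.Data.Set.Finite.Lattice
import Mathlib.Order.Interval.Finset.Nat
import Pool.Agent.Lib.MP_ab18c1_co.Defs

/-! The limit construction: infinitely many new vertices are added at every stage, following an
operation chosen by a bookkeeping in which every task occurs infinitely often. -/

namespace Pool.Agent.Lib.MP_ab18c1_co

structure Op (α : Type) where
  nn : ℕ → ℕ → α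
  np : ℕ → α
  nq : ℕ → α
  no : ℕ → α → α → α

variable {V α T : Type}

/-- Applying `op` along an edge of colour `i` creates no first copy of `c` on `A`. -/
def Safe (c : V → V → α) (A : V → Prop) (i : α) (op : Op α) : Prop :=
  ∀ (g : ℕ × ℕ → ℕ × ℕ → α) (old : ℕ × ℕ → Prop) (e : ℕ → ℕ × ℕ) (p q : ℕ × ℕ),
    (∀ x y, g x y = g y x) → p ≠ q → old p → old q → g p q = i → (∀ m, ¬ old (e m)) →
    (∀ m m', g (e m) (e m') = op.nn m m') → (∀ m, g (e m) p = op.np m) →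
    (∀ m, g (e m) q = op.nq m) →
    (∀ m y, old y → y ≠ p → y ≠ q → g (e m) y = op.no m (g y p) (g y q)) →
    ∀ f, IsCopy A c g f → (∀ x, A x → old (f x) ∨ ∃ m, f x = e m) →
      ∃ f', IsCopy A c g f' ∧ ∀ x, A x → old (f' x)

def nw (g : ℕ × ℕ → ℕ × ℕ → α) (p q : ℕ × ℕ) (op : Op α) (m : ℕ) (y : ℕ × ℕ) : α :=
  if y = p then op.np m else if y = q then op.nq m else op.no m (g y p) (g y q)

def tP (tk : ℕ → (ℕ × ℕ) × (ℕ × ℕ) × T) (s : ℕ) : ℕ × ℕ :=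
  if (tk s).1 ≠ (tk s).2.1 ∧ (tk s).1.1 ≤ s ∧ (tk s).2.1.1 ≤ s then (tk s).1 else (0, 0)

def tQ (tk : ℕ → (ℕ × ℕ) × (ℕ × ℕ) × T) (s : ℕ) : ℕ × ℕ :=
  if (tk s).1 ≠ (tk s).2.1 ∧ (tk s).1.1 ≤ s ∧ (tk s).2.1.1 ≤ s then (tk s).2.1 else (0, 1)

theorem tPQ (tk : ℕ → (ℕ × ℕ) × (ℕ × ℕ) × T) (s : ℕ) :
    tP tk s ≠ tQ tk s ∧ (tP tk s).1 ≤ s ∧ (tQ tk s).1 ≤ s := by
  unfold tP tQ
  split_ifs with h
  · exact h
  · simp

def stg (O : α → T → Op α) (tk : ℕ → (ℕ × ℕ) × (ℕ × ℕ) × T) (a0 : α) :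
    ℕ → ℕ × ℕ → ℕ × ℕ → α
  | 0 => fun _ _ => a0
  | s + 1 => fun x y =>
    if x.1 = s + 1 then
      if y.1 = s + 1 then (O (stg O tk a0 s (tP tk s) (tQ tk s)) (tk s).2.2).nn x.2 y.2
      else nw (stg O tk a0 s) (tP tk s) (tQ tk s)
        (O (stg O tk a0 s (tP tk s) (tQ tk s)) (tk s).2.2) x.2 y
    else if y.1 = s + 1 then nw (stg O tk a0 s) (tP tk s) (tQ tk s)
        (O (stg O tk a0 s (tP tk s) (tQ tk s)) (tk s).2.2) y.2 x
    else stg O tk a0 s x y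

def lim (O : α → T → Op α) (tk : ℕ → (ℕ × ℕ) × (ℕ × ℕ) × T) (a0 : α) (x y : ℕ × ℕ) : α :=
  stg O tk a0 (max x.1 y.1) x y

variable {O : α → T → Op α} {tk : ℕ → (ℕ × ℕ) × (ℕ × ℕ) × T} {a0 : α}

theorem stg_symm (hO : ∀ i τ m m', (O i τ).nn m m' = (O i τ).nn m' m) (s : ℕ) (x y : ℕ × ℕ) :
    stg O tk a0 s x y = stg O tk a0 s y x := by
  induction s with
  | zero => rfl
  | succ s ih =>
    unfold stg
    by_cases hx : x.1 = s + 1 <;> by_cases hy : y.1 = s + 1 <;> simp only [hx, hy, if_true, if_false]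
    · exact hO _ _ _ _
    · exact ih

theorem stg_lim (s : ℕ) (x y : ℕ × ℕ) (hx : x.1 ≤ s) (hy : y.1 ≤ s) :
    stg O tk a0 s x y = lim O tk a0 x y := by
  induction s with
  | zero =>
    unfold lim
    have : max x.1 y.1 = 0 := by omega
    rw [this]
  | succ s ih =>
    by_cases h : max x.1 y.1 = s + 1
    · unfold lim; rw [h]
    · rw [← ih (by omega) (by omega)]
      have h1 : x.1 ≠ s + 1 := by omega
      have h2 : y.1 ≠ s + 1 := by omega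
      conv_lhs => unfold stg
      simp only [h1, h2, if_false]

theorem lim_symm (hO : ∀ i τ m m', (O i τ).nn m m' = (O i τ).nn m' m) (x y : ℕ × ℕ) :
    lim O tk a0 x y = lim O tk a0 y x := by
  unfold lim; rw [max_comm, stg_symm hO]

theorem lim_nn (s m m' : ℕ) : lim O tk a0 (s + 1, m) (s + 1, m') =
    (O (lim O tk a0 (tP tk s) (tQ tk s)) (tk s).2.2).nn m m' := by
  obtain ⟨_, h2, h3⟩ := tPQ tk s
  rw [← stg_lim (s + 1) (s + 1, m) (s + 1, m') le_rfl le_rfl, ← stg_lim s _ _ h2 h3]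
  conv_lhs => unfold stg
  simp

theorem lim_no (s m : ℕ) (y : ℕ × ℕ) (hy : y.1 ≤ s) : lim O tk a0 (s + 1, m) y =
    nw (lim O tk a0) (tP tk s) (tQ tk s) (O (lim O tk a0 (tP tk s) (tQ tk s)) (tk s).2.2) m y := by
  obtain ⟨_, h2, h3⟩ := tPQ tk s
  have h1 : y.1 ≠ s + 1 := by omega
  rw [← stg_lim (s + 1) (s + 1, m) y le_rfl (by omega), ← stg_lim s _ _ h2 h3]
  conv_lhs => unfold stg
  simp only [h1, if_true, if_false]
  unfold nw
  rw [stg_lim s y _ hy h2, stg_lim s y _ hy h3]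

theorem lim_free [Finite V] {c : V → V → α} {A : V → Prop}
    (hO : ∀ i τ m m', (O i τ).nn m m' = (O i τ).nn m' m) (hs : ∀ i τ, Safe c A i (O i τ))
    (h0 : ∃ x y, A x ∧ A y ∧ x ≠ y ∧ c x y ≠ a0) : ¬ ∃ f, IsCopy A c (lim O tk a0) f := by
  have key : ∀ s, ¬ ∃ f, IsCopy A c (lim O tk a0) f ∧ ∀ x, A x → (f x).1 ≤ s := by
    intro s
    induction s with
    | zero =>
      rintro ⟨f, hf, hb⟩
      obtain ⟨x, y, a1, a2, a3, a4⟩ := h0
      have := (hf x y a1 a2 a3).2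
      rw [← stg_lim 0 _ _ (hb x a1) (hb y a2)] at this
      exact a4 this.symm
    | succ s ih =>
      rintro ⟨f, hf, hb⟩
      obtain ⟨h1, h2, h3⟩ := tPQ tk s
      refine ih (hs _ (tk s).2.2 (lim O tk a0) (fun x => x.1 ≤ s) (fun m => (s + 1, m))
        (tP tk s) (tQ tk s) (lim_symm hO) h1 h2 h3 rfl (fun m => by simp) (lim_nn s)
        (fun m => ?_) (fun m => ?_) (fun m y a1 a2 a3 => ?_) f hf (fun x hx => ?_))
      · rw [lim_no s m _ h2]; simp [nw]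
      · rw [lim_no s m _ h3]; simp [nw, h1.symm]
      · rw [lim_no s m _ a1]; simp [nw, a2, a3]
      · have := hb x hx
        by_cases e : (f x).1 ≤ s
        · exact Or.inl e
        · exact Or.inr ⟨(f x).2, Prod.ext (by simp; omega) rfl⟩
  rintro ⟨f, hf⟩
  obtain ⟨s, hs⟩ := (Set.finite_range (fun x => (f x).1)).bddAbove
  exact key s ⟨f, hf, fun x _ => hs ⟨x, rfl⟩⟩

theorem build [Finite V] [Countable T] [Nonempty T] {c : V → V → α} {A : V → Prop}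
    (O : α → T → Op α) (hO : ∀ i τ m m', (O i τ).nn m m' = (O i τ).nn m' m)
    (hs : ∀ i τ, Safe c A i (O i τ)) (a0 : α) (h0 : ∃ x y, A x ∧ A y ∧ x ≠ y ∧ c x y ≠ a0) :
    ∃ χ : ℕ × ℕ → ℕ × ℕ → α, (∀ x y, χ x y = χ y x) ∧ (¬ ∃ f, IsCopy A c χ f) ∧
      ∀ p q, p ≠ q → ∀ τ (F : Set (ℕ × ℕ)), F.Finite → ∃ e : ℕ → ℕ × ℕ, Function.Injective e ∧
        (∀ m, e m ∉ F ∧ e m ≠ p ∧ e m ≠ q) ∧
        (∀ m m', χ (e m) (e m') = (O (χ p q) τ).nn m m') ∧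
        (∀ m, χ (e m) p = (O (χ p q) τ).np m) ∧ (∀ m, χ (e m) q = (O (χ p q) τ).nq m) ∧
        (∀ m, ∀ y ∈ F, y ≠ p → y ≠ q → χ (e m) y = (O (χ p q) τ).no m (χ y p) (χ y q)) := by
  obtain ⟨sj, hsj⟩ := exists_surjective_nat ((ℕ × ℕ) × (ℕ × ℕ) × T)
  let tk : ℕ → (ℕ × ℕ) × (ℕ × ℕ) × T := fun s => sj (Nat.unpair s).1
  refine ⟨lim O tk a0, lim_symm hO, lim_free hO hs h0, fun p q hpq τ F hF => ?_⟩
  obtain ⟨b, hb⟩ := (hF.image Prod.fst).bddAbove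
  obtain ⟨a, ha⟩ := hsj (p, q, τ)
  have hs1 : max b (max p.1 q.1) ≤ Nat.pair a (max b (max p.1 q.1)) := Nat.right_le_pair _ _
  have hs2 : tk (Nat.pair a (max b (max p.1 q.1))) = (p, q, τ) := by
    simp only [tk, Nat.unpair_pair]; exact ha
  generalize Nat.pair a (max b (max p.1 q.1)) = s at hs1 hs2
  have hp : p.1 ≤ s := by omega
  have hq : q.1 ≤ s := by omega
  have hF' : ∀ y ∈ F, y.1 ≤ s := fun y hy => le_trans (hb ⟨y, hy, rfl⟩) (by omega)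
  have eP : tP tk s = p := by simp [tP, hs2, hpq, hp, hq]
  have eQ : tQ tk s = q := by simp [tQ, hs2, hpq, hp, hq]
  have eT : (tk s).2.2 = τ := by rw [hs2]
  refine ⟨fun m => (s + 1, m), fun m m' h => by simpa using h, fun m => ⟨fun h => ?_, ?_, ?_⟩,
    fun m m' => ?_, fun m => ?_, fun m => ?_, fun m y hy a2 a3 => ?_⟩
  · exact Nat.not_succ_le_self s (hF' _ h)
  · rintro rfl; exact Nat.not_succ_le_self s hp
  · rintro rfl; exact Nat.not_succ_le_self s hq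
  · rw [lim_nn, eP, eQ, eT]
  · rw [lim_no s m _ hp, eP, eQ, eT]; simp [nw]
  · rw [lim_no s m _ hq, eP, eQ, eT]; simp [nw, hpq.symm]
  · rw [lim_no s m _ (hF' y hy), eP, eQ, eT]; simp [nw, a2, a3]

end Pool.Agent.Lib.MP_ab18c1_co
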