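import Pool.Agent.Lib.MP_ab18c1_co.SpecS

/-! Soundness of the special operation check and of the context steps. -/

namespace Pool.Agent.Lib.MP_ab18c1_co

variable {V α : Type} {c : V → V → α} {κ : α → ℕ} {col : ℕ → α} {nc : ℕ}
  {t : Tm} {cell : V → ℕ} {A : V → Prop} {rem : ℕ}

section
variable {ty : Bool} {TB i : ℕ} {u0 v0 : V} {ρ : V → ℕ} {π : V → V} {ta tb : V → α}

theorem roles_mem (E : Env c κ col 3) (h : Sat (fun x y => κ (c x y)) t cell)
    (hA : Act t cell A rem) (hu : cell u0 ∈ t.N) (hv : cell v0 ∈ t.N)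
    (B : Bad c A (col i) u0 v0 (phi ty TB κ col cell) ρ π ta tb) {x : V} (hx : A x) :
    code ty κ cell ρ π ta tb x ∈ roles ty t (cell u0) (cell v0) rem := by
  unfold roles
  rw [List.mem_append]
  rcases code_cases (ty := ty) (cell := cell) (π := π) (ta := ta) (tb := tb) E B.le x with
    ⟨a1, a2⟩ | ⟨a1, a2, a3⟩ | ⟨a1, a2⟩ | ⟨a1, a2⟩
  · right
    obtain ⟨b1, b2, b3⟩ := B.blob x hx a1
    rw [a2]
    refine List.mem_map.2 ⟨cell (π x), List.mem_filter.2 ⟨List.mem_append.2 (h.cov _), ?_⟩, rfl⟩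
    rw [(beq_false _ _).2 (fun e => b2 (h.uq u0 _ hu e)),
      (beq_false _ _).2 (fun e => b3 (h.uq v0 _ hv e)), (beq_false _ _).2 ((hA.1 _).1 b1)]
    rfl
  · left
    cases ty
    · rw [a2]; simp
    · generalize code true κ cell ρ π ta tb x = q at a3
      simp only [cond_true, List.mem_cons]
      omega
  · left; rw [a2]; cases ty <;> simp
  · left; rw [a2]; cases ty <;> simp

theorem specFin_false (E : Env c κ col 3) (h : Sat (fun x y => κ (c x y)) t cell) (hi : i < 3)
    (B : Bad c A (col i) u0 v0 (phi ty TB κ col cell) ρ π ta tb) {s : Tm} {cs : V → ℕ}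
    (hs : Sat (fun x y => κ (c x y)) s cs) {sw : Bool} (hsw : sw = true → ty = true ∧ s.C = [])
    (h0 : ∃ x, A x ∧ ρ x = 0 ∧ cs x ∈ s.N) (h1 : ∃ x, A x ∧ ρ x = 1 ∧ cs x ∈ s.N)
    {L : List (ℕ × ℕ)}
    (hL : ∀ e ∈ L, ∃ y, A y ∧ cs y = e.1 ∧ e.1 ∈ s.N ∧ e.2 = code ty κ cell ρ π ta tb y)
    (hc : ∀ y, A y → cs y ∈ s.N → (cs y, code ty κ cell ρ π ta tb y) ∈ L)
    (hr : specFin sw t.M TB i (cell u0) (cell v0) L = true) : False := by
  have cc := code_cases (ty := ty) (cell := cell) (π := π) (ta := ta) (tb := tb) E B.le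
  simp only [specFin, Bool.or_eq_true, List.all_eq_true, Bool.and_eq_true, List.any_eq_true,
    blt_iff, ble_iff] at hr
  rcases hr with (hr | hr) | ⟨e1, e, he, e2, e3⟩
  · obtain ⟨x, a1, a2, a3⟩ := h0
    have := hr _ (hc x a1 a3)
    rcases cc x with b | b | b | b <;> omega
  · obtain ⟨x, a1, a2, a3⟩ := h1
    have := hr _ (hc x a1 a3)
    rcases cc x with b | b | b | b <;> omega
  · obtain ⟨rfl, hC⟩ := hsw e1
    have hN : ∀ y, cs y ∈ s.N := fun y => (hs.cov y).resolve_right (by rw [hC]; simp)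
    obtain ⟨x, a1, a2, a3, a4⟩ := hL e he
    have a5 : ρ x = 0 ∧ code true κ cell ρ π ta tb x = cell (π x) + 11 := by
      rcases cc x with b | b | b | b
      · exact b
      all_goals omega
    have a6 : Nat.sub e.2 11 = cell (π x) := by
      rw [a4, a5.2]; exact Nat.add_sub_cancel _ 11
    obtain ⟨b1, b2, b3⟩ := B.blob x a1 a5.1
    rw [a6] at e3
    have ne : ∀ y, y ≠ x → Nat.beq (cs y) e.1 = false := fun y hy =>
      (beq_false _ _).2 (fun e4 => hy (hs.uq x y (hN x) (e4.trans a2.symm)))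
    rcases e3 with e3 | e3
    · refine B.swP x a1 a5.1 (fun y hy hyx => ?_)
      have := List.all_eq_true.1 e3 _ (hc y hy (hN y))
      simp only [ne y hyx, Bool.false_or] at this
      have k1 := E.three rfl (ta y)
      have k2 := E.three rfl (tb y)
      rcases cc y with ⟨f1, f2⟩ | ⟨f1, f2, f3⟩ | ⟨f1, f2⟩ | ⟨f1, f2⟩
      · rw [f2, (blt_false _ _).2 (by omega),
          (beq_false (cell (π y) + 11) 10).2 (by omega)] at this
        simp at this
      · left
        rw [(blt_iff _ _).2 f3, f2] at this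
        simp only [cond_true, beq_iff] at this
        refine ⟨f1, ?_⟩
        have e5 : Nat.div (3 * κ (ta y) + κ (tb y)) 3 = κ (ta y) := by
          show (3 * κ (ta y) + κ (tb y)) / 3 = _
          omega
        show col (tab TB (cell (π x)) (3 * κ (ta y) + κ (tb y))) = ta y
        rw [this, e5, E.ck _ k1]
      · rw [f2] at this; simp [Nat.blt, Nat.ble, Nat.beq] at this
      · right
        rw [f2] at this
        have e5 : gt t.M (cell (π x)) (cell v0) = Nat.shiftLeft 1 i := (beq_iff _ _).1 this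
        have := h.col _ _ b3
        rw [e5] at this
        exact ⟨f1, E.eq_col hi (one_bit this)⟩
    · refine B.swQ x a1 a5.1 (fun y hy hyx => ?_)
      have := List.all_eq_true.1 e3 _ (hc y hy (hN y))
      simp only [ne y hyx, Bool.false_or] at this
      have k1 := E.three rfl (ta y)
      have k2 := E.three rfl (tb y)
      rcases cc y with ⟨f1, f2⟩ | ⟨f1, f2, f3⟩ | ⟨f1, f2⟩ | ⟨f1, f2⟩
      · rw [f2, (blt_false _ _).2 (by omega),
          (beq_false (cell (π y) + 11) 9).2 (by omega)] at this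
        simp at this
      · left
        rw [(blt_iff _ _).2 f3, f2] at this
        simp only [cond_true, beq_iff] at this
        refine ⟨f1, ?_⟩
        have e5 : Nat.mod (3 * κ (ta y) + κ (tb y)) 3 = κ (tb y) := by
          show (3 * κ (ta y) + κ (tb y)) % 3 = _
          omega
        show col (tab TB (cell (π x)) (3 * κ (ta y) + κ (tb y))) = tb y
        rw [this, e5, E.ck _ k2]
      · right
        rw [f2] at this
        have e5 : gt t.M (cell (π x)) (cell u0) = Nat.shiftLeft 1 i := (beq_iff _ _).1 this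
        have := h.col _ _ b2
        rw [e5] at this
        exact ⟨f1, E.eq_col hi (one_bit this)⟩
      · rw [f2] at this; simp [Nat.blt, Nat.ble, Nat.beq] at this

theorem specD_false (E : Env c κ col 3) (h : Sat (fun x y => κ (c x y)) t cell) (hi : i < 3)
    (B : Bad c A (col i) u0 v0 (phi ty TB κ col cell) ρ π ta tb) {s : Tm} {cs : V → ℕ}
    (hs : Sat (fun x y => κ (c x y)) s cs) {sw : Bool} (hsw : sw = true → ty = true ∧ s.C = [])
    (h0 : ∃ x, A x ∧ ρ x = 0 ∧ cs x ∈ s.N) (h1 : ∃ x, A x ∧ ρ x = 1 ∧ cs x ∈ s.N)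
    {R : List ℕ} (hR : ∀ x, A x → code ty κ cell ρ π ta tb x ∈ R) (l : List ℕ) :
    ∀ L : List (ℕ × ℕ), (∀ a ∈ l, a ∈ s.N ∧ ∀ y, cs y = a → A y) →
    (∀ e ∈ L, ∃ y, A y ∧ cs y = e.1 ∧ e.1 ∈ s.N ∧ e.2 = code ty κ cell ρ π ta tb y) →
    (∀ y, A y → cs y ∈ s.N → cs y ∈ l ∨ (cs y, code ty κ cell ρ π ta tb y) ∈ L) →
    specD ty sw t.M s.M TB i (cell u0) (cell v0) R l L = true → False := by
  induction l with
  | nil =>
    intro L _ hL hc hr
    exact specFin_false E h hi B hs hsw h0 h1 hL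
      (fun y a b => (hc y a b).resolve_left (by simp)) hr
  | cons a l ih =>
    intro L hl hL hc hr
    obtain ⟨haN, haA⟩ := hl a (List.mem_cons_self ..)
    obtain ⟨x, rfl⟩ := hs.ex a haN
    have hx := haA x rfl
    have e1 := List.all_eq_true.1 (show R.all _ = true from hr) _ (hR x hx)
    have e2 : L.all (fun e => Nat.beq e.1 (cs x) || pairOk ty t.M TB i (cell u0) (cell v0)
        (gt s.M (cs x) e.1) (code ty κ cell ρ π ta tb x) e.2) = true := by
      rw [List.all_eq_true]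
      intro e he
      obtain ⟨y, a1, a2, _, a4⟩ := hL e he
      by_cases hxy : x = y
      · rw [← a2, hxy, (beq_iff _ _).2 rfl]; rfl
      · rw [a4, ← a2, pairOk_ok E h hi B hx a1 hxy (hs.col x y hxy)]; simp
    rw [e2] at e1
    refine ih ((cs x, code ty κ cell ρ π ta tb x) :: L)
      (fun b hb => hl b (List.mem_cons_of_mem _ hb)) (fun e he => ?_) (fun y a1 a2 => ?_) e1
    · rcases List.mem_cons.1 he with rfl | he
      · exact ⟨x, hx, rfl, haN, rfl⟩
      · exact hL e he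
    · rcases hc y a1 a2 with a3 | a3
      · rcases List.mem_cons.1 a3 with a4 | a4
        · rw [hs.uq x y haN a4]; exact Or.inr (List.mem_cons_self ..)
        · exact Or.inl a4
      · exact Or.inr (List.mem_cons_of_mem _ a3)

open Classical in
theorem Act.named (hA : Act t cell A rem) {K : V → V → ℕ} {x0 : V} {t' : Tm} {cell' : V → ℕ}
    {s : ℕ} (nm : Named K t cell x0 t' cell' s) : Act t' cell' A rem := by
  have := nm.tag (fun x => if A x then 0 else 1) 1 rem ⟨fun x => by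
    by_cases hx : A x
    · simpa [hx] using (hA.1 x).1 hx
    · simpa [hx] using mt (hA.1 x).2 hx, hA.2⟩
  refine ⟨fun x => ?_, this.2⟩
  have h2 := this.1 x
  by_cases hx : A x
  · simpa [hx] using h2
  · simpa [hx] using h2

theorem spec_sound (E : Env c κ col 3) (h : Sat (fun x y => κ (c x y)) t cell) (hi : i < 3)
    (hA : Act t cell A rem) (hu : cell u0 ∈ t.N) (hv : cell v0 ∈ t.N)
    (B : Bad c A (col i) u0 v0 (phi ty TB κ col cell) ρ π ta tb) {p r : List ℕ}
    (hr : spec ty TB i (cell u0) (cell v0) rem t p = some r) : False := by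
  obtain ⟨x, x1, x2⟩ := B.ex0
  obtain ⟨y, y1, y2⟩ := B.ex1
  have hxy : x ≠ y := by rintro rfl; omega
  obtain ⟨t1, c1, s1, p1, r1, n1, e1⟩ := chooseC_some E.kok h hr x
  obtain ⟨t2, c2, s2, p2, r2, n2, e2⟩ := chooseC_some E.kok n1.sat e1 y
  have hA2 := (hA.named n1).named n2
  cases e3 : specD ty (ty && t.C.isEmpty) t.M t2.M TB i (cell u0) (cell v0)
    (roles ty t (cell u0) (cell v0) rem) (t2.N.filter (fun a => !(Nat.beq a rem))).reverse []
  · rw [e3] at e2; simp at e2
  refine specD_false E h hi B n2.sat (fun e => ?_) ⟨x, x1, x2, ?_⟩ ⟨y, y1, y2, n2.eq ▸ n2.mem⟩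
    (fun z hz => roles_mem E h hA hu hv B hz) _ [] (fun a ha => ?_) (fun e he => by simp at he)
    (fun z z1 z2 => Or.inl ?_) e3
  · simp only [Bool.and_eq_true, List.isEmpty_iff] at e
    exact ⟨e.1, by rw [n2.cl, n1.cl, e.2]⟩
  · rw [n2.oth x hxy, n1.eq]; exact n2.sub _ n1.mem
  · obtain ⟨a1, a2⟩ := List.mem_filter.1 (List.mem_reverse.1 ha)
    simp only [Bool.not_eq_true', beq_false] at a2
    exact ⟨a1, fun z hz => (hA2.1 z).2 (hz ▸ a2)⟩
  · refine List.mem_reverse.2 (List.mem_filter.2 ⟨z2, ?_⟩)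
    rw [(beq_false _ _).2 ((hA2.1 z).1 z1)]; rfl

end

theorem ctx_sound (E : Env c κ col nc) (h : Sat (fun x y => κ (c x y)) t cell)
    (hA : Act t cell A rem) {i j : ℕ} (hi : i < nc) (hj : j < nc) (hU : UsesAll c A)
    (hN : NoFix c A (col i) (col j)) {k : Tm → List ℕ → Option (List ℕ)}
    (hk : Refu (fun x y => κ (c x y)) k) {p r : List ℕ}
    (hr : ctx nc k t rem i j p = some r) : False := by
  unfold ctx at hr
  split at hr
  · rename_i d p
    cases e : Nat.blt d nc <;> rw [e] at hr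
    · simp at hr
    obtain ⟨u0, v0, a1, a2, a3, a4⟩ := hU (col j)
    obtain ⟨ρ, π, ta, tb, B⟩ := hN u0 v0 (fun _ _ _ => col d) a1 a2 a3 a4
    exact sep_of_bad E h hA ((blt_iff _ _).1 e) hi B
      (fun w _ _ _ => all_bit _ (E.lt _) _ (E.lt _)) hk hr
  · rename_i d u v p
    cases e : (Nat.blt d nc && edgeOk t u v rem j) <;> rw [e] at hr
    · simp at hr
    rw [Bool.and_eq_true] at e
    obtain ⟨u0, v0, rfl, rfl, a1, a2, a3, a4, a5, a6⟩ := edgeOk_some E h hj e.2
    obtain ⟨ρ, π, ta, tb, B⟩ := hN u0 v0 (fun _ _ _ => col d) ((hA.1 _).2 a3) ((hA.1 _).2 a4) a5 a6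
    refine sep_of_bad E h hA ((blt_iff _ _).1 e.1) hi B (fun w w1 w2 w3 => ?_) hk hr
    exact tyL_bit (List.mem_append.2 (h.cov w)) (fun e => w2 (h.uq u0 w a1 e))
      (fun e => w3 (h.uq v0 w a2 e)) ((hA.1 w).1 w1)
      (sp_mul (gt_lt _ _ _) (gt_lt _ _ _) (E.lt _) (E.lt _) (h.col w u0 w2) (h.col w v0 w3))
  · rename_i u v ty TB p
    cases e : (Nat.beq nc 3 && edgeOk t u v rem j) <;> rw [e] at hr
    · simp at hr
    rw [Bool.and_eq_true, beq_iff] at e
    obtain ⟨rfl, e⟩ := e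
    obtain ⟨u0, v0, rfl, rfl, a1, a2, a3, a4, a5, a6⟩ := edgeOk_some E h hj e
    obtain ⟨ρ, π, ta, tb, B⟩ := hN u0 v0 (phi (Nat.beq ty 1) TB κ col cell) ((hA.1 _).2 a3)
      ((hA.1 _).2 a4) a5 a6
    exact spec_sound E h hi hA a1 a2 B hr
  · simp at hr

end Pool.Agent.Lib.MP_ab18c1_co
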