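import Mathlib.Data.Fintype.Pigeonhole
import Mathlib.Data.Finite.Prod
import Mathlib.Logic.Function.Iterate
import Pool.Agent.Lib.MP_ab18c1_co.Build

/-! A blow-up of the recoloured pattern contains no copy of the pattern, and the gluing
operations are safe when they admit no bad configuration. -/

namespace Pool.Agent.Lib.MP_ab18c1_co

variable {V α : Type} {c : V → V → α} {A : V → Prop}

/-- `x` and `y` are equal or twins joined in colour `t`. -/
def Tw (c : V → V → α) (A : V → Prop) (t : α) (x y : V) : Prop :=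
  x = y ∨ (c x y = t ∧ ∀ z, A z → z ≠ x → z ≠ y → c x z = c y z)

theorem Tw.symm (hc : ∀ x y, c x y = c y x) {t : α} {x y : V} (h : Tw c A t x y) :
    Tw c A t y x := by
  rcases h with h | ⟨h1, h2⟩
  · exact Or.inl h.symm
  · exact Or.inr ⟨by rw [hc, h1], fun z a b d => (h2 z a d b).symm⟩

theorem tw_unique (hc : ∀ x y, c x y = c y x) {t t' : α} {u y y' : V} (hy : A y) (hy' : A y')
    (h : Tw c A t u y) (h' : Tw c A t' u y') (e : y ≠ u) (e' : y' ≠ u) : t = t' := by
  obtain ⟨h1, h2⟩ := h.resolve_left e.symm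
  obtain ⟨h3, h4⟩ := h'.resolve_left e'.symm
  by_cases hyy : y = y'
  · rw [← h1, ← h3, hyy]
  · rw [← h1, ← h3, h4 y hy e hyy, h2 y' hy' e' (Ne.symm hyy), hc]

theorem exists_tw_free (hc : ∀ x y, c x y = c y x) {a b d : α} (hab : a ≠ b) (had : a ≠ d)
    (hbd : b ≠ d) (u v : V) :
    ∃ t, (∀ y, A y → Tw c A t u y → y = u) ∧ (∀ y, A y → Tw c A t v y → y = v) := by
  by_contra hn
  have key : ∀ t, (∃ y, A y ∧ Tw c A t u y ∧ y ≠ u) ∨ (∃ y, A y ∧ Tw c A t v y ∧ y ≠ v) := by
    intro t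
    by_contra h
    rw [not_or] at h
    refine hn ⟨t, fun y a1 a2 => ?_, fun y a1 a2 => ?_⟩
    · by_contra e; exact h.1 ⟨y, a1, a2, e⟩
    · by_contra e; exact h.2 ⟨y, a1, a2, e⟩
  rcases key a with ⟨x, x1, x2, x3⟩ | ⟨x, x1, x2, x3⟩ <;>
  rcases key b with ⟨y, y1, y2, y3⟩ | ⟨y, y1, y2, y3⟩ <;>
  rcases key d with ⟨z, z1, z2, z3⟩ | ⟨z, z1, z2, z3⟩ <;>
  first
    | exact hab (tw_unique hc x1 y1 x2 y2 x3 y3)
    | exact had (tw_unique hc x1 z1 x2 z2 x3 z3)
    | exact hbd (tw_unique hc y1 z1 y2 z2 y3 z3)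

theorem blowup_free [Finite V] (hc : ∀ x y, c x y = c y x) {t i : α} {u v : V} (hu : A u)
    (hv : A v) (huv : u ≠ v) (hi : i ≠ c u v) (tu : ∀ y, A y → Tw c A t u y → y = u)
    (tv : ∀ y, A y → Tw c A t v y → y = v) (π : V → V) (hA : ∀ x, A x → A (π x))
    (h1 : ∀ x y, A x → A y → x ≠ y → π x = π y → c x y = t ∧ π x ≠ u ∧ π x ≠ v)
    (h2 : ∀ x y, A x → A y → π x = u → π y = v → c x y = i)
    (h3 : ∀ x y, A x → A y → π x ≠ π y → ¬ (π x = u ∧ π y = v) → ¬ (π x = v ∧ π y = u) →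
      c x y = c (π x) (π y)) : False := by
  have refl : ∀ x y, A x → A y → Tw c A t (π x) (π y) → Tw c A t x y := by
    intro x y hx hy h
    by_cases hxy : x = y
    · exact Or.inl hxy
    right
    by_cases e : π x = π y
    · obtain ⟨a1, a2, a3⟩ := h1 x y hx hy hxy e
      refine ⟨a1, fun z hz z1 z2 => ?_⟩
      by_cases e2 : π x = π z
      · rw [(h1 x z hx hz z1.symm e2).1, (h1 y z hy hz z2.symm (e ▸ e2)).1]
      · rw [h3 x z hx hz e2 (fun h => a2 h.1) (fun h => a3 h.1),
          h3 y z hy hz (e ▸ e2) (fun h => a2 (e ▸ h.1)) (fun h => a3 (e ▸ h.1)), e]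
    · have xu : π x ≠ u := fun g => e (by rw [g] at h; rw [g, tu _ (hA y hy) h])
      have xv : π x ≠ v := fun g => e (by rw [g] at h; rw [g, tv _ (hA y hy) h])
      have h' := h.symm hc
      have yu : π y ≠ u := fun g => e (by rw [g] at h'; rw [g, tu _ (hA x hx) h'])
      have yv : π y ≠ v := fun g => e (by rw [g] at h'; rw [g, tv _ (hA x hx) h'])
      obtain ⟨a1, a2⟩ := h.resolve_left e
      have gx : ∀ z, A z → π x ≠ π z → c x z = c (π x) (π z) :=
        fun z hz g => h3 x z hx hz g (fun h => xu h.1) (fun h => xv h.1)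
      have gy : ∀ z, A z → π y ≠ π z → c y z = c (π y) (π z) :=
        fun z hz g => h3 y z hy hz g (fun h => yu h.1) (fun h => yv h.1)
      refine ⟨by rw [gx y hy e, a1], fun z hz z1 z2 => ?_⟩
      by_cases e2 : π x = π z
      · rw [(h1 x z hx hz z1.symm e2).1, gy z hz (fun g => e (e2.trans g.symm)), ← e2, hc, a1]
      · by_cases e3 : π y = π z
        · rw [(h1 y z hy hz z2.symm e3).1, gx z hz e2, ← e3, a1]
        · rw [gx z hz e2, gy z hz e3, a2 _ (hA z hz) (Ne.symm e2) (Ne.symm e3)]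
  have itA : ∀ m x, A x → A (π^[m] x) := by
    intro m
    induction m with
    | zero => intro x hx; exact hx
    | succ m ih => intro x hx; rw [Function.iterate_succ_apply']; exact hA _ (ih x hx)
  have itr : ∀ m x y, A x → A y → Tw c A t (π^[m] x) (π^[m] y) → Tw c A t x y := by
    intro m
    induction m with
    | zero => intro x y _ _ h; exact h
    | succ m ih =>
      intro x y hx hy h
      rw [Function.iterate_succ_apply', Function.iterate_succ_apply'] at h
      exact ih x y hx hy (refl _ _ (itA m x hx) (itA m y hy) h)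
  have ne : ∀ m, π^[m] u ≠ π^[m] v := fun m e =>
    huv (tu v hv (itr m u v hu hv (Or.inl e))).symm
  have colr : ∀ m, c (π^[m] u) (π^[m] v) = c u v ∧
      ¬ (π^[m + 1] u = u ∧ π^[m + 1] v = v) := by
    have stepB : ∀ m, c (π^[m] u) (π^[m] v) = c u v →
        ¬ (π^[m + 1] u = u ∧ π^[m + 1] v = v) ∧ ¬ (π^[m + 1] u = v ∧ π^[m + 1] v = u) := by
      intro m hm
      rw [Function.iterate_succ_apply', Function.iterate_succ_apply']
      constructor
      · rintro ⟨a1, a2⟩
        exact hi (by rw [← h2 _ _ (itA m u hu) (itA m v hv) a1 a2, hm])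
      · rintro ⟨a1, a2⟩
        exact hi (by rw [← h2 _ _ (itA m v hv) (itA m u hu) a2 a1, hc, hm])
    have stepA : ∀ m, c (π^[m] u) (π^[m] v) = c u v := by
      intro m
      induction m with
      | zero => rfl
      | succ m ih =>
        obtain ⟨b1, b2⟩ := stepB m ih
        have b3 := ne (m + 1)
        rw [Function.iterate_succ_apply', Function.iterate_succ_apply'] at b1 b2 b3 ⊢
        rw [← h3 _ _ (itA m u hu) (itA m v hv) b3 b1 b2, ih]
    exact fun m => ⟨stepA m, (stepB m (stepA m)).1⟩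
  have fin : ∀ m m', m < m' → π^[m] u = π^[m'] u → π^[m] v = π^[m'] v → False := by
    intro m m' hm e1 e2
    obtain ⟨p, rfl⟩ : ∃ p, m' = m + (p + 1) := ⟨m' - m - 1, by omega⟩
    rw [Function.iterate_add_apply] at e1 e2
    exact (colr p).2 ⟨tu _ (itA _ u hu) (itr m _ _ hu (itA _ u hu) (Or.inl e1)),
      tv _ (itA _ v hv) (itr m _ _ hv (itA _ v hv) (Or.inl e2))⟩
  obtain ⟨m, m', hne, e⟩ := Finite.exists_ne_map_eq_of_infinite
    (fun m : ℕ => (π^[m] u, π^[m] v))
  simp only [Prod.mk.injEq] at e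
  rcases Nat.lt_or_gt_of_ne hne with h | h
  · exact fin m m' h e.1 e.2
  · exact fin m' m h e.1.symm e.2.symm

open Classical in
/-- Glue a blow-up of `c`, recoloured on the edge `u v`, along an edge. -/
noncomputable def fixOp (c : V → V → α) (u v : V) (t : α) (φ : V → α → α → α) (bl : ℕ → V) :
    Op α :=
  ⟨fun m m' => if bl m = bl m' then t else c (bl m) (bl m'), fun m => c (bl m) u,
    fun m => c (bl m) v, fun m a b => φ (bl m) a b⟩

theorem fixOp_symm (hc : ∀ x y, c x y = c y x) (u v : V) (t : α) (φ : V → α → α → α)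
    (bl : ℕ → V) (m m' : ℕ) : (fixOp c u v t φ bl).nn m m' = (fixOp c u v t φ bl).nn m' m := by
  unfold fixOp
  by_cases h : bl m = bl m'
  · simp [h]
  · simp [h, Ne.symm h, hc]

open Classical in
theorem fixOp_safe [Finite V] (hc : ∀ x y, c x y = c y x) {t i : α} {u v : V} (hu : A u)
    (hv : A v) (huv : u ≠ v) (hi : i ≠ c u v) (tu : ∀ y, A y → Tw c A t u y → y = u)
    (tv : ∀ y, A y → Tw c A t v y → y = v) {φ : V → α → α → α} {bl : ℕ → V}
    (hbl : ∀ m, A (bl m) ∧ bl m ≠ u ∧ bl m ≠ v)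
    (hB : ¬ ∃ ρ π ta tb, Bad c A i u v φ ρ π ta tb) : Safe c A i (fixOp c u v t φ bl) := by
  intro g old e p q gs hpq op oq gi ne gnn gp gq gno f hf hd
  by_contra hno
  let ρ : V → ℕ := fun x => if old (f x) then (if f x = p then 2 else if f x = q then 3 else 1)
    else 0
  let ix : V → ℕ := fun x => if h : ∃ m, f x = e m then h.choose else 0
  have r0 : ∀ x, A x → ρ x = 0 → f x = e (ix x) := by
    intro x hx h
    have h1 : ¬ old (f x) := by
      intro h1; simp only [ρ, h1, if_true] at h; split_ifs at h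
    have h2 := (hd x hx).resolve_left h1
    simp only [ix, h2, dif_pos]; exact h2.choose_spec
  have r1 : ∀ x, ρ x = 1 → old (f x) ∧ f x ≠ p ∧ f x ≠ q := by
    intro x h; simp only [ρ] at h
    split_ifs at h with a1 a2 a3 <;> first | omega | exact ⟨a1, a2, a3⟩
  have r2 : ∀ x, ρ x = 2 → f x = p := by
    intro x h; simp only [ρ] at h
    split_ifs at h with a1 a2 a3 <;> omega
  have r3 : ∀ x, ρ x = 3 → f x = q := by
    intro x h; simp only [ρ] at h
    split_ifs at h with a1 a2 a3 <;> omega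
  have rle : ∀ x, ρ x ≤ 3 := by
    intro x; simp only [ρ]; split_ifs <;> omega
  have rold : ∀ x, ρ x ≠ 0 → old (f x) := by
    intro x h; by_contra h1; exact h (by simp [ρ, h1])
  have cf : ∀ x y, A x → A y → ρ x ≠ ρ y → c x y = g (f x) (f y) := fun x y hx hy h =>
    ((hf x y hx hy (by rintro rfl; exact h rfl)).2).symm
  have c00 : ∀ x y, A x → A y → x ≠ y → ρ x = 0 → ρ y = 0 → c x y =
      if bl (ix x) = bl (ix y) then t else c (bl (ix x)) (bl (ix y)) := by
    intro x y hx hy hxy a b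
    rw [← (hf x y hx hy hxy).2, r0 x hx a, r0 y hy b, gnn]; rfl
  have c02 : ∀ x y, A x → A y → ρ x = 0 → ρ y = 2 → c x y = c (bl (ix x)) u := by
    intro x y hx hy a b
    rw [cf x y hx hy (by omega), r0 x hx a, r2 y b, gp]; rfl
  have c03 : ∀ x y, A x → A y → ρ x = 0 → ρ y = 3 → c x y = c (bl (ix x)) v := by
    intro x y hx hy a b
    rw [cf x y hx hy (by omega), r0 x hx a, r3 y b, gq]; rfl
  have c01 : ∀ x y, A x → A y → ρ x = 0 → ρ y = 1 →
      c x y = φ (bl (ix x)) (g (f y) p) (g (f y) q) := by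
    intro x y hx hy a b
    obtain ⟨b1, b2, b3⟩ := r1 y b
    rw [cf x y hx hy (by omega), r0 x hx a, gno _ _ b1 b2 b3]; rfl
  have c22 : ∀ x y, A x → A y → ρ x = 2 → ρ y = 2 → x = y := by
    intro x y hx hy a b
    by_contra h; exact (hf x y hx hy h).1 (by rw [r2 x a, r2 y b])
  have c33 : ∀ x y, A x → A y → ρ x = 3 → ρ y = 3 → x = y := by
    intro x y hx hy a b
    by_contra h; exact (hf x y hx hy h).1 (by rw [r3 x a, r3 y b])
  have c23 : ∀ x y, A x → A y → ρ x = 2 → ρ y = 3 → c x y = i := by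
    intro x y hx hy a b
    rw [cf x y hx hy (by omega), r2 x a, r3 y b, gi]
  have swap : ∀ x z, A x → old z → (∀ y, A y → y ≠ x → old (f y) ∧ f y ≠ z ∧ g z (f y) = c x y) →
      False := by
    intro x z hx hz h
    refine hno ⟨Function.update f x z, fun a b ha hb hab => ?_, fun a ha => ?_⟩
    · by_cases e1 : a = x
      · subst e1
        rw [Function.update_self, Function.update_of_ne hab.symm]
        exact ⟨(h b hb hab.symm).2.1.symm, (h b hb hab.symm).2.2⟩
      · by_cases e2 : b = x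
        · subst e2
          rw [Function.update_self, Function.update_of_ne hab, gs, hc]
          exact ⟨(h a ha hab).2.1, (h a ha hab).2.2⟩
        · rw [Function.update_of_ne e1, Function.update_of_ne e2]; exact hf a b ha hb hab
    · by_cases e1 : a = x
      · subst e1; rw [Function.update_self]; exact hz
      · rw [Function.update_of_ne e1]; exact (h a ha e1).1
  refine hB ⟨ρ, fun x => bl (ix x), fun y => g (f y) p, fun y => g (f y) q, rle,
    fun x _ _ => hbl _, fun x y hx hy hxy a b => ?_, c01, c02, c03, fun x y hx hy a b => ?_,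
    fun x y hx hy a b => ?_, c22, c33, c23, ?_, ?_, fun x hx a h => ?_, fun x hx a h => ?_⟩
  · by_cases e1 : bl (ix x) = bl (ix y)
    · exact Or.inl e1
    · right; rw [c00 x y hx hy hxy a b, if_neg e1]
  · rw [cf x y hx hy (by omega), r2 y b]
  · rw [cf x y hx hy (by omega), r3 y b]
  · by_contra h
    exact hno ⟨f, hf, fun x hx => rold x (fun a => h ⟨x, hx, a⟩)⟩
  · by_contra h
    have n1 : ∀ x, A x → ρ x = 0 ∨ ρ x = 2 ∨ ρ x = 3 := fun x hx => by
      have := rle x
      have : ρ x ≠ 1 := fun a => h ⟨x, hx, a⟩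
      omega
    let π : V → V := fun x => if ρ x = 2 then u else if ρ x = 3 then v else bl (ix x)
    have p0 : ∀ x, ρ x = 0 → π x = bl (ix x) := fun x a => by simp [π, a]
    have p2 : ∀ x, ρ x = 2 → π x = u := fun x a => by simp [π, a]
    have p3 : ∀ x, ρ x = 3 → π x = v := fun x a => by simp [π, a]
    refine blowup_free hc hu hv huv hi tu tv π (fun x hx => ?_) (fun x y hx hy hxy e1 => ?_)
      (fun x y hx hy e1 e2 => ?_) (fun x y hx hy e1 e2 e3 => ?_)
    · rcases n1 x hx with a | a | a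
      · rw [p0 x a]; exact (hbl _).1
      · rw [p2 x a]; exact hu
      · rw [p3 x a]; exact hv
    · rcases n1 x hx with a | a | a <;> rcases n1 y hy with b | b | b
      · rw [p0 x a, p0 y b] at e1
        rw [c00 x y hx hy hxy a b, if_pos e1, p0 x a]; exact ⟨rfl, (hbl _).2⟩
      · rw [p0 x a, p2 y b] at e1; exact absurd e1 (hbl _).2.1
      · rw [p0 x a, p3 y b] at e1; exact absurd e1 (hbl _).2.2
      · rw [p2 x a, p0 y b] at e1; exact absurd e1.symm (hbl _).2.1
      · exact absurd (c22 x y hx hy a b) hxy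
      · rw [p2 x a, p3 y b] at e1; exact absurd e1 huv
      · rw [p3 x a, p0 y b] at e1; exact absurd e1.symm (hbl _).2.2
      · rw [p3 x a, p2 y b] at e1; exact absurd e1.symm huv
      · exact absurd (c33 x y hx hy a b) hxy
    · rcases n1 x hx with a | a | a
      · rw [p0 x a] at e1; exact absurd e1 (hbl _).2.1
      · rcases n1 y hy with b | b | b
        · rw [p0 y b] at e2; exact absurd e2 (hbl _).2.2
        · rw [p2 y b] at e2; exact absurd e2 huv
        · exact c23 x y hx hy a b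
      · rw [p3 x a] at e1; exact absurd e1.symm huv
    · have hxy : x ≠ y := by rintro rfl; exact e1 rfl
      rcases n1 x hx with a | a | a <;> rcases n1 y hy with b | b | b
      · rw [p0 x a, p0 y b] at e1 ⊢
        rw [c00 x y hx hy hxy a b, if_neg e1]
      · rw [p0 x a, p2 y b, c02 x y hx hy a b]
      · rw [p0 x a, p3 y b, c03 x y hx hy a b]
      · rw [p2 x a, p0 y b, hc, c02 y x hy hx b a, hc]
      · exact absurd (c22 x y hx hy a b) hxy
      · exact absurd ⟨p2 x a, p3 y b⟩ e2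
      · rw [p3 x a, p0 y b, hc, c03 y x hy hx b a, hc]
      · exact absurd ⟨p3 x a, p2 y b⟩ e3
      · exact absurd (c33 x y hx hy a b) hxy
  · refine swap x p hx op (fun y hy hyx => ?_)
    rcases h y hy hyx with ⟨b, b'⟩ | ⟨b, b'⟩
    · exact ⟨(r1 y b).1, (r1 y b).2.1, by rw [c01 x y hx hy a b, b', gs]⟩
    · rw [r3 y b]; exact ⟨oq, hpq.symm, by rw [c03 x y hx hy a b, b', gi]⟩
  · refine swap x q hx oq (fun y hy hyx => ?_)
    rcases h y hy hyx with ⟨b, b'⟩ | ⟨b, b'⟩
    · exact ⟨(r1 y b).1, (r1 y b).2.2, by rw [c01 x y hx hy a b, b', gs]⟩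
    · rw [r2 y b]; exact ⟨op, hpq, by rw [c02 x y hx hy a b, b', gs, gi]⟩

def extOp (a b1 b2 : α) : Op α := ⟨fun _ _ => a, fun _ => b1, fun _ => b2, fun _ _ _ => a⟩

open Classical in
theorem extOp_safe {a b1 b2 : α} (hB : ¬ BadExt c A a b1 b2) (i : α) :
    Safe c A i (extOp a b1 b2) := by
  intro g old e p q gs hpq op oq gi ne gnn gp gq gno f hf hd
  refine ⟨f, hf, fun y hy => ?_⟩
  by_contra hno
  obtain ⟨m, hm⟩ := (hd y hy).resolve_left hno
  have pre : ∀ z, ∃ s, ∀ x, A x → f x = z → x = s := by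
    intro z
    by_cases h : ∃ x, A x ∧ f x = z
    · obtain ⟨s, s1, s2⟩ := h
      refine ⟨s, fun x x1 x2 => ?_⟩
      by_contra h; exact (hf x s x1 s1 h).1 (by rw [x2, s2])
    · exact ⟨y, fun x x1 x2 => absurd ⟨x, x1, x2⟩ h⟩
  obtain ⟨s1, h1⟩ := pre p
  obtain ⟨s2, h2⟩ := pre q
  refine hB ⟨y, s1, s2, hy, fun x hx hxy => ?_⟩
  rw [← (hf y x hy hx hxy.symm).2, hm]
  by_cases e1 : f x = p
  · exact Or.inr (Or.inl ⟨h1 x hx e1, by rw [e1, gp]; rfl⟩)
  by_cases e2 : f x = q
  · exact Or.inr (Or.inr ⟨h2 x hx e2, by rw [e2, gq]; rfl⟩)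
  rcases hd x hx with h | ⟨m', h⟩
  · exact Or.inl (by rw [gno m _ h e1 e2]; rfl)
  · exact Or.inl (by rw [h, gnn]; rfl)

end Pool.Agent.Lib.MP_ab18c1_co
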