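import Mathlib.Data.Fintype.Basic
import Mathlib.Data.Set.Finite.Basic
import Mathlib.Data.Set.Finite.Lattice
import Pool.Agent.Lib.MP_ab18c1_co.Twin

/-! From fixing operations to colourings all of whose locally finite perturbations
contain the pattern. -/

namespace Pool.Agent.Lib.MP_ab18c1_co

variable {V α : Type} {c : V → V → α} {A : V → Prop}

open Classical in
theorem greedy {W : Type} (D : W → Set W) (hD : ∀ x, (D x).Finite)
    (hs : ∀ x y, y ∈ D x → x ∈ D y) (e : ℕ → W) (he : Function.Injective e) (bl : ℕ → V)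
    (P : V → Prop) (hbl : ∀ w, P w → {m | bl m = w}.Infinite) (p q : W) (S : Finset V) :
    ∃ m : V → ℕ, ∀ w ∈ S, P w → bl (m w) = w ∧ e (m w) ∉ D p ∧ e (m w) ∉ D q ∧
      ∀ w' ∈ S, P w' → w' ≠ w → e (m w) ∉ D (e (m w')) := by
  induction S using Finset.induction_on with
  | empty => exact ⟨fun _ => 0, fun w hw => by simp at hw⟩
  | insert w0 S hw0 ih =>
    obtain ⟨m, hm⟩ := ih
    by_cases hP : P w0
    · have fin : (e ⁻¹' (D p ∪ D q ∪ ⋃ w ∈ (S : Set V), D (e (m w)))).Finite :=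
        (((hD p).union (hD q)).union (S.finite_toSet.biUnion (fun w _ => hD _))).preimage
          he.injOn
      obtain ⟨k, k1, k2⟩ := ((hbl w0 hP).sdiff fin).nonempty
      simp only [Set.mem_preimage, Set.mem_union, Set.mem_iUnion, not_or, not_exists] at k2
      have up : ∀ w ∈ S, Function.update m w0 k w = m w := fun w hw =>
        Function.update_of_ne (by rintro rfl; exact hw0 hw) _ _
      refine ⟨Function.update m w0 k, fun w hw1 hPw => ?_⟩
      rcases Finset.mem_insert.1 hw1 with rfl | hw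
      · rw [Function.update_self]
        refine ⟨k1, k2.1.1, k2.1.2, fun w' hw' _ hne => ?_⟩
        have hw'' := (Finset.mem_insert.1 hw').resolve_left hne
        rw [up w' hw'']; exact k2.2 w' hw''
      · obtain ⟨a1, a2, a3, a4⟩ := hm w hw hPw
        rw [up w hw]
        have a5 := k2.2 w hw
        refine ⟨a1, a2, a3, fun w' hw2 hPw' hne => ?_⟩
        rcases Finset.mem_insert.1 hw2 with rfl | hw'
        · rw [Function.update_self]; exact fun h => a5 (hs _ _ h)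
        · rw [up w' hw']; exact a4 w' hw' hPw' hne
    · refine ⟨m, fun w hw hPw => ?_⟩
      have hw1 := (Finset.mem_insert.1 hw).resolve_left (by rintro rfl; exact hP hPw)
      obtain ⟨a1, a2, a3, a4⟩ := hm w hw1 hPw
      exact ⟨a1, a2, a3, fun w' hw' hPw' hne => a4 w'
        ((Finset.mem_insert.1 hw').resolve_left (by rintro rfl; exact hP hPw')) hPw' hne⟩

theorem exists_third (hc : ∀ x y, c x y = c y x) (hU : UsesAll c A) {a b : α} (hab : a ≠ b)
    (u v : V) : ∃ w, A w ∧ w ≠ u ∧ w ≠ v := by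
  by_contra h
  have key : ∀ d, c u v = d := by
    intro d
    obtain ⟨x, y, a1, a2, a3, a4⟩ := hU d
    have hx : x = u ∨ x = v := by
      by_contra g; rw [not_or] at g; exact h ⟨x, a1, g⟩
    have hy : y = u ∨ y = v := by
      by_contra g; rw [not_or] at g; exact h ⟨y, a2, g⟩
    rcases hx with rfl | rfl <;> rcases hy with rfl | rfl
    · exact absurd rfl a3
    · exact a4
    · rw [hc]; exact a4
    · exact absurd rfl a3
  exact hab ((key a).symm.trans (key b))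

open Classical in
theorem exists_bl [Finite V] {u v w0 : V} (h0 : A w0 ∧ w0 ≠ u ∧ w0 ≠ v) :
    ∃ bl : ℕ → V, (∀ m, A (bl m) ∧ bl m ≠ u ∧ bl m ≠ v) ∧
      ∀ w, (A w ∧ w ≠ u ∧ w ≠ v) → {m | bl m = w}.Infinite := by
  have : Nonempty V := ⟨u⟩
  obtain ⟨sj, hsj⟩ := exists_surjective_nat V
  refine ⟨fun m => if A (sj (Nat.unpair m).1) ∧ sj (Nat.unpair m).1 ≠ u ∧ sj (Nat.unpair m).1 ≠ v
    then sj (Nat.unpair m).1 else w0, fun m => ?_, fun w hw => ?_⟩
  · dsimp only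
    split_ifs with h
    · exact h
    · exact h0
  · obtain ⟨a, rfl⟩ := hsj w
    refine Set.infinite_of_injective_forall_mem (f := fun r => Nat.pair a r)
      (fun r r' h => (Nat.pair_eq_pair.1 h).2) (fun r => ?_)
    simp only [Set.mem_ofPred_eq, Nat.unpair_pair]
    rw [if_pos hw]

/-- After applying `op` along an edge that a perturbation recolours with `j`,
the perturbed colouring contains the pattern. -/
def Fixes (c : V → V → α) (A : V → Prop) (j : α) (op : Op α) : Prop :=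
  ∀ (χ χ' : ℕ × ℕ → ℕ × ℕ → α) (p q : ℕ × ℕ) (e : ℕ → ℕ × ℕ), (∀ x y, χ x y = χ y x) →
    (∀ x y, χ' x y = χ' y x) → (∀ p, {q | q ≠ p ∧ χ' p q ≠ χ p q}.Finite) → p ≠ q →
    χ' p q = j → Function.Injective e → (∀ m, e m ≠ p ∧ e m ≠ q) →
    (∀ m m', χ (e m) (e m') = op.nn m m') → (∀ m, χ (e m) p = op.np m) →
    (∀ m, χ (e m) q = op.nq m) → ∃ f, IsCopy A c χ' f

open Classical in
theorem fixOp_fixes [Finite V] (hc : ∀ x y, c x y = c y x) {t : α} {u v : V} (huv : u ≠ v)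
    {φ : V → α → α → α} {bl : ℕ → V}
    (hbl : ∀ w, (A w ∧ w ≠ u ∧ w ≠ v) → {m | bl m = w}.Infinite) :
    Fixes c A (c u v) (fixOp c u v t φ bl) := by
  intro χ χ' p q e s1 s2 hf hpq hj he hne gnn gp gq
  have := Fintype.ofFinite V
  obtain ⟨m, hm⟩ := greedy (fun p => {q | q ≠ p ∧ χ' p q ≠ χ p q}) hf
    (fun x y h => ⟨h.1.symm, by rw [s1, s2]; exact h.2⟩) e he bl _ hbl p q Finset.univ
  have hm' := fun w hw => hm w (Finset.mem_univ w) hw
  have eq : ∀ x y, y ≠ x → y ∉ {q | q ≠ x ∧ χ' x q ≠ χ x q} → χ' x y = χ x y := by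
    intro x y h1 h2
    by_contra h3; exact h2 ⟨h1, h3⟩
  let f : V → ℕ × ℕ := fun x => if x = u then p else if x = v then q else e (m x)
  have fu : f u = p := by simp [f]
  have fv : f v = q := by simp [f, huv.symm]
  have fw : ∀ x, x ≠ u → x ≠ v → f x = e (m x) := fun x a b => by simp [f, a, b]
  have hu : ∀ x, A x → x ≠ u → x ≠ v → f x ≠ f u ∧ χ' (f x) (f u) = c x u := by
    intro x a1 a2 a3
    obtain ⟨b1, b2, _, _⟩ := hm' x ⟨a1, a2, a3⟩
    rw [fu, fw x a2 a3, s2, eq _ _ (hne _).1 b2, s1, gp]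
    exact ⟨(hne _).1, by simp [fixOp, b1]⟩
  have hv : ∀ x, A x → x ≠ u → x ≠ v → f x ≠ f v ∧ χ' (f x) (f v) = c x v := by
    intro x a1 a2 a3
    obtain ⟨b1, _, b3, _⟩ := hm' x ⟨a1, a2, a3⟩
    rw [fv, fw x a2 a3, s2, eq _ _ (hne _).2 b3, s1, gq]
    exact ⟨(hne _).2, by simp [fixOp, b1]⟩
  refine ⟨f, fun x y hx hy hxy => ?_⟩
  by_cases xu : x = u
  · subst xu
    by_cases yv : y = v
    · subst yv; rw [fu, fv]; exact ⟨hpq, hj⟩
    · obtain ⟨a, b⟩ := hu y hy hxy.symm yv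
      exact ⟨a.symm, by rw [s2, b, hc]⟩
  by_cases xv : x = v
  · subst xv
    by_cases yu : y = u
    · subst yu; rw [fu, fv]; exact ⟨hpq.symm, by rw [s2, hj, hc]⟩
    · obtain ⟨a, b⟩ := hv y hy yu hxy.symm
      exact ⟨a.symm, by rw [s2, b, hc]⟩
  by_cases yu : y = u
  · subst yu; exact hu x hx xu xv
  by_cases yv : y = v
  · subst yv; exact hv x hx xu xv
  obtain ⟨b1, _, _, b4⟩ := hm' x ⟨hx, xu, xv⟩
  obtain ⟨d1, _, _, _⟩ := hm' y ⟨hy, yu, yv⟩
  have ne : e (m x) ≠ e (m y) := fun h => hxy (by rw [← b1, ← d1, he h])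
  rw [fw x xu xv, fw y yu yv, s2,
    eq _ _ ne (b4 y (Finset.mem_univ y) ⟨hy, yu, yv⟩ hxy.symm), s1, gnn]
  exact ⟨ne, by simp [fixOp, b1, d1, hxy]⟩

theorem exists_op [Finite V] (hc : ∀ x y, c x y = c y x) (hU : UsesAll c A) {a b d : α}
    (hab : a ≠ b) (had : a ≠ d) (hbd : b ≠ d) {i j : α} (hij : i ≠ j) (h : ¬ NoFix c A i j) :
    ∃ op : Op α, (∀ m m', op.nn m m' = op.nn m' m) ∧ Safe c A i op ∧ Fixes c A j op := by
  unfold NoFix at h
  simp only [not_forall] at h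
  obtain ⟨u, v, φ, hu, hv, huv, rfl, hB⟩ := h
  obtain ⟨t, tu, tv⟩ := exists_tw_free (A := A) hc hab had hbd u v
  obtain ⟨w0, h0⟩ := exists_third hc hU hab u v
  obtain ⟨bl, b1, b2⟩ := exists_bl h0
  exact ⟨fixOp c u v t φ bl, fixOp_symm hc u v t φ bl, fixOp_safe hc hu hv huv hij tu tv b1 hB,
    fixOp_fixes hc huv b2⟩

theorem exists_ops [Finite V] (hc : ∀ x y, c x y = c y x) (hU : UsesAll c A) {a b d : α}
    (hab : a ≠ b) (had : a ≠ d) (hbd : b ≠ d) (h : ∀ i j, i ≠ j → ¬ NoFix c A i j) :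
    ∃ O : α → α → Op α, ∀ i j, (∀ m m', (O i j).nn m m' = (O i j).nn m' m) ∧
      Safe c A i (O i j) ∧ (i ≠ j → Fixes c A j (O i j)) := by
  have key : ∀ i j, ∃ op : Op α, (∀ m m', op.nn m m' = op.nn m' m) ∧ Safe c A i op ∧
      (i ≠ j → Fixes c A j op) := by
    intro i j
    by_cases hij : i = j
    · have : ∃ j', i ≠ j' := by
        by_cases e : i = a
        · exact ⟨b, e ▸ hab⟩
        · exact ⟨a, e⟩
      obtain ⟨j', hj'⟩ := this
      obtain ⟨op, a1, a2, _⟩ := exists_op hc hU hab had hbd hj' (h i j' hj')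
      exact ⟨op, a1, a2, fun e => absurd hij e⟩
    · obtain ⟨op, a1, a2, a3⟩ := exists_op hc hU hab had hbd hij (h i j hij)
      exact ⟨op, a1, a2, fun _ => a3⟩
  choose O hO using key
  exact ⟨O, hO⟩

theorem core [Finite V] [Countable α] (hc : ∀ x y, c x y = c y x) (hU : UsesAll c A) {a b d : α}
    (hab : a ≠ b) (had : a ≠ d) (hbd : b ≠ d) (h : ∀ i j, i ≠ j → ¬ NoFix c A i j)
    (E : α → Op α) (hE : ∀ i, (∀ m m', (E i).nn m m' = (E i).nn m' m) ∧ Safe c A i (E i)) :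
    ∃ χ : ℕ × ℕ → ℕ × ℕ → α, (∀ x y, χ x y = χ y x) ∧ (¬ ∃ f, IsCopy A c χ f) ∧
      (∀ χ' : ℕ × ℕ → ℕ × ℕ → α, (∀ x y, χ' x y = χ' y x) → (∃ p q, p ≠ q ∧ χ' p q ≠ χ p q) →
        (∀ p, {q | q ≠ p ∧ χ' p q ≠ χ p q}.Finite) → ∃ f, IsCopy A c χ' f) ∧
      ∀ p q, p ≠ q → ∀ (F : Set (ℕ × ℕ)), F.Finite → ∃ e : ℕ → ℕ × ℕ, Function.Injective e ∧
        (∀ m, e m ∉ F) ∧ (∀ m, χ (e m) p = (E (χ p q)).np m) ∧
        (∀ m, χ (e m) q = (E (χ p q)).nq m) ∧
        (∀ m, ∀ y ∈ F, y ≠ p → y ≠ q → χ (e m) y = (E (χ p q)).no m (χ y p) (χ y q)) := by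
  obtain ⟨O, hO⟩ := exists_ops hc hU hab had hbd h
  obtain ⟨x, y, a1, a2, a3, a4⟩ := hU b
  obtain ⟨χ, c1, c2, c3⟩ := build (c := c) (A := A) (T := Option α)
    (fun i τ => τ.elim (E i) (O i))
    (fun i τ => by cases τ with
      | none => exact (hE i).1
      | some j => exact (hO i j).1)
    (fun i τ => by cases τ with
      | none => exact (hE i).2
      | some j => exact (hO i j).2.1) a ⟨x, y, a1, a2, a3, by rw [a4]; exact hab.symm⟩
  refine ⟨χ, c1, c2, fun χ' s2 ⟨p, q, hpq, hne⟩ hf => ?_, fun p q hpq F hF => ?_⟩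
  · obtain ⟨e, e1, e2, e3, e4, e5, _⟩ := c3 p q hpq (some (χ' p q)) ∅ Set.finite_empty
    exact (hO (χ p q) (χ' p q)).2.2 hne.symm χ χ' p q e c1 s2 hf hpq rfl e1
      (fun m => (e2 m).2) e3 e4 e5
  · obtain ⟨e, e1, e2, _, e4, e5, e6⟩ := c3 p q hpq none F hF
    exact ⟨e, e1, fun m => (e2 m).1, e4, e5, e6⟩

open Classical in
theorem cons [Finite V] [Countable α] (hc : ∀ x y, c x y = c y x) {a b d : α}
    (hab : a ≠ b) (had : a ≠ d) (hbd : b ≠ d) : Cons c := by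
  constructor
  · intro hU h
    obtain ⟨O, hO⟩ := exists_ops hc hU hab had hbd h
    obtain ⟨χ, c1, c2, c3, _⟩ := core hc hU hab had hbd h (fun i => O i i)
      (fun i => ⟨(hO i i).1, (hO i i).2.1⟩)
    exact ⟨χ, c1, c2, c3⟩
  · intro x z1 z2 a' hz h1 h2 hx hU hB h
    obtain ⟨χ, c1, c2, c3, c4⟩ := core hc hU hab had hbd h
      (fun _ => extOp a' (c x z1) (c x z2)) (fun i => ⟨fun _ _ => rfl, extOp_safe hB i⟩)
    refine ⟨χ, c1, fun ⟨f, hf⟩ => c2 ⟨f, fun u v _ _ huv => hf u v trivial trivial huv⟩,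
      fun χ' s2 hne hf => ?_⟩
    obtain ⟨f, hf1⟩ := c3 χ' s2 hne hf
    obtain ⟨e, e1, e2, e3, e4, e5⟩ := c4 (f z1) (f z2) (hf1 z1 z2 h1 h2 hz).1 (Set.range f)
      (Set.finite_range f)
    have fin : (e ⁻¹' (⋃ y, {q | q ≠ f y ∧ χ' (f y) q ≠ χ (f y) q})).Finite :=
      (Set.finite_iUnion (fun y => hf (f y))).preimage e1.injOn
    obtain ⟨m, hm⟩ := fin.infinite_compl.nonempty
    simp only [Set.mem_compl_iff, Set.mem_preimage, Set.mem_iUnion, not_exists] at hm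
    have key : ∀ y, y ≠ x → e m ≠ f y ∧ χ' (e m) (f y) = c x y := by
      intro y hy
      have n1 : e m ≠ f y := fun g => e2 m ⟨y, g.symm⟩
      have n2 : χ' (e m) (f y) = χ (e m) (f y) := by
        rw [s2, c1]
        by_contra g; exact hm y ⟨n1, g⟩
      refine ⟨n1, ?_⟩
      rw [n2]
      by_cases g1 : y = z1
      · rw [g1, e3]; rfl
      by_cases g2 : y = z2
      · rw [g2, e4]; rfl
      rw [e5 m _ ⟨y, rfl⟩ (hf1 y z1 hy h1 g1).1 (hf1 y z2 hy h2 g2).1, hx y hy g1 g2]; rfl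
    refine ⟨Function.update f x (e m), fun u v _ _ huv => ?_⟩
    by_cases g1 : u = x
    · subst g1
      rw [Function.update_self, Function.update_of_ne huv.symm]
      exact key v huv.symm
    · by_cases g2 : v = x
      · subst g2
        rw [Function.update_self, Function.update_of_ne huv, s2, hc]
        exact ⟨(key u huv).1.symm, (key u huv).2⟩
      · rw [Function.update_of_ne g1, Function.update_of_ne g2]; exact hf1 u v g1 g2 huv

end Pool.Agent.Lib.MP_ab18c1_co
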