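import Mathlib.Tactic.IntervalCases
import Pool.Agent.Lib.MP_ab18c1_co.Lib3

namespace Pool.Agent.Lib.MP_ab18c1_co

theorem ok3_31 : top 3 lib3 31 [
  4, 0, 3, 2, 2, 22, 172066848, 100384, 2, 30, 172066848, 100384] = true := by decide +kernel

theorem ok3_32 : top 3 lib3 32 [
  4, 1, 5, 1, 2, 31, 106039297, 165889, 2, 0, 105023489, 165889] = true := by decide +kernel

theorem ok3_33 : top 3 lib3 33 [
  5, 0, 2, 2, 21, 3145762, 131104, 2, 21, 3145762, 131104, 2, 21, 3145762, 131104, 2, 21,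
  3145762, 131104, 2, 32, 2286947360, 134223904, 2, 32, 2253393952, 134223904, 5, 1, 2, 0, 4, 5,
  1, 2, 0, 4, 2, 32, 2286947360, 134223904, 2, 32, 2253393952, 134223904, 2, 0, 3390177282,
  196737, 2, 0, 3356655618, 196737, 2, 0, 3390177282, 196737, 2, 0, 3356655618, 196737, 5, 1, 2,
  0, 4, 5, 1, 2, 0, 4] = true := by decide +kernel

theorem ok3_34 : top 3 lib3 34 [
  3, 3, 7, 2, 1, 2, 0, 1, 2, 1, 4, 0, 36893488147419103233, 2, 0, 1, 0, 36893488147419103232, 2,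
  1, 4, 0, 36893488147419103233, 2, 0, 1, 0, 36893488147419103232, 2, 1, 2, 0, 1, 7, 2, 0, 2, 0,
  1461501637330902918282912995230547357253771460608, 2, 2, 4, 0,
  2923003274661805836565825990461094714507542921217, 2, 4, 0, 0, 36893488147419103232, 2, 2, 4,
  0, 2923003274661805836565825990461094714507542921217, 2, 4, 0, 0, 36893488147419103232, 2, 0,
  2, 0, 1461501637330902918282912995230547357253771460608] = true := by decide +kernel

theorem ok3_35 : top 3 lib3 35 [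
  4, 4, 2, 2, 2, 34, 4293696, 4195392, 5, 1, 2, 2, 4] = true := by decide +kernel

theorem ok3_36 : top 3 lib3 36 [
  4, 4, 3, 1, 2, 35, 4262944, 4197408, 5, 1, 2, 0, 1] = true := by decide +kernel

theorem ok3_37 : top 3 lib3 37 [
  5, 0, 2, 2, 34, 137430016, 5246016, 2, 34, 137430016, 5246016, 2, 34, 137430016, 5246016, 2,
  34, 137430016, 5246016, 2, 36, 136350720, 5308512, 2, 36, 136350720, 5308512, 2, 36,
  3357575168, 5439584, 2, 36, 3357575168, 5439584, 2, 36, 3357575168, 5439584, 2, 36, 3357575168,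
  5439584, 2, 36, 136350720, 5308512, 2, 36, 136350720, 5308512, 2, 36, 3357575168, 5439584, 2,
  36, 3357575168, 5439584, 2, 36, 3357575168, 5439584, 2, 36, 3357575168, 5439584] = true := by decide +kernel

theorem ok3_38 : top 3 lib3 38 [
  3, 1, 2, 33, 135366656, 5243008, 2, 37, 2253422720, 134387712] = true := by decide +kernel

theorem ok3_39 : top 3 lib3 39 [
  6, 4, 2, 0, 3, 0, 2, 1, 2, 1, 3, 1, 2, 0, 3, 1, 2, 1, 2, 1, 2, 0, 3, 1, 2, 1, 2, 1, 2, 1, 3] = true := by decide +kernel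

theorem ok3_40 : top 3 lib3 40 [
  6, 4, 2, 0, 3, 0, 2, 1, 2, 1, 3, 1, 2, 0, 3, 1, 2, 0, 1, 1, 2, 0, 3, 1, 2, 0, 1, 1, 2, 1, 3] = true := by decide +kernel

theorem ok3_41 : top 3 lib3 41 [
  4, 2, 3, 1, 6, 1, 1, 0, 7, 2, 2, 0, 1, 1, 1, 2, 7, 1, 1, 0, 7, 1, 1, 2, 7, 1, 1, 0, 7, 0, 1, 6,
  0, 0, 1, 7, 2, 0, 1, 0, 1, 2, 1, 0, 1, 7, 0, 0, 1, 0, 1, 7, 0, 0, 1, 0, 1, 2] = true := by decide +kernel

theorem ok3_42 : top 3 lib3 42 [
  4, 1, 3, 3, 3, 3, 7, 2, 1, 2, 1, 59468427007837047751786273143990676170495317, 1, 1, 1, 4, 1,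
  1, 0, 4, 1, 1, 0, 2, 1, 1, 0, 4, 1, 1, 1, 2, 6, 4, 2, 0, 2, 0, 2, 1, 2, 1, 2, 1, 2, 0, 2, 1, 2,
  0, 1, 1, 2, 0, 2, 1, 2, 0, 1, 1, 2, 1, 2, 6, 4, 2, 0, 2, 0, 2, 0, 2, 2, 39, 71306272, 4264992,
  2, 39, 71306272, 4264992, 2, 39, 71306272, 4264992, 2, 39, 71306272, 4264992, 1, 2, 0, 2, 0, 2,
  2, 40, 71306272, 4264992, 2, 40, 71306272, 4264992, 2, 40, 71306272, 4264992, 2, 40, 71306272,
  4264992, 1, 2, 0, 2, 0, 2, 2, 41, 142915863616, 137446458432, 2, 41, 143989572672,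
  137446458432, 2, 41, 142915863616, 137446458432, 2, 41, 143989572672, 137446458432, 0, 2, 2,
  41, 142915863616, 137446458432, 2, 41, 143989572672, 137446458432, 2, 41, 142915863616,
  137446458432, 2, 41, 143989572672, 137446458432] = true := by decide +kernel

theorem run3B (l : Nat) (h1 : 31 ≤ l) (h2 : l < 43) : ∃ p, top 3 lib3 l p = true := by
  interval_cases l
  exacts [
    ⟨_, ok3_31⟩, ⟨_, ok3_32⟩, ⟨_, ok3_33⟩, ⟨_, ok3_34⟩, ⟨_, ok3_35⟩, ⟨_, ok3_36⟩, ⟨_, ok3_37⟩,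
    ⟨_, ok3_38⟩, ⟨_, ok3_39⟩, ⟨_, ok3_40⟩, ⟨_, ok3_41⟩, ⟨_, ok3_42⟩]

end Pool.Agent.Lib.MP_ab18c1_co
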