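import Pool.Agent.Lib.MP_ab18c1_co.CtxS

/-! Soundness of the checker. -/

namespace Pool.Agent.Lib.MP_ab18c1_co

variable {V α : Type} {c : V → V → α} {κ : α → ℕ} {col : ℕ → α} {nc : ℕ}
  {t : Tm} {cell : V → ℕ}

structure Glob (c : V → V → α) (κ : α → ℕ) (col : ℕ → α) (nc : ℕ) : Prop
    extends Env c κ col nc where
  nc3 : 3 ≤ nc
  uses : UsesAll c (fun _ => True)
  cons : Cons c
  ng : ¬ Good c
  h01 : NoFix c (fun _ => True) (col 0) (col 1)

def Val (K : V → V → ℕ) (L : Tm) : Prop := ∀ cell, Sem K L cell → False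

theorem ref_sound {K : V → V → ℕ} (h : Sat K t cell) {L : Tm} {P I : ℕ}
    (hr : refOk t L P I = true) : Sem K L (fun x => dig P (cell x)) := by
  simp only [refOk, Bool.and_eq_true, List.all_eq_true, Bool.or_eq_true, mem_iff, beq_iff,
    Bool.not_eq_true', mem_false] at hr
  obtain ⟨⟨⟨h1, h2⟩, h3⟩, h4⟩ := hr
  have hc : ∀ x, cell x ∈ t.N ++ t.C := fun x => List.mem_append.2 (h.cov x)
  refine ⟨fun x => ?_, fun q hq => ?_, fun x y hx hy => ?_, fun x y hxy => ?_⟩
  · rcases h1 _ (hc x) with a | a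
    · exact Or.inr a
    · exact Or.inl a.1
  · obtain ⟨⟨a1, a2⟩, _⟩ := h2 q hq
    obtain ⟨x, hx⟩ := h.ex _ a1
    exact ⟨x, by rw [hx, a2]⟩
  · obtain ⟨⟨a1, _⟩, a3⟩ := h2 _ hx
    have e1 := ((h1 _ (hc x)).resolve_left a3).2
    have e2 := ((h1 _ (hc y)).resolve_left (by rw [hy]; exact a3)).2
    have hy' : dig P (cell y) = dig P (cell x) := hy
    rw [hy'] at e2
    exact h.uq x y (e1 ▸ a1) (e2.symm.trans e1)
  · refine sub_bit ?_ (h.col x y hxy)
    rcases h.cov x with a | a
    · exact (h3 _ a _ (hc y)).resolve_left (fun e => hxy (h.uq x y a e.symm).symm)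
    · exact h4 _ a _ (hc y)

theorem unused_sound {K : V → V → ℕ} (hK : KOk K) (h : Sat K t cell) {d : ℕ}
    (hr : unusedOk t d = true) {x y : V} (hxy : x ≠ y) (hd : K x y = d) : False := by
  simp only [unusedOk, Bool.and_eq_true, List.all_eq_true, Bool.or_eq_true, beq_iff,
    Bool.not_eq_true', bt_eq] at hr
  obtain ⟨h1, h2⟩ := hr
  have key : ∀ x y, x ≠ y → K x y = d → cell x ∈ t.N → False := by
    intro x y hxy hd a
    have := (h1 _ a _ (List.mem_append.2 (h.cov y))).resolve_left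
      (fun e => hxy (h.uq x y a e.symm).symm)
    rw [← hd, h.col x y hxy] at this
    exact absurd this (by simp)
  rcases h.cov x with a | a
  · exact key x y hxy hd a
  · rcases h.cov y with b | b
    · exact key y x hxy.symm (by rw [hK.sym, hd]) b
    · have := h2 _ a _ b
      rw [← hd, h.col x y hxy] at this
      exact absurd this (by simp)

theorem six_sound (E : Env c κ col 3) (h : Sat (fun x y => κ (c x y)) t cell) {A : V → Prop}
    {rem : ℕ} (hA : Act t cell A rem) (hU : UsesAll c A)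
    (hN : ¬ ∀ i j, i ≠ j → ¬ NoFix c A i j) {k : Tm → List ℕ → Option (List ℕ)}
    (hk : Refu (fun x y => κ (c x y)) k) {p r : List ℕ} (hr : six k t rem p = some r) :
    False := by
  refine hN (fun a b hab hN => ?_)
  have ha := E.three rfl a
  have hb := E.three rfl b
  have hne : κ a ≠ κ b := fun e => hab (by rw [← E.ck a ha, e, E.ck b hb])
  have hq : 3 * κ a + κ b ∈ [1, 2, 3, 5, 6, 7] := by
    simp only [List.mem_cons, List.not_mem_nil, or_false]; omega
  obtain ⟨p', r', e⟩ := allP_some hr hq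
  have e1 : Nat.div (3 * κ a + κ b) 3 = κ a := by
    show (3 * κ a + κ b) / 3 = _
    omega
  have e2 : Nat.mod (3 * κ a + κ b) 3 = κ b := by
    show (3 * κ a + κ b) % 3 = _
    omega
  rw [e1, e2] at e
  exact ctx_sound E h hA ha hb hU (by rw [E.ck a ha, E.ck b hb]; exact hN) hk e

theorem ext_sound (E : Env c κ col 3) (h : Sat (fun x y => κ (c x y)) t cell) {x0 y : V}
    {a b1 b2 : ℕ} (ha : a < 3) (hb1 : b1 < 3) (hb2 : b2 < 3)
    (hr : extOne t.M a b1 b2 (cell x0) (cell y) t.N = true) {s1 s2 : V}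
    (hB : ∀ x, x ≠ x0 → x ≠ y →
      c y x = col a ∨ (x = s1 ∧ c y x = col b1) ∨ (x = s2 ∧ c y x = col b2)) : False := by
  have key : ∀ q ∈ t.N.filter (fun q => !(Nat.beq q (cell x0) || Nat.beq q (cell y) ||
      bt (gt t.M (cell y) q) a)), (cell s1 = q ∧ (gt t.M (cell y) q).testBit b1 = true) ∨
      (cell s2 = q ∧ (gt t.M (cell y) q).testBit b2 = true) := by
    intro q hq
    obtain ⟨q1, q2⟩ := List.mem_filter.1 hq
    simp only [Bool.not_eq_true', Bool.or_eq_false_iff, beq_false, bt_eq] at q2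
    obtain ⟨z, rfl⟩ := h.ex q q1
    have z1 : z ≠ x0 := by rintro rfl; exact q2.1.1 rfl
    have z2 : z ≠ y := by rintro rfl; exact q2.1.2 rfl
    have hc : (gt t.M (cell y) (cell z)).testBit (κ (c y z)) = true := h.col y z z2.symm
    rcases hB z z1 z2 with e | ⟨e1, e⟩ | ⟨e1, e⟩
    · rw [e, E.kc a ha, q2.2] at hc; exact absurd hc (by simp)
    · rw [e, E.kc _ hb1] at hc; exact Or.inl ⟨by rw [e1], hc⟩
    · rw [e, E.kc _ hb2] at hc; exact Or.inr ⟨by rw [e1], hc⟩
  unfold extOne at hr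
  generalize t.N.filter _ = O at hr key
  simp only [List.any_eq_true, Bool.or_eq_true, Bool.and_eq_true, Bool.not_eq_true', bt_eq,
    beq_false, Bool.or_eq_false_iff] at hr
  obtain ⟨q, hq, e | ⟨r, hr, e0, (e | e) | ⟨s, hs, e1, e2⟩⟩⟩ := hr
  · rcases key q hq with a | a
    · rw [a.2] at e; exact absurd e.1 (by simp)
    · rw [a.2] at e; exact absurd e.2 (by simp)
  · rcases key q hq with a | a
    · rw [a.2] at e; exact absurd e.1 (by simp)
    · rcases key r hr with b | b
      · rw [b.2] at e; exact absurd e.2 (by simp)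
      · exact e0 (b.1.symm.trans a.1)
  · rcases key q hq with a | a
    · rcases key r hr with b | b
      · exact e0 (b.1.symm.trans a.1)
      · rw [b.2] at e; exact absurd e.2 (by simp)
    · rw [a.2] at e; exact absurd e.1 (by simp)
  · have := (key q hq).imp And.left And.left
    have := (key r hr).imp And.left And.left
    have := (key s hs).imp And.left And.left
    omega

theorem red_sound (G : Glob c κ col 3) (h : Sat (fun x y => κ (c x y)) t cell)
    {x a z1 z2 b1 b2 : ℕ} (he : redOk t x a z1 z2 b1 b2 = true)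
    {k : Tm → List ℕ → Option (List ℕ)} (hk : Refu (fun x y => κ (c x y)) k) {p r : List ℕ}
    (hr : six k t x p = some r) : False := by
  have E := G.toEnv
  simp only [redOk, Bool.and_eq_true, blt_iff, List.all_eq_true, Bool.or_eq_true, beq_iff,
    Bool.not_eq_true', beq_false] at he
  obtain ⟨⟨⟨⟨⟨⟨⟨⟨⟨⟨ha, hb1⟩, hb2⟩, hz⟩, e1⟩, e2⟩, e3⟩, u0⟩, u1⟩, u2⟩, e4⟩ := he
  obtain ⟨x0, y1, rfl, rfl, a1, a2, _, _, a5, a6⟩ := edgeOk_some E h hb1 e1
  obtain ⟨x1, y2, ex, rfl, _, b2', _, _, b5, b6⟩ := edgeOk_some E h hb2 e2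
  obtain rfl : x1 = x0 := h.uq x0 x1 a1 ex
  have hA : Act t cell (· ≠ x1) (cell x1) :=
    ⟨fun y => ⟨fun hy e => hy (h.uq x1 y a1 e), fun hy e => hy (by rw [e])⟩, Or.inl a1⟩
  have us : ∀ d, d < 3 → usedOk t (cell x1) d = true →
      ∃ x y, x ≠ x1 ∧ y ≠ x1 ∧ x ≠ y ∧ c x y = col d := by
    intro d hd hu
    simp only [usedOk, List.any_eq_true] at hu
    obtain ⟨u, _, v, _, hu⟩ := hu
    obtain ⟨x, y, rfl, rfl, _, _, c3, c4, c5, c6⟩ := edgeOk_some E h hd hu
    exact ⟨x, y, (hA.1 x).2 c3, (hA.1 y).2 c4, c5, c6⟩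
  have hU : UsesAll c (· ≠ x1) := by
    intro b
    have hb := E.three rfl b
    rw [← E.ck b hb]
    refine us _ hb ?_
    have : κ b = 0 ∨ κ b = 1 ∨ κ b = 2 := by omega
    rcases this with e | e | e <;> rw [e] <;> assumption
  refine six_sound E h hA hU (fun hN => G.ng (G.cons.red x1 y1 y2 (col a)
    (fun e => hz (by rw [e])) a5.symm b5.symm (fun y c1 c2 c3 => ?_) hU ?_ hN)) hk hr
  · rcases e3 _ (List.mem_append.2 (h.cov y)) with ((e | e) | e) | e
    · exact absurd (h.uq x1 y a1 e) c1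
    · exact absurd (h.uq y1 y a2 e) c2
    · exact absurd (h.uq y2 y b2' e) c3
    · have := h.col x1 y c1.symm
      rw [e] at this
      exact E.eq_col ha (one_bit this)
  · rintro ⟨y, s1, s2, hy, hB⟩
    rw [a6, b6] at hB
    exact ext_sound E h ha hb1 hb2
      ((e4 _ (List.mem_append.2 (h.cov y))).resolve_left ((hA.1 y).1 hy)) hB

def dfl : Tm := ⟨33, [], [], 0⟩

theorem step_sound (G : Glob c κ col nc) {bd : ℕ} {lib : List Tm}
    (hlib : ∀ l, l < bd → Val (fun x y => κ (c x y)) (lib.getD l dfl))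
    {k : Tm → List ℕ → Option (List ℕ)} (hk : Refu (fun x y => κ (c x y)) k) :
    Refu (fun x y => κ (c x y)) (step nc bd lib k) := by
  intro t p r cell hr h
  have E := G.toEnv
  have hK := E.kok
  have n3 := G.nc3
  have hA : Act t cell (fun _ => True) 32 :=
    ⟨fun x => ⟨fun _ => by have := h.lt32 x; omega, fun _ => trivial⟩, Or.inr rfl⟩
  unfold step at hr
  split at hr
  · rename_i a b p
    cases e : (mem a t.N && mem b t.N && !(Nat.beq a b) && Nat.beq (gt t.M a b) 0) <;>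
      rw [e] at hr
    · simp at hr
    simp only [Bool.and_eq_true, mem_iff, Bool.not_eq_true', beq_false, beq_iff] at e
    obtain ⟨⟨⟨e1, e2⟩, e3⟩, e4⟩ := e
    obtain ⟨x, rfl⟩ := h.ex a e1
    obtain ⟨y, rfl⟩ := h.ex b e2
    have := h.col x y (by rintro rfl; exact e3 rfl)
    rw [e4] at this; simp at this
  · rename_i d p
    cases e : (Nat.blt d nc && unusedOk t d) <;> rw [e] at hr
    · simp at hr
    rw [Bool.and_eq_true, blt_iff] at e
    obtain ⟨x, y, _, _, a3, a4⟩ := G.uses (col d)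
    exact unused_sound hK h e.2 a3 (show κ (c x y) = d by rw [a4, E.kc d e.1])
  · rename_i l P I p
    cases e : (Nat.blt l bd && refOk t (lib.getD l t) P I && Nat.blt l lib.length) <;>
      rw [e] at hr
    · simp at hr
    simp only [Bool.and_eq_true, blt_iff] at e
    have e2 : lib.getD l t = lib.getD l dfl :=
      (List.getD_eq_getElem _ _ e.2).trans (List.getD_eq_getElem _ _ e.2).symm
    exact hlib l e.1.1 _ (e2 ▸ ref_sound h e.1.2)
  · rename_i a p
    cases e : mem a t.C <;> rw [e] at hr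
    · simp at hr
    obtain ⟨q, e1, e2⟩ := bnd_some (show bnd _ _ = some r from hr)
    by_cases hx : ∃ x, cell x = a
    · obtain ⟨x, rfl⟩ := hx
      obtain ⟨e3, e4⟩ := withN_some e2
      exact hk _ _ _ _ e4 (h.addN hK e3 (h.hd _ ((mem_iff _ _).1 e)))
    · exact hk _ _ _ _ e1 (h.kill (fun x e => hx ⟨x, e⟩))
  · rename_i a b m p
    cases e : (Nat.blt m 32 && Nat.blt a 32 && Nat.blt b 32) <;> rw [e] at hr
    · simp at hr
    simp only [Bool.and_eq_true, blt_iff] at e
    obtain ⟨q, e1, e2⟩ := bnd_some (show bnd _ _ = some r from hr)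
    by_cases hx : ∃ x y, x ≠ y ∧ cell x = a ∧ cell y = b ∧ m.testBit (κ (c x y)) = true
    · obtain ⟨x, y, hxy, rfl, rfl, hm⟩ := hx
      obtain ⟨t1, c1, s1, n1, e3⟩ := nameIt_some hK h e2
      rw [← n1.oth y hxy.symm] at e3
      obtain ⟨t2, c2, s2, n2, e4⟩ := nameIt_some hK n1.sat e3
      have f1 : c2 x = s1 := by rw [n2.oth x hxy, n1.eq]
      refine hk _ _ _ c2 e4 (n2.sat.res hK (xor_lt m e.1.1) (f1 ▸ n2.sat.lt32 x)
        (n2.eq ▸ n2.sat.lt32 y) (fun x' y' _ g1 g2 => ?_))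
      rw [n2.sat.uq x x' (by rw [f1]; exact n2.sub _ n1.mem) (g1.trans f1.symm),
        n2.sat.uq y y' (by rw [n2.eq]; exact n2.mem) (g2.trans n2.eq.symm)]
      exact xor_bit m e.1.1 _ (E.lt _) hm
    · refine hk _ _ _ cell e1 (h.res hK e.1.1 e.1.2 e.2 (fun x y hxy g1 g2 => ?_))
      cases e3 : m.testBit (κ (c x y))
      · rfl
      · exact absurd ⟨x, y, hxy, g1, g2, e3⟩ hx
  · exact ctx_sound E h hA (by omega) (by omega) G.uses G.h01 hk hr
  · rename_i x a z1 z2 b1 b2 p
    cases e : (Nat.beq nc 3 && redOk t x a z1 z2 b1 b2) <;> rw [e] at hr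
    · simp at hr
    rw [Bool.and_eq_true, beq_iff] at e
    obtain ⟨rfl, e⟩ := e
    exact red_sound G h e hk hr
  · rename_i p
    cases e : Nat.beq nc 3 <;> rw [e] at hr
    · simp at hr
    obtain rfl := (beq_iff _ _).1 e
    exact six_sound E h hA G.uses (fun hN => G.ng (G.cons.self G.uses hN)) hk hr
  · simp at hr

theorem check_sound (G : Glob c κ col nc) {bd : ℕ} {lib : List Tm}
    (hlib : ∀ l, l < bd → Val (fun x y => κ (c x y)) (lib.getD l dfl)) (f : ℕ) :
    Refu (fun x y => κ (c x y)) (check nc bd lib f) := by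
  induction f with
  | zero => intro t p r cell hr _; simp [check] at hr
  | succ f ih => intro t p r cell hr h; exact step_sound G hlib ih t.norm p r cell hr h.norm

theorem top_sound (G : Glob c κ col nc) {bd : ℕ} {lib : List Tm}
    (hlib : ∀ l, l < bd → Val (fun x y => κ (c x y)) (lib.getD l dfl)) {p : List ℕ}
    (h : top nc lib bd p = true) : Val (fun x y => κ (c x y)) (lib.getD bd dfl) := by
  intro cell hs
  unfold top at h
  rw [Bool.and_eq_true, Option.isSome_iff_exists] at h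
  obtain ⟨h1, r, h2⟩ := h
  simp only [wf, Bool.and_eq_true, ble_iff, List.all_eq_true, blt_iff, Bool.not_eq_true',
    mem_false] at h1
  exact check_sound G hlib 60 _ p r cell h2
    ⟨hs, h1.1.1, h1.1.2, fun a ha => (h1.2 a ha).1, fun a ha => (h1.2 a ha).2⟩

theorem all_sound (G : Glob c κ col nc) {lib : List Tm} {n : ℕ}
    (h : ∀ l, l < n → ∃ p, top nc lib l p = true) :
    ∀ l, l < n → Val (fun x y => κ (c x y)) (lib.getD l dfl) := by
  intro l
  induction l using Nat.strong_induction_on with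
  | _ l ih =>
    intro hl
    obtain ⟨p, hp⟩ := h l hl
    exact top_sound G (fun m hm => ih m hm (by omega)) hp

end Pool.Agent.Lib.MP_ab18c1_co
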