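import Mathlib.Data.Fintype.Card
import Mathlib.Data.Fintype.Fin
import Pool.Agent.Lib.MP_ab18c1_co.StepS
import Pool.Agent.Lib.MP_ab18c1_co.Main
import Pool.Agent.Lib.MP_ab18c1_co.Run3A
import Pool.Agent.Lib.MP_ab18c1_co.Run3B
import Pool.Agent.Lib.MP_ab18c1_co.Run3C
import Pool.Agent.Lib.MP_ab18c1_co.Run3D
import Pool.Agent.Lib.MP_ab18c1_co.Run4A

/-! The case analysis is complete: every pattern using at least three colours is good. -/

namespace Pool.Agent.Lib.MP_ab18c1_co

variable {V α : Type} {c : V → V → α}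

theorem glob3 {κ : α → ℕ} {col : ℕ → α} (G : Glob c κ col 3) : False := by
  have h := all_sound G (lib := lib3) (n := 224) (fun l hl => by
    by_cases h1 : l < 31
    · exact run3A l (by omega) h1
    by_cases h2 : l < 43
    · exact run3B l (by omega) h2
    by_cases h3 : l < 107
    · exact run3C l (by omega) h3
    · exact run3D l (by omega) hl) 223 (by decide)
  have e : lib3.getD 223 dfl = ⟨1, [], [0], 7⟩ := rfl
  rw [e] at h
  refine h (fun _ => 0) ⟨fun _ => Or.inr (by simp), fun a ha => by simp at ha,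
    fun x y hx => by simp at hx, fun x y _ => ?_⟩
  have : ∀ k < 3, (gt 7 0 0).testBit k = true := by decide
  exact this _ (G.three rfl _)

theorem glob4 {κ : α → ℕ} {col : ℕ → α} (G : Glob c κ col 4) : False := by
  have h := all_sound G (lib := lib4) (n := 43) (fun l hl => run4A l (by omega) hl) 42 (by decide)
  have e : lib4.getD 42 dfl = ⟨1, [], [0], 31⟩ := rfl
  rw [e] at h
  refine h (fun _ => 0) ⟨fun _ => Or.inr (by simp), fun a ha => by simp at ha,
    fun x y hx => by simp at hx, fun x y _ => ?_⟩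
  have : ∀ k < 5, (gt 31 0 0).testBit k = true := by decide
  exact this _ (G.lt _)

open Classical in
theorem good_of_three [Finite V] [Countable α] (hc : ∀ x y, c x y = c y x)
    (h3 : ∀ i j : α, ∃ l, l ≠ i ∧ l ≠ j) (hU : UsesAll c (fun _ => True)) [Nonempty α] :
    Good c := by
  obtain ⟨a⟩ := ‹Nonempty α›
  obtain ⟨b, hb, _⟩ := h3 a a
  obtain ⟨d, hd1, hd2⟩ := h3 a b
  have C : Cons c := cons hc hb.symm hd1.symm hd2.symm
  by_contra ng
  have : ¬ ∀ i j, i ≠ j → ¬ NoFix c (fun _ => True) i j := fun h => ng (C.self hU h)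
  simp only [not_forall, not_not] at this
  obtain ⟨i, j, hij, hN⟩ := this
  obtain ⟨l, li, lj⟩ := h3 i j
  by_cases h4 : ∃ m, m ≠ i ∧ m ≠ j ∧ m ≠ l
  · obtain ⟨m, mi, mj, ml⟩ := h4
    refine glob4 (c := c)
      (κ := fun a => if a = i then 0 else if a = j then 1 else if a = l then 2
        else if a = m then 3 else 4)
      (col := fun d => if d = 0 then i else if d = 1 then j else if d = 2 then l else m)
      ⟨⟨hc, fun a => ?_, le_rfl, fun d hd => ?_, fun a ha => ?_, fun h => absurd h (by decide)⟩,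
        by decide, hU, C, ng, by simpa using hN⟩
    · split_ifs <;> omega
    · have : d = 0 ∨ d = 1 ∨ d = 2 ∨ d = 3 := by omega
      rcases this with rfl | rfl | rfl | rfl <;> simp [hij.symm, li, lj, mi, mj, ml]
    · by_cases e1 : a = i
      · simp [e1]
      by_cases e2 : a = j
      · simp [e2, hij.symm]
      by_cases e3 : a = l
      · simp [e3, li, lj]
      by_cases e4 : a = m
      · simp [e4, mi, mj, ml]
      simp [e1, e2, e3, e4] at ha
  · refine glob3 (c := c) (κ := fun a => if a = i then 0 else if a = j then 1 else 2)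
      (col := fun d => if d = 0 then i else if d = 1 then j else l)
      ⟨⟨hc, fun a => ?_, by decide, fun d hd => ?_, fun a ha => ?_, fun _ a => ?_⟩,
        le_rfl, hU, C, ng, by simpa using hN⟩
    · split_ifs <;> omega
    · have : d = 0 ∨ d = 1 ∨ d = 2 := by omega
      rcases this with rfl | rfl | rfl <;> simp [hij.symm, li, lj]
    · by_cases e1 : a = i
      · simp [e1]
      by_cases e2 : a = j
      · simp [e2, hij.symm]
      have e3 : a = l := by
        by_contra e3; exact h4 ⟨a, e1, e2, e3⟩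
      simp [e3, li, lj]
    · split_ifs <;> omega

theorem fin_three {k : ℕ} (hk : 3 ≤ k) (i j : Fin k) : ∃ l, l ≠ i ∧ l ≠ j := by
  by_cases h0 : i.1 ≠ 0 ∧ j.1 ≠ 0
  · exact ⟨⟨0, by omega⟩, fun e => h0.1 (by rw [← e]), fun e => h0.2 (by rw [← e])⟩
  by_cases h1 : i.1 ≠ 1 ∧ j.1 ≠ 1
  · exact ⟨⟨1, by omega⟩, fun e => h1.1 (by rw [← e]), fun e => h1.2 (by rw [← e])⟩
  · refine ⟨⟨2, by omega⟩, fun e => ?_, fun e => ?_⟩
    · have : i.1 = 2 := by rw [← e]
      omega
    · have : j.1 = 2 := by rw [← e]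
      omega

end Pool.Agent.Lib.MP_ab18c1_co
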