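import Pool.Agent.Lib.MP_ab18c1_co.Bits

/-! Semantics of templates and the elementary refinements. -/

namespace Pool.Agent.Lib.MP_ab18c1_co

variable {V : Type}

/-- `K` is a symmetric table of colour codes below `5`. -/
structure KOk (K : V → V → Nat) : Prop where
  sym : ∀ x y, K x y = K y x
  lt : ∀ x y, K x y < 5

structure Sem (K : V → V → Nat) (t : Tm) (cell : V → Nat) : Prop where
  cov : ∀ x, cell x ∈ t.N ∨ cell x ∈ t.C
  ex : ∀ a ∈ t.N, ∃ x, cell x = a
  uq : ∀ x y, cell x ∈ t.N → cell y = cell x → y = x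
  col : ∀ x y, x ≠ y → (gt t.M (cell x) (cell y)).testBit (K x y) = true

structure Sat (K : V → V → Nat) (t : Tm) (cell : V → Nat) : Prop extends Sem K t cell where
  hn : t.n ≤ 32
  hN : ∀ a ∈ t.N, a < t.n
  hC : ∀ a ∈ t.C, a < t.n
  hd : ∀ a ∈ t.C, a ∉ t.N

variable {K : V → V → Nat} {t : Tm} {cell : V → Nat}

theorem Sat.lt (h : Sat K t cell) (x : V) : cell x < t.n := by
  rcases h.cov x with h1 | h1
  · exact h.hN _ h1
  · exact h.hC _ h1

theorem Sat.lt32 (h : Sat K t cell) (x : V) : cell x < 32 := lt_of_lt_of_le (h.lt x) h.hn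

open Classical in
/-- Move the vertices satisfying `Q` to the cell `m`. -/
noncomputable def mv (cell : V → Nat) (Q : V → Prop) (m : Nat) (x : V) : Nat :=
  if Q x then m else cell x

theorem mv_pos {Q : V → Prop} {m : Nat} {x : V} (h : Q x) : mv cell Q m x = m := by
  simp [mv, h]

theorem mv_neg {Q : V → Prop} {m : Nat} {x : V} (h : ¬ Q x) : mv cell Q m x = cell x := by
  simp [mv, h]

theorem mv_col (hK : KOk K) (h : Sat K t cell) {Q : V → Prop} {a : Nat} (hn : t.n < 32)
    (hQ : ∀ x, Q x → cell x = a) (x y : V) (hxy : x ≠ y) :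
    (gt (newM t.M a t.n) (mv cell Q t.n x) (mv cell Q t.n y)).testBit (K x y) = true := by
  have hc := h.col x y hxy
  by_cases hx : Q x <;> by_cases hy : Q y
  · rw [mv_pos hx, mv_pos hy]; rw [hQ x hx, hQ y hy] at hc
    exact newM_nn (hQ x hx ▸ h.lt32 x) hn (hK.lt x y) hc
  · rw [mv_pos hx, mv_neg hy]; rw [hQ x hx] at hc
    exact newM_no (h.lt32 y) (hK.lt x y) hc
  · rw [mv_neg hx, mv_pos hy]; rw [hQ y hy] at hc
    exact newM_on (h.lt32 x) (hK.lt x y) hc
  · rw [mv_neg hx, mv_neg hy]; exact newM_oo (hK.lt x y) hc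

theorem Sat.addC (hK : KOk K) (h : Sat K t cell) {Q : V → Prop} {a : Nat} (hn : t.n < 32)
    (ha : a ∉ t.N) (hQ : ∀ x, Q x → cell x = a) : Sat K (t.addC a) (mv cell Q t.n) where
  cov x := by
    by_cases hx : Q x
    · rw [mv_pos hx]; exact Or.inr (List.mem_cons_self ..)
    · rw [mv_neg hx]
      rcases h.cov x with h1 | h1
      · exact Or.inl h1
      · exact Or.inr (List.mem_cons_of_mem _ h1)
  ex b hb := by
    obtain ⟨x, hx⟩ := h.ex b hb
    refine ⟨x, ?_⟩
    rw [mv_neg]; exact hx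
    intro hq; exact ha (by rw [← hQ x hq, hx]; exact hb)
  uq x y hx hy := by
    have hx' : mv cell Q t.n x ∈ t.N := hx
    by_cases h1 : Q x
    · rw [mv_pos h1] at hx'; exact absurd (h.hN _ hx') (lt_irrefl _)
    · rw [mv_neg h1] at hx' hy
      by_cases h2 : Q y
      · rw [mv_pos h2] at hy; exact absurd (h.lt x) (by omega)
      · rw [mv_neg h2] at hy; exact h.uq x y hx' hy
  col := mv_col hK h hn hQ
  hn := hn
  hN b hb := Nat.lt_succ_of_lt (h.hN b hb)
  hC b hb := by
    rcases List.mem_cons.1 hb with rfl | hb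
    · exact Nat.lt_succ_self _
    · exact Nat.lt_succ_of_lt (h.hC b hb)
  hd b hb := by
    rcases List.mem_cons.1 hb with rfl | hb
    · intro h1; exact absurd (h.hN _ h1) (lt_irrefl _)
    · exact h.hd b hb

theorem Sat.addN (hK : KOk K) (h : Sat K t cell) {x0 : V} (hn : t.n < 32)
    (ha : cell x0 ∉ t.N) : Sat K (t.addN (cell x0)) (mv cell (· = x0) t.n) where
  cov x := by
    by_cases hx : x = x0
    · rw [mv_pos (Q := (· = x0)) hx]; exact Or.inl (List.mem_cons_self ..)
    · rw [mv_neg (Q := (· = x0)) hx]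
      rcases h.cov x with h1 | h1
      · exact Or.inl (List.mem_cons_of_mem _ h1)
      · exact Or.inr h1
  ex b hb0 := by
    rcases List.mem_cons.1 hb0 with rfl | hb
    · exact ⟨x0, mv_pos (Q := (· = x0)) rfl⟩
    · obtain ⟨x, hx⟩ := h.ex b hb
      refine ⟨x, ?_⟩
      rw [mv_neg (Q := (· = x0))]; exact hx
      intro hxx; exact ha (by rw [← hxx, hx]; exact hb)
  uq x y hx hy := by
    have hx' : mv cell (· = x0) t.n x ∈ t.n :: t.N := hx
    by_cases h1 : x = x0 <;> by_cases h2 : y = x0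
    · rw [h1, h2]
    · rw [mv_pos (Q := (· = x0)) h1, mv_neg (Q := (· = x0)) h2] at hy
      exact absurd (h.lt y) (by omega)
    · rw [mv_neg (Q := (· = x0)) h1, mv_pos (Q := (· = x0)) h2] at hy
      exact absurd (h.lt x) (by omega)
    · rw [mv_neg (Q := (· = x0)) h1] at hx' hy
      rw [mv_neg (Q := (· = x0)) h2] at hy
      rcases List.mem_cons.1 hx' with h3 | h3
      · exact absurd (h.lt x) (by omega)
      · exact h.uq x y h3 hy
  col := mv_col hK h hn (fun x hx => by rw [hx])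
  hn := hn
  hN b hb := by
    rcases List.mem_cons.1 hb with rfl | hb
    · exact Nat.lt_succ_self _
    · exact Nat.lt_succ_of_lt (h.hN b hb)
  hC b hb := Nat.lt_succ_of_lt (h.hC b hb)
  hd b hb := by
    intro h1
    rcases List.mem_cons.1 h1 with h2 | h2
    · have := h.hC b hb; omega
    · exact h.hd b hb h2

theorem Sat.res (hK : KOk K) (h : Sat K t cell) {a b f : Nat} (hf : f < 32) (ha : a < 32)
    (hb : b < 32) (hab : ∀ x y, x ≠ y → cell x = a → cell y = b → f.testBit (K x y) = false) :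
    Sat K (t.res a b f) cell where
  cov := h.cov
  ex := h.ex
  uq := h.uq
  col x y hxy := by
    refine resM_bit hf ha hb (h.lt32 y) (hK.lt x y) (h.col x y hxy) ?_
    rintro (⟨h1, h2⟩ | ⟨h1, h2⟩)
    · exact hab x y hxy h1 h2
    · rw [hK.sym]; exact hab y x hxy.symm h2 h1
  hn := h.hn
  hN := h.hN
  hC := h.hC
  hd := h.hd

theorem Sat.filt (h : Sat K t cell) {P : Nat → Bool} (hP : ∀ x, cell x ∈ t.C → P (cell x) = true) :
    Sat K ⟨t.n, t.N, t.C.filter P, t.M⟩ cell where
  cov x := by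
    rcases h.cov x with h1 | h1
    · exact Or.inl h1
    · exact Or.inr (List.mem_filter.2 ⟨h1, hP x h1⟩)
  ex := h.ex
  uq := h.uq
  col := h.col
  hn := h.hn
  hN := h.hN
  hC a ha := h.hC a (List.mem_filter.1 ha).1
  hd a ha := h.hd a (List.mem_filter.1 ha).1

theorem Sat.kill (h : Sat K t cell) {a : Nat} (ha : ∀ x, cell x ≠ a) : Sat K (t.kill a) cell :=
  h.filt (fun x _ => by rw [(beq_false _ _).2 (ha x)]; rfl)

theorem Sat.norm (h : Sat K t cell) : Sat K t.norm cell := by
  refine h.filt (fun x hx => ?_)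
  rw [List.all_eq_true]
  intro p hp
  obtain ⟨y, rfl⟩ := h.ex p hp
  have hxy : x ≠ y := by rintro rfl; exact h.hd _ hx hp
  rw [ne_zero_of_bit (h.col x y hxy)]; rfl

/-- The continuation `k` only succeeds on unsatisfiable templates. -/
def Refu (K : V → V → Nat) (k : Tm → List Nat → Option (List Nat)) : Prop :=
  ∀ t p r cell, k t p = some r → Sat K t cell → False

/-- The vertices with label `l` are exactly those of the named cell `s`
(there is none when `s = 32`). -/
def Tag (t : Tm) (cell ρ : V → Nat) (l s : Nat) : Prop :=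
  (∀ x, ρ x = l ↔ cell x = s) ∧ (s ∈ t.N ∨ s = 32)

theorem Tag.mv {ρ : V → Nat} {l s a : Nat} {t' : Tm} (h : Sat K t cell) (hT : Tag t cell ρ l s)
    {Q : V → Prop} (hn : t.n < 32) (ha : a ∉ t.N) (hQ : ∀ x, Q x → cell x = a)
    (ht : ∀ b ∈ t.N, b ∈ t'.N) : Tag t' (mv cell Q t.n) ρ l s := by
  refine ⟨fun x => ?_, hT.2.imp_left (ht s)⟩
  by_cases hx : Q x
  · rw [mv_pos hx, hT.1, hQ x hx]
    have h32 := h.lt32 x
    rw [hQ x hx] at h32
    rcases hT.2 with h1 | h1
    · have := h.hN s h1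
      constructor
      · rintro rfl; exact absurd h1 ha
      · omega
    · omega
  · rw [mv_neg hx]; exact hT.1 x

theorem withN_some {a : Nat} {k : Tm → Nat → List Nat → Option (List Nat)} {p r : List Nat}
    (h : withN t a k p = some r) : t.n < 32 ∧ k (t.addN a) t.n p = some r := by
  unfold withN at h
  cases hb : Nat.blt t.n 32
  · rw [hb] at h; simp at h
  · rw [hb] at h; exact ⟨(blt_iff _ _).1 hb, h⟩

/-- `(t', cell')` refines `(t, cell)` by naming the vertex `x0`, whose cell is now `s`. -/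
structure Named (K : V → V → Nat) (t : Tm) (cell : V → Nat) (x0 : V) (t' : Tm) (cell' : V → Nat)
    (s : Nat) : Prop where
  sat : Sat K t' cell'
  eq : cell' x0 = s
  mem : s ∈ t'.N
  oth : ∀ y, y ≠ x0 → cell' y = cell y
  tag : ∀ (ρ : V → Nat) l q, Tag t cell ρ l q → Tag t' cell' ρ l q
  cl : t'.C = t.C
  sub : ∀ b ∈ t.N, b ∈ t'.N

theorem named_self (h : Sat K t cell) {x0 : V} (hx : cell x0 ∈ t.N) :
    Named K t cell x0 t cell (cell x0) :=
  ⟨h, rfl, hx, fun _ _ => rfl, fun _ _ _ h => h, rfl, fun _ h => h⟩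

theorem named_add (hK : KOk K) (h : Sat K t cell) {x0 : V} (hn : t.n < 32) (hx : cell x0 ∉ t.N) :
    Named K t cell x0 (t.addN (cell x0)) (mv cell (· = x0) t.n) t.n :=
  ⟨h.addN hK hn hx, mv_pos (Q := (· = x0)) rfl, List.mem_cons_self ..,
    fun _ hy => mv_neg (Q := (· = x0)) hy,
    fun _ _ _ hT => hT.mv h hn hx (fun x hx => by rw [hx]) (fun _ hb => List.mem_cons_of_mem _ hb),
    rfl, fun _ hb => List.mem_cons_of_mem _ hb⟩

theorem nameIt_some (hK : KOk K) (h : Sat K t cell) {k : Tm → Nat → List Nat → Option (List Nat)}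
    {p r : List Nat} {x0 : V} (hk : nameIt t (cell x0) k p = some r) :
    ∃ t' cell' s, Named K t cell x0 t' cell' s ∧ k t' s p = some r := by
  unfold nameIt at hk
  cases hb : mem (cell x0) t.C
  · rw [hb] at hk
    have : cell x0 ∈ t.N := (h.cov x0).resolve_right ((mem_false _ _).1 hb)
    exact ⟨t, cell, _, named_self h this, hk⟩
  · rw [hb] at hk
    obtain ⟨h1, h2⟩ := withN_some hk
    exact ⟨_, _, _, named_add hK h h1 (h.hd _ ((mem_iff _ _).1 hb)), h2⟩

theorem choose_some (hK : KOk K) (h : Sat K t cell) {k : Tm → Nat → List Nat → Option (List Nat)}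
    {rem : Nat} {p r : List Nat} (hk : choose rem k t p = some r) (x0 : V) (hx : cell x0 ≠ rem) :
    ∃ t' cell' s p' r', Named K t cell x0 t' cell' s ∧ k t' s p' = some r' := by
  obtain ⟨q, h1, h2⟩ := bnd_some hk
  rcases h.cov x0 with h3 | h3
  · obtain ⟨p', r', h4⟩ := allP_some h1 h3
    rw [(beq_false _ _).2 hx] at h4
    exact ⟨t, cell, _, p', r', named_self h h3, h4⟩
  · obtain ⟨p', r', h4⟩ := allP_some h2 h3
    obtain ⟨h5, h6⟩ := withN_some h4
    exact ⟨_, _, _, p', r', named_add hK h h5 (h.hd _ h3), h6⟩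

theorem chooseC_some (hK : KOk K) (h : Sat K t cell) {k : Tm → List Nat → Option (List Nat)}
    {p r : List Nat} (hk : chooseC k t p = some r) (x0 : V) :
    ∃ t' cell' s p' r', Named K t cell x0 t' cell' s ∧ k t' p' = some r' := by
  obtain ⟨q, h1, h2⟩ := bnd_some hk
  rcases h.cov x0 with h3 | h3
  · exact ⟨t, cell, _, p, q, named_self h h3, h1⟩
  · obtain ⟨p', r', h4⟩ := allP_some h2 h3
    obtain ⟨h5, h6⟩ := withN_some h4
    exact ⟨_, _, _, p', r', named_add hK h h5 (h.hd _ h3), h6⟩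

end Pool.Agent.Lib.MP_ab18c1_co
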