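import Pool.Agent.Lib.MP_ab18c1_co.Sat

/-! Soundness of the enumeration of separations. -/

namespace Pool.Agent.Lib.MP_ab18c1_co

variable {V : Type} {K : V → V → Nat} {t : Tm} {cell ρ : V → Nat} {d i TY : Nat}

/-- Labels: `0` new side, `1` old side, `2` and `3` the glued vertices, `4` removed. -/
structure SH (K : V → V → Nat) (ρ : V → Nat) (d i TY : Nat) : Prop where
  le : ∀ x, ρ x ≤ 4
  xy : ∀ x y, ρ x = 0 → ρ y = 1 → K x y = d
  p1 : ∀ x y, ρ x = 2 → ρ y = 2 → x = y
  q1 : ∀ x y, ρ x = 3 → ρ y = 3 → x = y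
  pq : ∀ x y, ρ x = 2 → ρ y = 3 → K x y = i
  ex0 : ∃ x, ρ x = 0
  ex1 : ∃ x, ρ x = 1
  ty : ∀ x, ρ x = 0 → ∃ a b, a < 5 ∧ b < 5 ∧ TY.testBit (8 * a + b) = true ∧
    (∀ s, ρ s = 2 → K x s = a) ∧ (∀ s, ρ s = 3 → K x s = b)

def Msk (t : Tm) (cell ρ : V → Nat) (X l : Nat) : Prop :=
  ∀ q, X.testBit q = true → ∃ b, q = 8 * b ∧ b ∈ t.N ∧ ∀ x, cell x = b → ρ x = l

theorem okL_X (h : Sat K t cell) (hs : SH K ρ d i TY) (hd : d < 5) {Y : Nat}
    (hY : Msk t cell ρ Y 1) {x : V} (hx : ρ x = 0) : okL t.M d (cell x) Y = true := by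
  refine okL_of hd (fun q hq => ?_)
  obtain ⟨b, rfl, hb, h1⟩ := hY q hq
  obtain ⟨y, rfl⟩ := h.ex b hb
  have hy := h1 y rfl
  have hxy : x ≠ y := by rintro rfl; omega
  exact ⟨_, rfl, hs.xy x y hx hy ▸ h.col x y hxy⟩

theorem okL_Y (hK : KOk K) (h : Sat K t cell) (hs : SH K ρ d i TY) (hd : d < 5) {X : Nat}
    (hX : Msk t cell ρ X 0) {x : V} (hx : ρ x = 1) : okL t.M d (cell x) X = true := by
  refine okL_of hd (fun q hq => ?_)
  obtain ⟨b, rfl, hb, h1⟩ := hX q hq
  obtain ⟨y, rfl⟩ := h.ex b hb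
  have hy := h1 y rfl
  have hxy : x ≠ y := by rintro rfl; omega
  have e : K x y = d := by rw [hK.sym]; exact hs.xy y x hy hx
  exact ⟨_, rfl, e ▸ h.col x y hxy⟩

theorem mk_lt (M x s : Nat) : mk M x s < 32 := by
  unfold mk; cases Nat.beq s 32
  · exact gt_lt _ _ _
  · exact (by decide : 31 < 32)

theorem mk_bit (h : Sat K t cell) {l s a : Nat} (hT : Tag t cell ρ l s) {x : V} (hx : ρ x ≠ l)
    (ha : a < 5) (h1 : ∀ y, ρ y = l → K x y = a) : (mk t.M (cell x) s).testBit a = true := by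
  unfold mk
  cases hb : Nat.beq s 32
  · have hs : s ∈ t.N := hT.2.resolve_right ((beq_false _ _).1 hb)
    obtain ⟨y, rfl⟩ := h.ex s hs
    have hy : ρ y = l := (hT.1 y).2 rfl
    have hxy : x ≠ y := by rintro rfl; exact hx hy
    exact h1 y hy ▸ h.col x y hxy
  · exact bit31 a ha

theorem tyok_X (h : Sat K t cell) (hs : SH K ρ d i TY) {s1 s2 : Nat} (h1 : Tag t cell ρ 2 s1)
    (h2 : Tag t cell ρ 3 s2) {x : V} (hx : ρ x = 0) : tyok t.M TY s1 s2 (cell x) = true := by
  obtain ⟨a, b, ha, hb, e, e1, e2⟩ := hs.ty x hx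
  unfold tyok
  rw [land_ne (sp_mul (mk_lt _ _ _) (mk_lt _ _ _) ha hb (mk_bit h h1 (by omega) ha e1)
    (mk_bit h h2 (by omega) hb e2)) e]
  rfl

theorem Msk.add {X l : Nat} (hX : Msk t cell ρ X l) (h : Sat K t cell) {x : V}
    (hx : cell x ∈ t.N) (hl : ρ x = l) : Msk t cell ρ (Nat.lor X (bitc (cell x))) l := by
  intro q hq
  have e : Nat.lor X (bitc (cell x)) = X ||| bitc (cell x) := rfl
  rw [e, Nat.testBit_or, bitc_bit] at hq
  simp only [Bool.or_eq_true, decide_eq_true_eq] at hq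
  rcases hq with hq | hq
  · exact hX q hq
  · exact ⟨_, hq.symm, hx, fun y hy => by rw [h.uq x y hx hy]; exact hl⟩

theorem lor_bit_l {X Z q : Nat} (h : X.testBit q = true) : (Nat.lor X Z).testBit q = true := by
  have e : Nat.lor X Z = X ||| Z := rfl
  rw [e, Nat.testBit_or, h]; rfl

theorem lor_bit_r {X Z q : Nat} (h : Z.testBit q = true) : (Nat.lor X Z).testBit q = true := by
  have e : Nat.lor X Z = X ||| Z := rfl
  rw [e, Nat.testBit_or, h]; simp

theorem dfs_sound (hK : KOk K) (h : Sat K t cell) (hs : SH K ρ d i TY) (hd : d < 5) {s1 s2 : Nat}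
    (h1 : Tag t cell ρ 2 s1) (h2 : Tag t cell ρ 3 s2)
    {k : Nat → Nat → List Nat → Option (List Nat)}
    (hk : ∀ X Y p r, Msk t cell ρ X 0 → Msk t cell ρ Y 1 →
      (∀ x, cell x ∈ t.N → ρ x = 0 → X.testBit (8 * cell x) = true) →
      (∀ x, cell x ∈ t.N → ρ x = 1 → Y.testBit (8 * cell x) = true) → k X Y p = some r → False)
    (l : List Nat) : ∀ X Y p r, (∀ a ∈ l, ∃ x, cell x = a ∧ a ∈ t.N ∧ (ρ x = 0 ∨ ρ x = 1)) →
      Msk t cell ρ X 0 → Msk t cell ρ Y 1 →
      (∀ x, cell x ∈ t.N → ρ x = 0 → cell x ∈ l ∨ X.testBit (8 * cell x) = true) →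
      (∀ x, cell x ∈ t.N → ρ x = 1 → cell x ∈ l ∨ Y.testBit (8 * cell x) = true) →
      dfs t.M d TY s1 s2 k l X Y p = some r → False := by
  induction l with
  | nil =>
    intro X Y p r _ hX hY cX cY hr
    exact hk X Y p r hX hY (fun x a b => (cX x a b).resolve_left (by simp))
      (fun x a b => (cY x a b).resolve_left (by simp)) hr
  | cons a l ih =>
    intro X Y p r hl hX hY cX cY hr
    obtain ⟨q, e1, e2⟩ := bnd_some (show bnd _ _ = some r from hr)
    obtain ⟨x, rfl, hxN, hx⟩ := hl a (List.mem_cons_self ..)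
    have hl' := fun b hb => hl b (List.mem_cons_of_mem _ hb)
    rcases hx with hx | hx
    · rw [okL_X h hs hd hY hx, tyok_X h hs h1 h2 hx] at e1
      refine ih _ _ p q hl' (hX.add h hxN hx) hY (fun y hy hy0 => ?_) (fun y hy hy1 => ?_) e1
      · rcases cX y hy hy0 with h3 | h3
        · rcases List.mem_cons.1 h3 with h4 | h4
          · right; rw [h4]; exact lor_bit_r (by rw [bitc_bit]; simp)
          · exact Or.inl h4
        · exact Or.inr (lor_bit_l h3)
      · rcases cY y hy hy1 with h3 | h3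
        · rcases List.mem_cons.1 h3 with h4 | h4
          · rw [h.uq x y hxN h4] at hy1; omega
          · exact Or.inl h4
        · exact Or.inr h3
    · simp only [okL_Y hK h hs hd hX hx, cond_true] at e2
      refine ih _ _ q r hl' hX (hY.add h hxN hx) (fun y hy hy0 => ?_) (fun y hy hy1 => ?_) e2
      · rcases cX y hy hy0 with h3 | h3
        · rcases List.mem_cons.1 h3 with h4 | h4
          · rw [h.uq x y hxN h4] at hy0; omega
          · exact Or.inl h4
        · exact Or.inr h3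
      · rcases cY y hy hy1 with h3 | h3
        · rcases List.mem_cons.1 h3 with h4 | h4
          · right; rw [h4]; exact lor_bit_r (by rw [bitc_bit]; simp)
          · exact Or.inl h4
        · exact Or.inr (lor_bit_l h3)

/-- The invariant of the treatment of the class cells. -/
structure CI (K : V → V → Nat) (ρ : V → Nat) (s1 s2 rem X Y : Nat) (t : Tm) (cell : V → Nat)
    (l LX LY : List Nat) : Prop where
  sat : Sat K t cell
  t1 : Tag t cell ρ 2 s1
  t2 : Tag t cell ρ 3 s2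
  t3 : Tag t cell ρ 4 rem
  mX : Msk t cell ρ X 0
  mY : Msk t cell ρ Y 1
  cX : ∀ x, cell x ∈ t.N → ρ x = 0 → X.testBit (8 * cell x) = true
  cY : ∀ x, cell x ∈ t.N → ρ x = 1 → Y.testBit (8 * cell x) = true
  hl : ∀ b ∈ l, b < t.n ∧ b ∉ t.N
  hLX : ∀ b ∈ LX, b < t.n ∧ ∀ x, cell x = b → ρ x = 0
  hLY : ∀ b ∈ LY, b < t.n ∧ ∀ x, cell x = b → ρ x = 1
  cov : ∀ x, cell x ∉ t.N → cell x ∈ l ∨ cell x ∈ LX ∨ cell x ∈ LY

theorem Tag.ne (h : Sat K t cell) {l s : Nat} (hT : Tag t cell ρ l s) {x : V}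
    (hx : cell x ∉ t.N) : ρ x ≠ l := by
  intro e
  have e2 := (hT.1 x).1 e
  rcases hT.2 with h1 | h1
  · exact hx (e2 ▸ h1)
  · have := h.lt32 x; omega

theorem CI.lab {s1 s2 rem X Y : Nat} {l LX LY : List Nat} (hs : SH K ρ d i TY)
    (c : CI K ρ s1 s2 rem X Y t cell l LX LY) {x : V} (hx : cell x ∉ t.N) :
    ρ x = 0 ∨ ρ x = 1 := by
  have := c.t1.ne c.sat hx
  have := c.t2.ne c.sat hx
  have := c.t3.ne c.sat hx
  have := hs.le x
  omega

theorem cls_sound (hK : KOk K) (hs : SH K ρ d i TY) (hd : d < 5) {s1 s2 rem X Y : Nat}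
    {k : Tm → List Nat → List Nat → List Nat → Option (List Nat)}
    (hk : ∀ t cell LX LY p r, CI K ρ s1 s2 rem X Y t cell [] LX LY → k t LX LY p = some r → False)
    (l : List Nat) : ∀ t cell LX LY p r, CI K ρ s1 s2 rem X Y t cell l LX LY →
      cls d TY s1 s2 X Y k l t LX LY p = some r → False := by
  induction l with
  | nil => intro t cell LX LY p r c hr; exact hk t cell LX LY p r c hr
  | cons b l ih =>
    intro t cell LX LY p r c hr
    have hb := c.hl b (List.mem_cons_self ..)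
    have hl' := fun a ha => c.hl a (List.mem_cons_of_mem _ ha)
    have noX : (okL t.M d b Y && tyok t.M TY s1 s2 b) = false → ∀ x, cell x = b → ρ x ≠ 0 := by
      rintro e x rfl hx
      rw [okL_X c.sat hs hd c.mY hx, tyok_X c.sat hs c.t1 c.t2 hx] at e
      exact absurd e (by simp)
    have noY : okL t.M d b X = false → ∀ x, cell x = b → ρ x ≠ 1 := by
      rintro e x rfl hx
      rw [okL_Y hK c.sat hs hd c.mX hx] at e
      exact absurd e (by simp)
    have lab : ∀ x, cell x = b → ρ x = 0 ∨ ρ x = 1 := fun x hx => c.lab hs (hx ▸ hb.2)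
    unfold cls at hr
    cases e1 : (okL t.M d b Y && tyok t.M TY s1 s2 b) <;> cases e2 : okL t.M d b X <;>
      rw [e1, e2] at hr <;> simp only [cond_true, cond_false] at hr
    · have hne : ∀ x, cell x ≠ b := fun x hx => by
        rcases lab x hx with h1 | h1
        · exact noX e1 x hx h1
        · exact noY e2 x hx h1
      refine ih _ cell LX LY p r ⟨c.sat.kill hne, c.t1, c.t2, c.t3, c.mX, c.mY, c.cX, c.cY, hl',
        c.hLX, c.hLY, fun x hx => ?_⟩ hr
      rcases c.cov x hx with h1 | h1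
      · exact Or.inl ((List.mem_cons.1 h1).resolve_left (hne x))
      · exact Or.inr h1
    · refine ih t cell LX (b :: LY) p r ⟨c.sat, c.t1, c.t2, c.t3, c.mX, c.mY, c.cX, c.cY, hl',
        c.hLX, fun a ha => ?_, fun x hx => ?_⟩ hr
      · rcases List.mem_cons.1 ha with rfl | ha
        · exact ⟨hb.1, fun x hx => (lab x hx).resolve_left (noX e1 x hx)⟩
        · exact c.hLY a ha
      · rcases c.cov x hx with h1 | h1 | h1
        · rcases List.mem_cons.1 h1 with h2 | h2
          · exact Or.inr (Or.inr (h2 ▸ List.mem_cons_self ..))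
          · exact Or.inl h2
        · exact Or.inr (Or.inl h1)
        · exact Or.inr (Or.inr (List.mem_cons_of_mem _ h1))
    · refine ih t cell (b :: LX) LY p r ⟨c.sat, c.t1, c.t2, c.t3, c.mX, c.mY, c.cX, c.cY, hl',
        fun a ha => ?_, c.hLY, fun x hx => ?_⟩ hr
      · rcases List.mem_cons.1 ha with rfl | ha
        · exact ⟨hb.1, fun x hx => (lab x hx).resolve_right (noY e2 x hx)⟩
        · exact c.hLX a ha
      · rcases c.cov x hx with h1 | h1 | h1
        · rcases List.mem_cons.1 h1 with h2 | h2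
          · exact Or.inr (Or.inl (h2 ▸ List.mem_cons_self ..))
          · exact Or.inl h2
        · exact Or.inr (Or.inl (List.mem_cons_of_mem _ h1))
        · exact Or.inr (Or.inr h1)
    · cases e3 : Nat.blt t.n 32
      · rw [e3] at hr; simp at hr
      rw [e3] at hr
      have hn := (blt_iff _ _).1 e3
      have hQ : ∀ x, (cell x = b ∧ ρ x = 1) → cell x = b := fun x hx => hx.1
      have old : ∀ x a, a < t.n → mv cell (fun x => cell x = b ∧ ρ x = 1) t.n x = a →
          ¬ (cell x = b ∧ ρ x = 1) ∧ cell x = a := by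
        intro x a ha e
        by_cases hq : cell x = b ∧ ρ x = 1
        · rw [mv_pos (Q := fun x => cell x = b ∧ ρ x = 1) hq] at e; omega
        · rw [mv_neg (Q := fun x => cell x = b ∧ ρ x = 1) hq] at e; exact ⟨hq, e⟩
      have msk : ∀ Z z, Msk t cell ρ Z z →
          Msk (t.addC b) (mv cell (fun x => cell x = b ∧ ρ x = 1) t.n) ρ Z z := by
        intro Z z hZ q hq
        obtain ⟨a, e, ha, h1⟩ := hZ q hq
        exact ⟨a, e, ha, fun x hx => h1 x (old x a (c.sat.hN a ha) hx).2⟩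
      refine ih (t.addC b) (mv cell (fun x => cell x = b ∧ ρ x = 1) t.n) _ _ p r
        ⟨c.sat.addC hK hn hb.2 hQ, c.t1.mv c.sat hn hb.2 hQ (fun _ h => h),
        c.t2.mv c.sat hn hb.2 hQ (fun _ h => h), c.t3.mv c.sat hn hb.2 hQ (fun _ h => h),
        msk _ _ c.mX, msk _ _ c.mY, fun x hx h0 => ?_, fun x hx h0 => ?_,
        fun a ha => ⟨Nat.lt_succ_of_lt (hl' a ha).1, (hl' a ha).2⟩,
        fun a ha => ?_, fun a ha => ?_, fun x hx => ?_⟩ hr
      · have e := (old x _ (c.sat.hN _ hx) rfl).2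
        rw [← e]; exact c.cX x (e ▸ hx) h0
      · have e := (old x _ (c.sat.hN _ hx) rfl).2
        rw [← e]; exact c.cY x (e ▸ hx) h0
      · rcases List.mem_cons.1 ha with rfl | ha
        · refine ⟨Nat.lt_succ_of_lt hb.1, fun x hx => ?_⟩
          obtain ⟨h1, h2⟩ := old x _ hb.1 hx
          exact (lab x h2).resolve_right (fun h3 => h1 ⟨h2, h3⟩)
        · exact ⟨Nat.lt_succ_of_lt (c.hLX a ha).1,
            fun x hx => (c.hLX a ha).2 x (old x _ (c.hLX a ha).1 hx).2⟩
      · rcases List.mem_cons.1 ha with rfl | ha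
        · refine ⟨Nat.lt_succ_self _, fun x hx => ?_⟩
          by_cases hq : cell x = b ∧ ρ x = 1
          · exact hq.2
          · rw [mv_neg (Q := fun x => cell x = b ∧ ρ x = 1) hq] at hx
            have := c.sat.lt x; omega
        · exact ⟨Nat.lt_succ_of_lt (c.hLY a ha).1,
            fun x hx => (c.hLY a ha).2 x (old x _ (c.hLY a ha).1 hx).2⟩
      · by_cases hq : cell x = b ∧ ρ x = 1
        · rw [mv_pos (Q := fun x => cell x = b ∧ ρ x = 1) hq]
          exact Or.inr (Or.inr (List.mem_cons_self ..))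
        · rw [mv_neg (Q := fun x => cell x = b ∧ ρ x = 1) hq] at hx ⊢
          rcases c.cov x hx with h1 | h1 | h1
          · rcases List.mem_cons.1 h1 with h2 | h2
            · exact Or.inr (Or.inl (h2 ▸ List.mem_cons_self ..))
            · exact Or.inl h2
          · exact Or.inr (Or.inl (List.mem_cons_of_mem _ h1))
          · exact Or.inr (Or.inr (List.mem_cons_of_mem _ h1))

theorem resRow_sound (hK : KOk K) (hs : SH K ρ d i TY) (hd : d < 5) {a : Nat} (ha : a < 32)
    (h0 : ∀ x, cell x = a → ρ x = 0) (l : List Nat) : ∀ t, Sat K t cell →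
      (∀ b ∈ l, b < 32 ∧ ∀ x, cell x = b → ρ x = 1) →
      Sat K (resRow (only d) a l t) cell ∧ (resRow (only d) a l t).N = t.N := by
  induction l with
  | nil => intro t h _; exact ⟨h, rfl⟩
  | cons b l ih =>
    intro t h hl
    have hb := hl b (List.mem_cons_self ..)
    exact ih (t.res a b (only d)) (h.res hK (only_lt d hd) ha hb.1 (fun x y _ hx hy => by
      rw [hs.xy x y (h0 x hx) (hb.2 y hy)]; exact only_bit d hd))
      (fun b hb => hl b (List.mem_cons_of_mem _ hb))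

theorem resAll_sound (hK : KOk K) (hs : SH K ρ d i TY) (hd : d < 5) {LY : List Nat}
    (hY : ∀ b ∈ LY, b < 32 ∧ ∀ x, cell x = b → ρ x = 1) (l : List Nat) : ∀ t, Sat K t cell →
      (∀ b ∈ l, b < 32 ∧ ∀ x, cell x = b → ρ x = 0) →
      Sat K (resAll (only d) LY l t) cell ∧ (resAll (only d) LY l t).N = t.N := by
  induction l with
  | nil => intro t h _; exact ⟨h, rfl⟩
  | cons a l ih =>
    intro t h hl
    have ha := hl a (List.mem_cons_self ..)
    obtain ⟨h1, h2⟩ := resRow_sound hK hs hd ha.1 ha.2 LY t h hY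
    obtain ⟨h3, h4⟩ := ih _ h1 (fun b hb => hl b (List.mem_cons_of_mem _ hb))
    exact ⟨h3, h4.trans h2⟩

theorem witY_sound (hK : KOk K) (hs : SH K ρ d i TY) (hd : d < 5)
    {k : Tm → List Nat → Option (List Nat)} (hk : Refu K k) {X Y : Nat} {CY p r : List Nat}
    (h : Sat K t cell) (hX : Msk t cell ρ X 0)
    (hY : Y = 0 → ∃ y, ρ y = 1 ∧ cell y ∈ CY ∧ cell y ∉ t.N)
    (hr : witY d k Y CY t X p = some r) : False := by
  unfold witY at hr
  cases e : Nat.beq Y 0 <;> rw [e] at hr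
  · exact hk t p r cell hr h
  · obtain ⟨y, h1, h2, h3⟩ := hY ((beq_iff _ _).1 e)
    obtain ⟨p', r', h4⟩ := allP_some hr h2
    simp only [okL_Y hK h hs hd hX h1, cond_true] at h4
    obtain ⟨h5, h6⟩ := withN_some h4
    exact hk _ p' r' _ h6 (h.addN hK h5 h3)

theorem wit_sound (hK : KOk K) (hs : SH K ρ d i TY) (hd : d < 5)
    {k : Tm → List Nat → Option (List Nat)} (hk : Refu K k) {s1 s2 rem X Y : Nat}
    {CX CY p r : List Nat} (c : CI K ρ s1 s2 rem X Y t cell [] CX CY)
    (hr : wit d k X Y t CX CY p = some r) : False := by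
  unfold wit at hr
  have flt : ∀ Z z L, Msk t cell ρ Z z → (∀ b ∈ L, b < t.n ∧ ∀ x, cell x = b → ρ x = z) →
      ∀ b ∈ t.N.filter (fun a => bt Z (Nat.mul 8 a)) ++ L, b < 32 ∧ ∀ x, cell x = b → ρ x = z := by
    intro Z z L hZ hL b hb
    have := c.sat.hn
    rcases List.mem_append.1 hb with h1 | h1
    · obtain ⟨h2, h3⟩ := List.mem_filter.1 h1
      rw [bt_eq] at h3
      obtain ⟨b', e, _, h4⟩ := hZ _ h3
      have e' : 8 * b = 8 * b' := e
      have e'' : b = b' := by omega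
      have := c.sat.hN b h2
      exact ⟨by omega, e'' ▸ h4⟩
    · have := (hL b h1).1
      exact ⟨by omega, (hL b h1).2⟩
  obtain ⟨h1, hN⟩ := resAll_sound hK hs hd (flt Y 1 CY c.mY c.hLY) _ t c.sat
    (flt X 0 CX c.mX c.hLX)
  generalize resAll (only d) _ _ t = t1 at hr h1 hN
  have hY : Y = 0 → ∃ y, ρ y = 1 ∧ cell y ∈ CY ∧ cell y ∉ t1.N := by
    intro e
    obtain ⟨y, hy⟩ := hs.ex1
    have h2 : cell y ∉ t.N := fun h3 => by
      have := c.cY y h3 hy
      rw [e] at this; simp at this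
    refine ⟨y, hy, ?_, hN ▸ h2⟩
    rcases c.cov y h2 with h3 | h3 | h3
    · simp at h3
    · have := (c.hLX _ h3).2 y rfl; omega
    · exact h3
  unfold witX at hr
  cases e : Nat.beq X 0 <;> rw [e] at hr
  · refine witY_sound hK hs hd hk h1 (fun q hq => ?_) hY hr
    rw [hN]; exact c.mX q hq
  · obtain ⟨x, hx⟩ := hs.ex0
    have h2 : cell x ∉ t.N := fun h3 => by
      have := c.cX x h3 hx
      rw [(beq_iff _ _).1 e] at this; simp at this
    have h3 : cell x ∈ CX := by
      rcases c.cov x h2 with h3 | h3 | h3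
      · simp at h3
      · exact h3
      · have := (c.hLY _ h3).2 x rfl; omega
    obtain ⟨p', r', h4⟩ := allP_some hr h3
    obtain ⟨h5, h6⟩ := withN_some h4
    have nm := named_add hK h1 h5 (show cell x ∉ t1.N from hN ▸ h2)
    refine witY_sound hK hs hd hk nm.sat (fun q hq => ?_) (fun e => ?_) h6
    · rw [bitc_bit] at hq
      refine ⟨t1.n, (of_decide_eq_true hq).symm, nm.mem, fun y hy => ?_⟩
      rw [nm.sat.uq x y (by rw [nm.eq]; exact nm.mem) (hy.trans nm.eq.symm)]; exact hx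
    · obtain ⟨y, hy1, hy2, hy3⟩ := hY e
      have hyx : y ≠ x := by rintro rfl; omega
      refine ⟨y, hy1, by rw [nm.oth y hyx]; exact hy2, ?_⟩
      rw [nm.oth y hyx]
      intro h7
      rcases List.mem_cons.1 h7 with h8 | h8
      · have := h1.lt y; omega
      · exact hy3 h8

theorem sep2_sound (hK : KOk K) (hs : SH K ρ d i TY) (hd : d < 5)
    {k : Tm → List Nat → Option (List Nat)} (hk : Refu K k) {s1 s2 rem : Nat} {p r : List Nat}
    (h : Sat K t cell) (h1 : Tag t cell ρ 2 s1) (h2 : Tag t cell ρ 3 s2)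
    (h3 : Tag t cell ρ 4 rem) (hr : sep2 d TY rem k t s1 s2 p = some r) : False := by
  unfold sep2 at hr
  have hin : ∀ x, cell x ∈ t.N → ρ x ≤ 1 →
      cell x ∈ t.N.filter (fun a => !(Nat.beq a s1 || Nat.beq a s2 || Nat.beq a rem)) := by
    intro x hx h0
    refine List.mem_filter.2 ⟨hx, ?_⟩
    rw [(beq_false _ _).2 (fun e => by have := (h1.1 x).2 e; omega),
      (beq_false _ _).2 (fun e => by have := (h2.1 x).2 e; omega),
      (beq_false _ _).2 (fun e => by have := (h3.1 x).2 e; omega)]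
    rfl
  refine dfs_sound hK h hs hd h1 h2 (fun X Y p r mX mY cX cY hr => ?_) _ 0 0 p r
    (fun a ha => ?_) (fun q hq => by simp at hq) (fun q hq => by simp at hq)
    (fun x hx h0 => Or.inl (hin x hx (by omega))) (fun x hx h0 => Or.inl (hin x hx (by omega))) hr
  · refine cls_sound hK hs hd (fun t cell LX LY p r c hr => wit_sound hK hs hd hk c hr) t.C t cell
      [] [] p r ⟨h, h1, h2, h3, mX, mY, cX, cY, fun b hb => ⟨h.hC b hb, h.hd b hb⟩,
      fun b hb => by simp at hb, fun b hb => by simp at hb,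
      fun x hx => Or.inl ((h.cov x).resolve_left hx)⟩ hr
  · obtain ⟨h4, h5⟩ := List.mem_filter.1 ha
    obtain ⟨x, rfl⟩ := h.ex a h4
    simp only [Bool.not_eq_true', Bool.or_eq_false_iff, beq_false] at h5
    have e1 := mt (h1.1 x).1 h5.1.1
    have e2 := mt (h2.1 x).1 h5.1.2
    have e3 := mt (h3.1 x).1 h5.2
    have := hs.le x
    exact ⟨x, rfl, h4, by omega⟩

theorem tag_none (h : Sat K t cell) {l : Nat} (hl : ∀ x, ρ x ≠ l) : Tag t cell ρ l 32 :=
  ⟨fun x => ⟨fun e => absurd e (hl x), fun e => by have := h.lt32 x; omega⟩, Or.inr rfl⟩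

theorem tag_named {x0 : V} {t' : Tm} {cell' : V → Nat} {s l : Nat}
    (nm : Named K t cell x0 t' cell' s) (hx : ρ x0 = l) (hu : ∀ x y, ρ x = l → ρ y = l → x = y) :
    Tag t' cell' ρ l s :=
  ⟨fun x => ⟨fun e => by rw [hu x x0 e hx]; exact nm.eq,
    fun e => by rw [nm.sat.uq x0 x (nm.eq ▸ nm.mem) (e.trans nm.eq.symm)]; exact hx⟩,
    Or.inl nm.mem⟩

theorem sep1_sound (hK : KOk K) (hs : SH K ρ d i TY) (hd : d < 5) (hi : i < 5)
    {k : Tm → List Nat → Option (List Nat)} (hk : Refu K k) {s1 rem : Nat} {p r : List Nat}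
    (h : Sat K t cell) (h1 : Tag t cell ρ 2 s1)
    (h3 : Tag t cell ρ 4 rem) (hr : sep1 d i TY rem k t s1 p = some r) : False := by
  obtain ⟨q, e1, e2⟩ := bnd_some (show bnd _ _ = some r from hr)
  by_cases hq : ∃ y, ρ y = 3
  · obtain ⟨y, hy⟩ := hq
    obtain ⟨t', cell', s, p', r', nm, e⟩ := choose_some hK h e2 y
      (fun e => by have := (h3.1 y).2 e; omega)
    have g1 := nm.tag ρ _ _ h1
    have g2 := tag_named nm hy hs.q1
    have g3 := nm.tag ρ _ _ h3
    rw [(beq_false _ _).2 (show s ≠ s1 from fun e => by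
      have := (g1.1 y).2 (nm.eq.trans e); omega)] at e
    cases e3 : Nat.beq s1 32 <;> rw [e3] at e <;> simp only [cond_true, cond_false] at e
    · have hs1 : s1 ∈ t'.N := g1.2.resolve_right ((beq_false _ _).1 e3)
      obtain ⟨x, hx⟩ := nm.sat.ex s1 hs1
      have hx2 := (g1.1 x).2 hx
      have hxy : x ≠ y := by rintro rfl; omega
      have hc := nm.sat.col x y hxy
      rw [hx, nm.eq, hs.pq x y hx2 hy, ← bt_eq] at hc
      rw [hc] at e
      refine sep2_sound hK hs hd hk (t := t'.res s1 s (only i)) (nm.sat.res hK (only_lt i hi)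
        (hx ▸ nm.sat.lt32 x) (nm.eq ▸ nm.sat.lt32 y) (fun a b _ ha hb => ?_)) g1 g2 g3 e
      rw [hs.pq a b ((g1.1 a).2 ha) ((g2.1 b).2 hb)]; exact only_bit i hi
    · exact sep2_sound hK hs hd hk nm.sat g1 g2 g3 e
  · exact sep2_sound hK hs hd hk h h1 (tag_none h (fun x e => hq ⟨x, e⟩)) h3 e1

theorem sep_sound (hK : KOk K) (hs : SH K ρ d i TY) (hd : d < 5) (hi : i < 5)
    {k : Tm → List Nat → Option (List Nat)} (hk : Refu K k) {rem : Nat} {p r : List Nat}
    (h : Sat K t cell) (h3 : Tag t cell ρ 4 rem) (hr : sep d i TY rem k t p = some r) : False := by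
  obtain ⟨q, e1, e2⟩ := bnd_some (show bnd _ _ = some r from hr)
  by_cases hq : ∃ y, ρ y = 2
  · obtain ⟨y, hy⟩ := hq
    obtain ⟨t', cell', s, p', r', nm, e⟩ := choose_some hK h e2 y
      (fun e => by have := (h3.1 y).2 e; omega)
    exact sep1_sound hK hs hd hi hk nm.sat (tag_named nm hy hs.p1) (nm.tag ρ _ _ h3) e
  · exact sep1_sound hK hs hd hi hk h (tag_none h (fun x e => hq ⟨x, e⟩)) h3 e1

end Pool.Agent.Lib.MP_ab18c1_co
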