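import Pool.Agent.Lib.MP_ab18c1_co.SepS
import Pool.Agent.Lib.MP_ab18c1_co.Defs

/-! Soundness of the steps that use the hypothesis that no fixing operation works. -/

namespace Pool.Agent.Lib.MP_ab18c1_co

variable {V α : Type}

/-- Colour codes: the first `nc` codes name single colours. -/
structure Env (c : V → V → α) (κ : α → ℕ) (col : ℕ → α) (nc : ℕ) : Prop where
  sym : ∀ x y, c x y = c y x
  lt : ∀ a, κ a < 5
  nc4 : nc ≤ 4
  kc : ∀ d, d < nc → κ (col d) = d
  ck : ∀ a, κ a < nc → col (κ a) = a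
  three : nc = 3 → ∀ a, κ a < 3

variable {c : V → V → α} {κ : α → ℕ} {col : ℕ → α} {nc : ℕ}

theorem Env.kok (E : Env c κ col nc) : KOk (fun x y => κ (c x y)) :=
  ⟨fun x y => by rw [E.sym], fun _ _ => E.lt _⟩

theorem Env.eq_col (E : Env c κ col nc) {a : α} {d : ℕ} (hd : d < nc) (h : κ a = d) :
    a = col d := by rw [← h, E.ck a (h ▸ hd)]

variable {t : Tm} {cell : V → ℕ} {A : V → Prop} {rem : ℕ}

/-- The active vertices are those outside the named cell `rem`. -/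
def Act (t : Tm) (cell : V → ℕ) (A : V → Prop) (rem : ℕ) : Prop :=
  (∀ x, A x ↔ cell x ≠ rem) ∧ (rem ∈ t.N ∨ rem = 32)

theorem edgeOk_some (E : Env c κ col nc) (h : Sat (fun x y => κ (c x y)) t cell) {u v j : ℕ}
    (hj : j < nc) (he : edgeOk t u v rem j = true) :
    ∃ u0 v0, cell u0 = u ∧ cell v0 = v ∧ u ∈ t.N ∧ v ∈ t.N ∧ u ≠ rem ∧ v ≠ rem ∧ u0 ≠ v0 ∧
      c u0 v0 = col j := by
  simp only [edgeOk, Bool.and_eq_true, mem_iff, Bool.not_eq_true', Bool.or_eq_false_iff,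
    beq_false, beq_iff] at he
  obtain ⟨⟨⟨h1, h2⟩, ⟨h3, h4⟩, h5⟩, h6⟩ := he
  obtain ⟨u0, rfl⟩ := h.ex u h1
  obtain ⟨v0, rfl⟩ := h.ex v h2
  have hne : u0 ≠ v0 := by rintro rfl; exact h3 rfl
  have := h.col u0 v0 hne
  rw [h6] at this
  exact ⟨u0, v0, rfl, rfl, h1, h2, h4, h5, hne, E.eq_col hj (one_bit this)⟩

theorem tyL_bit {M u v w q : ℕ} {l : List ℕ} (hw : w ∈ l) (h1 : w ≠ u) (h2 : w ≠ v)
    (h3 : w ≠ rem) (hq : (Nat.mul (gt M w v) (sp (gt M w u))).testBit q = true) :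
    (tyL M u v rem l).testBit q = true := by
  induction l with
  | nil => simp at hw
  | cons b l ih =>
    unfold tyL
    rcases List.mem_cons.1 hw with rfl | hw
    · rw [(beq_false _ _).2 h1, (beq_false _ _).2 h2, (beq_false _ _).2 h3]
      exact lor_bit_l hq
    · cases (Nat.beq b u || Nat.beq b v || Nat.beq b rem)
      · exact lor_bit_r (ih hw)
      · exact ih hw

open Classical in
theorem sep_of_bad (E : Env c κ col nc) (h : Sat (fun x y => κ (c x y)) t cell)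
    (hA : Act t cell A rem) {d i TY : ℕ} (hd : d < nc) (hi : i < nc) {u0 v0 : V}
    {ρ : V → ℕ} {π : V → V} {ta tb : V → α}
    (B : Bad c A (col i) u0 v0 (fun _ _ _ => col d) ρ π ta tb)
    (hTY : ∀ w, A w → w ≠ u0 → w ≠ v0 → TY.testBit (8 * κ (c w u0) + κ (c w v0)) = true)
    {k : Tm → List ℕ → Option (List ℕ)} (hk : Refu (fun x y => κ (c x y)) k) {p r : List ℕ}
    (hr : sep d i TY rem k t p = some r) : False := by
  have n4 := E.nc4
  let σ : V → ℕ := fun x => if A x then ρ x else 4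
  have hσ : ∀ x l, l < 4 → σ x = l → A x ∧ ρ x = l := by
    intro x l hl e
    by_cases hx : A x
    · exact ⟨hx, by simpa [σ, hx] using e⟩
    · simp [σ, hx] at e; omega
  have hσ' : ∀ x, A x → σ x = ρ x := fun x hx => by simp [σ, hx]
  refine sep_sound (ρ := σ) E.kok ⟨fun x => ?_, fun x y hx hy => ?_, fun x y hx hy => ?_,
    fun x y hx hy => ?_, fun x y hx hy => ?_, ?_, ?_, fun x hx => ?_⟩ (by omega) (by omega) hk h
    ⟨fun x => ?_, hA.2⟩ hr
  · by_cases hx : A x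
    · rw [hσ' x hx]; have := B.le x; omega
    · simp [σ, hx]
  · obtain ⟨a1, a2⟩ := hσ x 0 (by decide) hx
    obtain ⟨b1, b2⟩ := hσ y 1 (by decide) hy
    show κ (c x y) = d
    rw [B.c01 x y a1 b1 a2 b2, E.kc d hd]
  · obtain ⟨a1, a2⟩ := hσ x 2 (by decide) hx
    obtain ⟨b1, b2⟩ := hσ y 2 (by decide) hy
    exact B.c22 x y a1 b1 a2 b2
  · obtain ⟨a1, a2⟩ := hσ x 3 (by decide) hx
    obtain ⟨b1, b2⟩ := hσ y 3 (by decide) hy
    exact B.c33 x y a1 b1 a2 b2
  · obtain ⟨a1, a2⟩ := hσ x 2 (by decide) hx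
    obtain ⟨b1, b2⟩ := hσ y 3 (by decide) hy
    show κ (c x y) = i
    rw [B.c23 x y a1 b1 a2 b2, E.kc i hi]
  · obtain ⟨x, a1, a2⟩ := B.ex0
    exact ⟨x, by rw [hσ' x a1, a2]⟩
  · obtain ⟨x, a1, a2⟩ := B.ex1
    exact ⟨x, by rw [hσ' x a1, a2]⟩
  · obtain ⟨a1, a2⟩ := hσ x 0 (by decide) hx
    obtain ⟨b1, b2, b3⟩ := B.blob x a1 a2
    refine ⟨κ (c (π x) u0), κ (c (π x) v0), E.lt _, E.lt _, hTY _ b1 b2 b3, fun s hs => ?_,
      fun s hs => ?_⟩
    · obtain ⟨e1, e2⟩ := hσ s 2 (by decide) hs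
      show κ (c x s) = _
      rw [B.c02 x s a1 e1 a2 e2]
    · obtain ⟨e1, e2⟩ := hσ s 3 (by decide) hs
      show κ (c x s) = _
      rw [B.c03 x s a1 e1 a2 e2]
  · by_cases hx : A x
    · rw [hσ' x hx]
      have := B.le x
      have := (hA.1 x).1 hx
      constructor
      · omega
      · intro e; exact absurd e this
    · have h2 : cell x = rem := by
        by_contra h3; exact hx ((hA.1 x).2 h3)
      simp [σ, hx, h2]

/-- The code of the role of a vertex. -/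
def code (ty : Bool) (κ : α → ℕ) (cell ρ : V → ℕ) (π : V → V) (ta tb : V → α) (x : V) : ℕ :=
  if ρ x = 0 then cell (π x) + 11 else if ρ x = 1 then
    (bif ty then 3 * κ (ta x) + κ (tb x) else 0) else if ρ x = 2 then 9 else 10

def phi (ty : Bool) (TB : ℕ) (κ : α → ℕ) (col : ℕ → α) (cell : V → ℕ) (w : V) (a b : α) : α :=
  col (tab TB (cell w) (bif ty then 3 * κ a + κ b else 0))

section
variable {ty : Bool} {TB i : ℕ} {u0 v0 : V} {ρ : V → ℕ} {π : V → V} {ta tb : V → α}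

theorem code_cases (E : Env c κ col 3) (hle : ∀ x, ρ x ≤ 3) (x : V) :
    (ρ x = 0 ∧ code ty κ cell ρ π ta tb x = cell (π x) + 11) ∨
    (ρ x = 1 ∧ code ty κ cell ρ π ta tb x = (bif ty then 3 * κ (ta x) + κ (tb x) else 0) ∧
      code ty κ cell ρ π ta tb x < 9) ∨
    (ρ x = 2 ∧ code ty κ cell ρ π ta tb x = 9) ∨ (ρ x = 3 ∧ code ty κ cell ρ π ta tb x = 10) := by
  have := hle x
  have h1 := E.three rfl (ta x)
  have h2 := E.three rfl (tb x)
  unfold code
  by_cases e0 : ρ x = 0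
  · simp [e0]
  by_cases e1 : ρ x = 1
  · refine Or.inr (Or.inl ⟨e1, by simp [e1], ?_⟩)
    cases ty <;> simp [e1]; omega
  by_cases e2 : ρ x = 2
  · simp [e2]
  · have : ρ x = 3 := by omega
    simp [this]

theorem pairLe_ok (E : Env c κ col 3) (h : Sat (fun x y => κ (c x y)) t cell) (hi : i < 3)
    (B : Bad c A (col i) u0 v0 (phi ty TB κ col cell) ρ π ta tb) {x y : V} (hx : A x) (hy : A y)
    (hxy : x ≠ y) {m : ℕ} (hm : m.testBit (κ (c x y)) = true)
    (hle : code ty κ cell ρ π ta tb x ≤ code ty κ cell ρ π ta tb y) :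
    pairLe ty t.M TB i (cell u0) (cell v0) m (code ty κ cell ρ π ta tb x)
      (code ty κ cell ρ π ta tb y) = true := by
  have h1 := E.three rfl (ta x)
  have h2 := E.three rfl (tb x)
  have sb : ∀ w : ℕ, Nat.sub (w + 11) 11 = w := fun w => Nat.add_sub_cancel w 11
  have f9 : ∀ w : ℕ, Nat.blt (w + 11) 9 = false := fun w => (blt_false _ _).2 (by omega)
  have g9 : ∀ w : ℕ, Nat.beq (w + 11) 9 = false := fun w => (beq_false _ _).2 (by omega)
  have g10 : ∀ w : ℕ, Nat.beq (w + 11) 10 = false := fun w => (beq_false _ _).2 (by omega)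
  rcases code_cases (ty := ty) (cell := cell) (π := π) (ta := ta) (tb := tb) E B.le x with
    ⟨a1, a2⟩ | ⟨a1, a2, a3⟩ | ⟨a1, a2⟩ | ⟨a1, a2⟩ <;>
  rcases code_cases (ty := ty) (cell := cell) (π := π) (ta := ta) (tb := tb) E B.le y with
    ⟨b1, b2⟩ | ⟨b1, b2, b3⟩ | ⟨b1, b2⟩ | ⟨b1, b2⟩
  · rw [a2, b2]; unfold pairLe
    simp only [f9, g9, g10, cond_false, sb]
    by_cases e : cell (π x) = cell (π y)
    · rw [e, (beq_iff _ _).2 rfl]; rfl
    · have hne : π x ≠ π y := fun e2 => e (by rw [e2])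
      have := (B.c00 x y hx hy hxy a1 b1).resolve_left hne
      rw [land_ne hm (this ▸ h.col _ _ hne)]; simp
  · omega
  · omega
  · omega
  · unfold pairLe
    rw [b2, (blt_iff _ _).2 a3]
    simp only [f9, g9, g10, cond_false, cond_true, sb]
    have := B.c01 y x hy hx b1 a1
    rw [E.sym, this] at hm
    unfold phi at hm
    rw [E.kc _ (tab_lt _ _ _), ← a2] at hm
    rw [bt_eq]; exact hm
  · unfold pairLe
    rw [(blt_iff _ _).2 b3]; rfl
  · unfold pairLe
    rw [b2, (blt_iff _ _).2 a3, a2]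
    rw [B.c12 x y hx hy a1 b1] at hm
    cases ty
    · rfl
    · have e : Nat.div (3 * κ (ta x) + κ (tb x)) 3 = κ (ta x) := by
        show (3 * κ (ta x) + κ (tb x)) / 3 = _
        omega
      show (!true || bt m (Nat.div (3 * κ (ta x) + κ (tb x)) 3)) = true
      rw [e, bt_eq, hm]; rfl
  · unfold pairLe
    rw [b2, (blt_iff _ _).2 a3, a2]
    rw [B.c13 x y hx hy a1 b1] at hm
    cases ty
    · rfl
    · have e : Nat.mod (3 * κ (ta x) + κ (tb x)) 3 = κ (tb x) := by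
        show (3 * κ (ta x) + κ (tb x)) % 3 = _
        omega
      show (!true || bt m (Nat.mod (3 * κ (ta x) + κ (tb x)) 3)) = true
      rw [e, bt_eq, hm]; rfl
  · rw [a2, b2]; unfold pairLe
    simp only [f9, g9, g10, cond_false, sb]
    have := B.c02 y x hy hx b1 a1
    rw [E.sym, this] at hm
    show (!(Nat.beq (Nat.land m (gt t.M (cell (π y)) (cell u0))) 0)) = true
    rw [land_ne hm (h.col _ _ (B.blob y hy b1).2.1)]; rfl
  · omega
  · exact absurd (B.c22 x y hx hy a1 b1) hxy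
  · rw [a2, b2]
    rw [B.c23 x y hx hy a1 b1, E.kc i hi, ← bt_eq] at hm
    exact hm
  · rw [a2, b2]; unfold pairLe
    simp only [f9, g9, g10, cond_false, sb]
    have := B.c03 y x hy hx b1 a1
    rw [E.sym, this] at hm
    show (!(Nat.beq (Nat.land m (gt t.M (cell (π y)) (cell v0))) 0)) = true
    rw [land_ne hm (h.col _ _ (B.blob y hy b1).2.2)]; rfl
  · omega
  · omega
  · exact absurd (B.c33 x y hx hy a1 b1) hxy

theorem pairOk_ok (E : Env c κ col 3) (h : Sat (fun x y => κ (c x y)) t cell) (hi : i < 3)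
    (B : Bad c A (col i) u0 v0 (phi ty TB κ col cell) ρ π ta tb) {x y : V} (hx : A x) (hy : A y)
    (hxy : x ≠ y) {m : ℕ} (hm : m.testBit (κ (c x y)) = true) :
    pairOk ty t.M TB i (cell u0) (cell v0) m (code ty κ cell ρ π ta tb x)
      (code ty κ cell ρ π ta tb y) = true := by
  unfold pairOk
  cases e : Nat.ble (code ty κ cell ρ π ta tb x) (code ty κ cell ρ π ta tb y)
  · exact pairLe_ok E h hi B hy hx hxy.symm (by rw [E.sym]; exact hm)
      (le_of_lt ((ble_false _ _).1 e))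
  · exact pairLe_ok E h hi B hx hy hxy hm ((ble_iff _ _).1 e)

end

end Pool.Agent.Lib.MP_ab18c1_co
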